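import Pool.Agent.Helper227.KC

set_option autoImplicit false

namespace Pool.Agent.Helper227

namespace KC

/-- weight of the `n`-th request -/
noncomputable def wr (req : ℕ → Option (ℕ × List Bool)) (n : ℕ) : ℝ :=
  (req n).elim 0 fun p => (1 / 2) ^ p.1

/-- free strings before stage `n` -/
def st (req : ℕ → Option (ℕ × List Bool)) : ℕ → List (List Bool)
  | 0 => [[]]
  | n + 1 => (req n).elim (st req n) fun p => (alloc (st req n) p.1).2

/-- codeword of stage `n` -/
def cw (req : ℕ → Option (ℕ × List Bool)) (n : ℕ) : List Bool :=
  (req n).elim [] fun p => (alloc (st req n) p.1).1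

variable {req : ℕ → Option (ℕ × List Bool)}

theorem inv (hb : ∀ n, ∑ i ∈ Finset.range n, wr req i ≤ 1) (n : ℕ) :
    ((st req n).Pairwise (fun a b => b.length < a.length) ∧ (st req n).Pairwise Inc ∧
      (∀ s ∈ st req n, ∀ i < n, (req i).isSome → Inc s (cw req i)) ∧
      tot (st req n) + ∑ i ∈ Finset.range n, wr req i = 1) ∧
    ∀ p, req n = some p → ∃ s ∈ st req n, s.length ≤ p.1 := by
  induction n with
  | zero =>
    refine ⟨⟨by simp [st], by simp [st], fun s _ i hi => absurd hi (Nat.not_lt_zero i), ?_⟩, ?_⟩
    · simp [st, wt]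
    · intro p _
      exact ⟨[], by simp [st], Nat.zero_le _⟩
  | succ n ih =>
    obtain ⟨⟨h1, h2, h3, h4⟩, h5⟩ := ih
    have key : ((st req (n + 1)).Pairwise (fun a b => b.length < a.length) ∧
      (st req (n + 1)).Pairwise Inc ∧
      (∀ s ∈ st req (n + 1), ∀ i < n + 1, (req i).isSome → Inc s (cw req i)) ∧
      tot (st req (n + 1)) + ∑ i ∈ Finset.range (n + 1), wr req i = 1) := by
      rcases hq : req n with _ | p
      · have hst : st req (n + 1) = st req n := by simp [st, hq]
        rw [hst, Finset.sum_range_succ]
        refine ⟨h1, h2, fun s hs i hi hi' => ?_, ?_⟩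
        · rcases Nat.lt_succ_iff_lt_or_eq.1 hi with h | h
          · exact h3 s hs i h hi'
          · subst h; rw [hq] at hi'; cases hi'
        · have : wr req n = 0 := by simp [wr, hq]
          rw [this, add_zero]; exact h4
      · obtain ⟨L1, s, L2, e1, e2, e3, e4⟩ := alloc_spec (h5 p hq)
        have hst : st req (n + 1) = L1 ++ ((split s (p.1 - s.length)).2 ++ L2) := by
          simp [st, hq, e4]
        have hcw : cw req n = (split s (p.1 - s.length)).1 := by simp [cw, hq, e4]
        obtain ⟨d, hd⟩ : ∃ d, d = p.1 - s.length := ⟨_, rfl⟩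
        rw [← hd] at hst hcw
        rw [e1] at h1 h2 h3 h4
        rw [hst]
        rw [List.pairwise_append] at h1 h2
        obtain ⟨a1, a2, a3⟩ := h1
        obtain ⟨b1, b2, b3⟩ := h2
        rw [List.pairwise_cons] at a2 b2
        have hmem : ∀ x ∈ L1 ++ ((split s d).2 ++ L2), (x ∈ L1 ∨ x ∈ L2) ∨ x ∈ (split s d).2 := by
          intro x hx
          simp only [List.mem_append] at hx
          tauto
        refine ⟨?_, ?_, ?_, ?_⟩
        · rw [List.pairwise_append]
          refine ⟨a1, ?_, ?_⟩
          · rw [List.pairwise_append]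
            refine ⟨sib_decr s d, a2.2, fun x hx y hy => ?_⟩
            have := sib_length s d x hx
            have := a2.1 y hy
            omega
          · intro x hx y hy
            rcases List.mem_append.1 hy with hy | hy
            · have := sib_length s d y hy
              have := e3 x hx
              omega
            · exact a3 x hx y (List.mem_cons_of_mem _ hy)
        · rw [List.pairwise_append]
          refine ⟨b1, ?_, ?_⟩
          · rw [List.pairwise_append]
            exact ⟨(sib_inc s d).2, b2.2, fun x hx y hy => (b2.1 y hy).ext_left (sib_prefix s d x hx)⟩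
          · intro x hx y hy
            rcases List.mem_append.1 hy with hy | hy
            · exact (b3 x hx s (List.mem_cons_self)).ext_right (sib_prefix s d y hy)
            · exact b3 x hx y (List.mem_cons_of_mem _ hy)
        · intro x hx i hi hi'
          rcases Nat.lt_succ_iff_lt_or_eq.1 hi with h | h
          · rcases hmem x hx with h' | h'
            · refine h3 x ?_ i h hi'
              simp only [List.mem_append, List.mem_cons]
              tauto
            · exact (h3 s (by simp) i h hi').ext_left (sib_prefix s d x h')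
          · subst h
            rw [hcw]
            rcases hmem x hx with (h' | h') | h'
            · exact (b3 x h' s (List.mem_cons_self)).ext_right (split_prefix s d)
            · exact ((b2.1 x h').ext_left (split_prefix s d)).symm
            · exact ((sib_inc s d).1 x h').symm
        · have hwr : wr req n = wt (split s d).1 := by
            have : s.length + (p.1 - s.length) = p.1 := by omega
            simp [wr, hq, wt, split_length, hd, this]
          have := split_tot s d
          rw [Finset.sum_range_succ, hwr, tot_append, tot_append]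
          rw [tot_append, tot_cons] at h4
          linarith
    refine ⟨key, fun p hp => ?_⟩
    by_contra hc
    push Not at hc
    obtain ⟨k1, _, _, k4⟩ := key
    obtain ⟨m, hm⟩ : ∃ m, p.1 ≤ m ∧ ∀ x ∈ st req (n + 1), x.length ≤ m := by
      refine ⟨p.1 + ((st req (n + 1)).map List.length).sum, by omega, fun x hx => ?_⟩
      have := List.le_sum_of_mem (List.mem_map_of_mem (f := List.length) hx)
      omega
    have h6 := tot_le k1 hc m hm.1 hm.2
    have h7 := hb (n + 1 + 1)
    rw [Finset.sum_range_succ] at h7
    have h8 : wr req (n + 1) = (1 / 2) ^ p.1 := by simp [wr, hp]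
    have h9 : (0 : ℝ) < (1 / 2) ^ m := by positivity
    linarith

theorem cw_length (hb : ∀ n, ∑ i ∈ Finset.range n, wr req i ≤ 1) {n : ℕ} {p : ℕ × List Bool}
    (hp : req n = some p) : (cw req n).length = p.1 := by
  obtain ⟨L1, s, L2, e1, e2, e3, e4⟩ := alloc_spec ((inv hb n).2 p hp)
  have hcw : cw req n = (split s (p.1 - s.length)).1 := by simp [cw, hp, e4]
  rw [hcw, split_length]
  omega

theorem cw_inc (hb : ∀ n, ∑ i ∈ Finset.range n, wr req i ≤ 1) {i j : ℕ} (hij : i < j)
    (hi : (req i).isSome) (hj : (req j).isSome) : Inc (cw req i) (cw req j) := by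
  obtain ⟨p, hp⟩ := Option.isSome_iff_exists.1 hj
  obtain ⟨L1, s, L2, e1, e2, e3, e4⟩ := alloc_spec ((inv hb j).2 p hp)
  have hcw : cw req j = (split s (p.1 - s.length)).1 := by simp [cw, hp, e4]
  rw [hcw]
  refine Inc.ext_right ?_ (split_prefix s _)
  exact ((inv hb j).1.2.2.1 s (by rw [e1]; simp) i hij hi).symm

theorem primrec_split : Primrec₂ split := by
  have h : Primrec₂ fun (s : List Bool) (d : ℕ) => (Nat.rec (s, [])
      (fun _ q => (q.1 ++ [false], (q.1 ++ [true]) :: q.2)) d : List Bool × List (List Bool)) := by
    refine Primrec.nat_rec (f := fun s : List Bool => (s, ([] : List (List Bool))))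
      (g := fun _ p => (p.2.1 ++ [false], (p.2.1 ++ [true]) :: p.2.2)) ?_ ?_
    · exact Primrec.id.pair (Primrec.const [])
    · have e1 : Primrec fun x : List Bool × ℕ × List Bool × List (List Bool) => x.2.2.1 :=
        Primrec.fst.comp (Primrec.snd.comp Primrec.snd)
      have e2 : Primrec fun x : List Bool × ℕ × List Bool × List (List Bool) => x.2.2.2 :=
        Primrec.snd.comp (Primrec.snd.comp Primrec.snd)
      exact (Primrec.list_append.comp e1 (Primrec.const [false])).pair
        (Primrec.list_cons.comp (Primrec.list_append.comp e1 (Primrec.const [true])) e2)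
  refine h.of_eq fun s d => ?_
  induction d with
  | zero => rfl
  | succ d ih => simp only [split]; rw [← ih]

theorem primrec_idx : Primrec₂ idx := by
  unfold idx
  refine Primrec.list_findIdx (f := fun x : List (List Bool) × ℕ => x.1)
    (p := fun x s => decide (s.length ≤ x.2)) Primrec.fst ?_
  have : PrimrecPred fun y : (List (List Bool) × ℕ) × List Bool => y.2.length ≤ y.1.2 :=
    Primrec.nat_le.comp (Primrec.list_length.comp Primrec.snd) (Primrec.snd.comp Primrec.fst)
  exact this.decide

theorem primrec_alloc : Primrec₂ alloc := by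
  have e0 : Primrec fun x : List (List Bool) × ℕ => idx x.1 x.2 := primrec_idx
  have e1 : Primrec fun x : List (List Bool) × ℕ => x.1.getD (idx x.1 x.2) [] :=
    (Primrec.list_getD []).comp Primrec.fst e0
  have e2 : Primrec fun x : List (List Bool) × ℕ => split (x.1.getD (idx x.1 x.2) [])
      (x.2 - (x.1.getD (idx x.1 x.2) []).length) :=
    primrec_split.comp e1 (Primrec.nat_sub.comp Primrec.snd (Primrec.list_length.comp e1))
  unfold alloc
  exact (Primrec.fst.comp e2).pair (Primrec.list_append.comp
    (Primrec.list_take.comp e0 Primrec.fst) (Primrec.list_append.comp (Primrec.snd.comp e2)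
    (Primrec.list_drop.comp (Primrec.succ.comp e0) Primrec.fst)))

theorem primrec_st (hreq : Primrec req) : Primrec (st req) := by
  have h : Primrec fun n : ℕ => (Nat.rec [[]] (fun n q => (req n).elim q fun p =>
      (alloc q p.1).2) n : List (List Bool)) := by
    refine Primrec.nat_rec' (f := fun n : ℕ => n) (g := fun _ => ([[]] : List (List Bool)))
      (h := fun _ p => (req p.1).elim p.2 fun r => (alloc p.2 r.1).2) Primrec.id
      (Primrec.const _) ?_
    have := Primrec.option_casesOn (o := fun x : ℕ × ℕ × List (List Bool) => req x.2.1)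
      (f := fun x => x.2.2) (g := fun x r => (alloc x.2.2 r.1).2)
      (hreq.comp (Primrec.fst.comp Primrec.snd)) (Primrec.snd.comp Primrec.snd)
      (Primrec.snd.comp (primrec_alloc.comp (Primrec.snd.comp (Primrec.snd.comp Primrec.fst))
        (Primrec.fst.comp Primrec.snd)))
    refine this.of_eq fun x => ?_
    change _ = (req x.2.1).elim x.2.2 fun r => (alloc x.2.2 r.1).2
    cases req x.2.1 <;> rfl
  refine h.of_eq fun n => ?_
  induction n with
  | zero => rfl
  | succ n ih => simp only [st]; rw [← ih]

theorem primrec_cw (hreq : Primrec req) : Primrec (cw req) := by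
  have := Primrec.option_casesOn (o := fun n : ℕ => req n)
    (f := fun _ => ([] : List Bool)) (g := fun n r => (alloc (st req n) r.1).1)
    hreq (Primrec.const _) (Primrec.fst.comp (primrec_alloc.comp
      ((primrec_st hreq).comp Primrec.fst) (Primrec.fst.comp Primrec.snd)))
  refine this.of_eq fun n => ?_
  unfold cw
  cases req n <;> rfl

/-- The Kraft-Chaitin theorem. -/
theorem kraft_chaitin (hreq : Primrec req) (hb : ∀ n, ∑ i ∈ Finset.range n, wr req i ≤ 1) :
    ∃ M : List Bool →. List Bool, Partrec M ∧
      (∀ σ τ, (M σ).Dom → (M τ).Dom → σ <+: τ → σ = τ) ∧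
      ∀ n r y, req n = some (r, y) → ∃ τ : List Bool, τ.length = r ∧ y ∈ M τ := by
  let f : List Bool → ℕ → Option (List Bool) := fun τ n =>
    if cw req n = τ then (req n).map Prod.snd else none
  have hf : Primrec₂ f := by
    refine Primrec.ite ?_ ?_ (Primrec.const none)
    · exact Primrec.eq.comp ((primrec_cw hreq).comp Primrec.snd) Primrec.fst
    · exact Primrec.option_map (hreq.comp Primrec.snd) (Primrec.snd.comp Primrec.snd)
  have hspec : ∀ τ y, y ∈ Nat.rfindOpt (f τ) → ∃ n r, req n = some (r, y) ∧ cw req n = τ := by
    intro τ y hy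
    obtain ⟨n, hn⟩ := Nat.rfindOpt_spec hy
    simp only [f, Option.mem_def] at hn
    split_ifs at hn with h
    rcases hq : req n with _ | p
    · rw [hq] at hn; cases hn
    · rw [hq] at hn
      refine ⟨n, p.1, ?_, h⟩
      simp only [Option.map_some, Option.some.injEq] at hn
      rw [hq, ← hn]
  refine ⟨fun τ => Nat.rfindOpt (f τ), Partrec.rfindOpt hf.to_comp, ?_, ?_⟩
  · intro σ τ hσ hτ hp
    obtain ⟨n, r, h1, h2⟩ := hspec σ _ (Part.get_mem hσ)
    obtain ⟨m, r', h3, h4⟩ := hspec τ _ (Part.get_mem hτ)
    rcases Nat.lt_trichotomy n m with h | h | h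
    · have := cw_inc hb h (by rw [h1]; rfl) (by rw [h3]; rfl)
      rw [h2, h4] at this
      exact absurd hp this.1
    · subst h
      rw [← h2, ← h4]
    · have := cw_inc hb h (by rw [h3]; rfl) (by rw [h1]; rfl)
      rw [h2, h4] at this
      exact absurd hp this.2
  · intro n r y h
    refine ⟨cw req n, cw_length hb h, ?_⟩
    have hdom : (Nat.rfindOpt (f (cw req n))).Dom := by
      rw [Nat.rfindOpt_dom]
      exact ⟨n, y, by simp [f, h]⟩
    obtain ⟨m, r', h1, h2⟩ := hspec _ _ (Part.get_mem hdom)
    have : m = n := by
      rcases Nat.lt_trichotomy m n with hlt | he | hlt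
      · have := (cw_inc hb hlt (by rw [h1]; rfl) (by rw [h]; rfl)).1
        rw [h2] at this
        exact absurd (List.prefix_refl _) this
      · exact he
      · have := (cw_inc hb hlt (by rw [h]; rfl) (by rw [h1]; rfl)).1
        rw [h2] at this
        exact absurd (List.prefix_refl _) this
    subst this
    rw [h] at h1
    simp only [Option.some.injEq, Prod.mk.injEq] at h1
    rw [h1.2]
    exact Part.get_mem hdom

end KC

end Pool.Agent.Helper227
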