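import Pool.Agent.Helper227.Force

set_option autoImplicit false

namespace Pool.Agent.Helper227

open MeasureTheory Encodable
open scoped ENNReal

/-- A set disjoint from many pairwise independent sets is small. -/
theorem chebyshev {Ω ι : Type*} [MeasurableSpace Ω] [DecidableEq ι] (μ : Measure Ω)
    [IsProbabilityMeasure μ] (S : Finset ι) (O : ι → Set Ω) (hO : ∀ x ∈ S, MeasurableSet (O x))
    (p : ι → ℝ) (h1 : ∀ x ∈ S, μ.real (O x) = p x)
    (h2 : ∀ x ∈ S, ∀ y ∈ S, x ≠ y → μ.real (O x ∩ O y) = p x * p y)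
    (Q : Set Ω) (hQ : MeasurableSet Q) (hd : ∀ x ∈ S, Disjoint Q (O x)) :
    (∑ x ∈ S, p x) * μ.real Q ≤ 1 := by
  obtain ⟨m, hm⟩ : ∃ m : ℝ, m = ∑ x ∈ S, p x := ⟨_, rfl⟩
  rw [← hm]
  have hp0 : ∀ x ∈ S, 0 ≤ p x := fun x hx => by rw [← h1 x hx]; exact measureReal_nonneg
  have hm0 : 0 ≤ m := by rw [hm]; exact Finset.sum_nonneg hp0
  rcases hm0.eq_or_lt with hz | hpos
  · rw [← hz, zero_mul]; exact zero_le_one
  let a : ι → Ω → ℝ := fun x => (O x).indicator 1
  have hai : ∀ x ∈ S, Integrable (a x) μ := fun x hx =>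
    (integrable_const (1 : ℝ)).indicator (hO x hx)
  have haai : ∀ x ∈ S, ∀ y ∈ S, Integrable (fun ω => a x ω * a y ω) μ := by
    intro x hx y hy
    have : (fun ω => a x ω * a y ω) = (O x ∩ O y).indicator 1 := by
      funext ω
      by_cases hx' : ω ∈ O x <;> by_cases hy' : ω ∈ O y <;> simp [a, hx', hy']
    rw [this]
    exact (integrable_const (1 : ℝ)).indicator ((hO x hx).inter (hO y hy))
  have hia : ∀ x ∈ S, ∫ ω, a x ω ∂μ = p x := by
    intro x hx
    rw [← h1 x hx]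
    exact integral_indicator_one (hO x hx)
  have hiaa : ∀ x ∈ S, ∀ y ∈ S, ∫ ω, a x ω * a y ω ∂μ ≤ p x * p y + (if x = y then p x else 0) := by
    intro x hx y hy
    have : (fun ω => a x ω * a y ω) = (O x ∩ O y).indicator 1 := by
      funext ω
      by_cases hx' : ω ∈ O x <;> by_cases hy' : ω ∈ O y <;> simp [a, hx', hy']
    rw [this, integral_indicator_one ((hO x hx).inter (hO y hy))]
    by_cases he : x = y
    · subst he
      rw [Set.inter_self, h1 x hx, if_pos rfl]
      have := mul_nonneg (hp0 x hx) (hp0 x hx)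
      linarith
    · rw [h2 x hx y hy he, if_neg he]
      linarith
  let N : Ω → ℝ := fun ω => ∑ x ∈ S, a x ω
  have hNi : Integrable N μ := integrable_finsetSum _ hai
  have hNN : ∀ ω, N ω * N ω = ∑ x ∈ S, ∑ y ∈ S, a x ω * a y ω := fun ω => by
    rw [Finset.sum_mul_sum]
  have hNNi : Integrable (fun ω => N ω * N ω) μ := by
    simp only [hNN]
    exact integrable_finsetSum _ fun x hx => integrable_finsetSum _ fun y hy => haai x hx y hy
  have hN : ∫ ω, N ω ∂μ = m := by
    rw [integral_finsetSum _ hai, Finset.sum_congr rfl hia, hm]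
  have hNN' : ∫ ω, N ω * N ω ∂μ ≤ m * m + m := by
    simp only [hNN]
    rw [integral_finsetSum _ fun x hx => integrable_finsetSum _ fun y hy => haai x hx y hy]
    have : ∀ x ∈ S, ∫ ω, ∑ y ∈ S, a x ω * a y ω ∂μ ≤ p x * m + p x := by
      intro x hx
      rw [integral_finsetSum _ fun y hy => haai x hx y hy]
      refine le_trans (Finset.sum_le_sum fun y hy => hiaa x hx y hy) ?_
      rw [Finset.sum_add_distrib, Finset.sum_ite_eq, ← Finset.mul_sum, ← hm]
      simp [hx]
    refine le_trans (Finset.sum_le_sum this) ?_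
    rw [Finset.sum_add_distrib, ← Finset.sum_mul, ← hm]
  have hpt : ∀ ω, 0 ≤ N ω * N ω - (2 * m) * N ω + m * m - (m * m) * Q.indicator 1 ω := by
    intro ω
    by_cases hω : ω ∈ Q
    · have hz : N ω = 0 := by
        refine Finset.sum_eq_zero fun x hx => ?_
        have : ω ∉ O x := fun h => Set.disjoint_left.1 (hd x hx) hω h
        simp [a, this]
      rw [hz]
      simp [hω]
    · simp only [Set.indicator_of_notMem hω]
      nlinarith [sq_nonneg (N ω - m)]
  have hI1 : Integrable (fun ω => N ω * N ω - (2 * m) * N ω) μ := hNNi.sub (hNi.const_mul _)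
  have hI2 : Integrable (fun ω => N ω * N ω - (2 * m) * N ω + m * m) μ :=
    hI1.add (integrable_const _)
  have hI3 : Integrable (fun ω => (m * m) * Q.indicator (1 : Ω → ℝ) ω) μ :=
    ((integrable_const (1 : ℝ)).indicator hQ).const_mul _
  have hint := integral_nonneg (μ := μ) (f := fun ω =>
    N ω * N ω - (2 * m) * N ω + m * m - (m * m) * Q.indicator (1 : Ω → ℝ) ω) hpt
  have e1 : ∫ ω, (N ω * N ω - (2 * m) * N ω + m * m - (m * m) * Q.indicator (1 : Ω → ℝ) ω) ∂μ =
      ∫ ω, (N ω * N ω - (2 * m) * N ω + m * m) ∂μ - ∫ ω, (m * m) * Q.indicator (1 : Ω → ℝ) ω ∂μ :=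
    integral_sub hI2 hI3
  have e2 : ∫ ω, (N ω * N ω - (2 * m) * N ω + m * m) ∂μ =
      ∫ ω, (N ω * N ω - (2 * m) * N ω) ∂μ + ∫ _ω : Ω, m * m ∂μ := integral_add hI1 (integrable_const _)
  have e3 : ∫ ω, (N ω * N ω - (2 * m) * N ω) ∂μ = ∫ ω, N ω * N ω ∂μ - ∫ ω, (2 * m) * N ω ∂μ :=
    integral_sub hNNi (hNi.const_mul _)
  have e4 : ∫ ω, (2 * m) * N ω ∂μ = (2 * m) * ∫ ω, N ω ∂μ := integral_const_mul _ _
  have e5 : ∫ ω, (m * m) * Q.indicator (1 : Ω → ℝ) ω ∂μ = (m * m) * μ.real Q := by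
    rw [integral_const_mul, integral_indicator_one hQ]
  have e6 : ∫ _ω : Ω, m * m ∂μ = m * m := by simp
  rw [e1, e2, e3, e4, e5, e6, hN] at hint
  have : m * (m * μ.real Q) ≤ m * 1 := by nlinarith
  exact le_of_mul_le_mul_left this hpos

end Pool.Agent.Helper227
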