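import Pool.Agent.Helper227.Force3

set_option autoImplicit false

namespace Pool.Agent.Helper227

open MeasureTheory Encodable
open scoped ENNReal

/-- number of ones of a string -/
def ct (α : List Bool) : ℕ := (α.filter (fun b => b = true)).length

theorem ct_append (α β : List Bool) : ct (α ++ β) = ct α + ct β := by simp [ct]

theorem ct_prefix {α β : List Bool} (h : α <+: β) : ct α ≤ ct β := by
  obtain ⟨ρ, rfl⟩ := h
  rw [ct_append]; omega

theorem ct_gk (g : List Bool) (k : ℕ) : ct (gk g k) = ct g + 1 := by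
  unfold gk
  rw [ct_append, ct_append]
  have : ct ((List.range (k - g.length)).map (fun _ => false)) = 0 := by
    unfold ct
    rw [List.length_eq_zero_iff, List.filter_eq_nil_iff]
    simp
  rw [this]
  rfl

theorem primrec_ct : Primrec ct := by
  have h1 : PrimrecRel fun (b : Bool) (_ : Unit) => b = true :=
    Primrec.eq.comp Primrec.fst (Primrec.const true)
  have h2 := h1.listFilter.comp (Primrec.id (α := List Bool)) (Primrec.const ())
  exact Primrec.list_length.comp h2

theorem gk_getElem (g : List Bool) (k : ℕ) (hk : g.length ≤ k) : (gk g k)[k]? = some true := by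
  unfold gk
  rw [List.getElem?_append_right (by simp; omega)]
  simp only [List.length_append, List.length_map, List.length_range]
  rw [show k - (g.length + (k - g.length)) = 0 by omega]
  rfl

theorem prefix_of_le {X : ℕ → Bool} {g α : List Bool} (h : pre X g.length = g) (hα : α <+: g) :
    pre X α.length = α := by
  rw [← h] at hα
  exact (pre_eq_of_prefix hα).symm

theorem exists_generic {T : ℕ → Bool} (hT : ¬ Computable T) : ∃ B C : ℕ → Bool, MLR C B ∧
    ∀ n, ∃ p, C p = true ∧ n < ct (pre C (p + 1)) ∧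
      ∀ l < ct (pre C (p + 1)), B (Nat.pair (encode (pre T p)) l) = false := by
  obtain ⟨E, hE, mE, hEm, hEU⟩ := exists_universal
  let S : Type := {s : ℕ × List Bool × List Bool // Cond E s.1 s.2.1 s.2.2}
  have hstep : ∀ s : S, ∃ s' : S, s'.1.1 = s.1.1 + 1 ∧ ∃ k, s.1.2.1.length ≤ k ∧
      gk s.1.2.1 k <+: s'.1.2.1 ∧ s.1.2.2 <+: s'.1.2.2 ∧ s.1.1 + 1 ≤ s'.1.2.2.length ∧
      cyl s'.1.2.2 ⊆ Hs (pre T k) (ct s.1.2.1 + 1) := by
    rintro ⟨⟨n, g, σ⟩, hc⟩
    obtain ⟨g', σ', k, h1, h2, h3, h4, h5, h6⟩ := exists_step hE mE hT n (ct g + 1) g σ hc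
    exact ⟨⟨⟨n + 1, g', σ'⟩, h6⟩, rfl, k, h1, h2, h3, h4, h5⟩
  choose f hf using hstep
  have h0 : Cond E 0 [] [] := by
    intro h _
    have h1 : lam.real (cyl [] ∩ UH E h) ≤ lam.real (UH E h) :=
      measureReal_mono Set.inter_subset_right
    have h2 : lam.real (UH E h) ≤ (1 / 2) ^ 2 := by
      rw [measureReal_def, ← real_half_pow]
      exact ENNReal.toReal_mono (by simp) (lam_UH_le hEm h)
    rw [cc_eq]
    norm_num
    norm_num at h2
    linarith
  let s : ℕ → S := fun n => Nat.rec ⟨(0, [], []), h0⟩ (fun _ q => f q) n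
  have hs : ∀ n, s (n + 1) = f (s n) := fun n => rfl
  obtain ⟨g, hg⟩ : ∃ g : ℕ → List Bool, g = fun n => (s n).1.2.1 := ⟨_, rfl⟩
  obtain ⟨σ, hσ⟩ : ∃ σ : ℕ → List Bool, σ = fun n => (s n).1.2.2 := ⟨_, rfl⟩
  have hn : ∀ n, (s n).1.1 = n := by
    intro n
    induction n with
    | zero => rfl
    | succ n ih => rw [hs, (hf _).1, ih]
  have hcond : ∀ n, Cond E n (g n) (σ n) := by
    intro n
    have := (s n).2
    rw [hn n] at this
    rw [hg, hσ]
    exact this
  have hk : ∀ n, ∃ k, (g n).length ≤ k ∧ gk (g n) k <+: g (n + 1) ∧ σ n <+: σ (n + 1) ∧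
      n + 1 ≤ (σ (n + 1)).length ∧ cyl (σ (n + 1)) ⊆ Hs (pre T k) (ct (g n) + 1) := by
    intro n
    obtain ⟨k, h1, h2, h3, h4, h5⟩ := (hf (s n)).2
    rw [← hs] at h2 h3 h4 h5
    rw [hn n] at h4
    rw [hg, hσ]
    exact ⟨k, h1, h2, h3, h4, h5⟩
  choose k hk1 hk2 hk3 hk4 hk5 using hk
  have hgl : ∀ n, n ≤ (g n).length := by
    intro n
    induction n with
    | zero => exact Nat.zero_le _
    | succ n ih =>
      have h1 := (hk2 n).length_le
      rw [gk_length (hk1 n)] at h1
      have := hk1 n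
      omega
  have hσl : ∀ n, n ≤ (σ n).length := by
    intro n
    cases n with
    | zero => exact Nat.zero_le _
    | succ n => exact hk4 n
  have hgc : ∀ n, n ≤ ct (g n) := by
    intro n
    induction n with
    | zero => exact Nat.zero_le _
    | succ n ih =>
      have h1 := ct_prefix (hk2 n)
      rw [ct_gk] at h1
      omega
  obtain ⟨C, hC⟩ := exists_limit g (fun n => (prefix_gk (g n) (k n)).trans (hk2 n)) hgl
  obtain ⟨B, hB⟩ := exists_limit σ hk3 hσl
  refine ⟨B, C, ?_, ?_⟩
  · rw [hEU]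
    refine ⟨2, ?_⟩
    rintro ⟨a, b, hab⟩
    obtain ⟨n, hn⟩ : ∃ n, n = max a b := ⟨_, rfl⟩
    have h1 : E (g n, 2, σ n) := by
      have ha : pre C a <+: g n := by
        rw [← hC n]
        exact pre_prefix C (le_trans (by omega) (hgl n))
      have hb : pre B b <+: σ n := by
        rw [← hB n]
        exact pre_prefix B (le_trans (by omega) (hσl n))
      exact mE _ _ _ _ _ ha hb hab
    have h2 : cyl (σ n) ∩ UH E (g n) = cyl (σ n) := by
      refine Set.inter_eq_left.2 ?_
      intro Z hZ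
      rw [mem_cyl_iff] at hZ
      exact ⟨(σ n).length, by rw [hZ]; exact h1⟩
    have h3 := hcond n (g n) (List.prefix_refl _)
    rw [h2, real_cyl] at h3
    have h4 := cc_lt_one n
    have h5 : (0 : ℝ) < (1 / 2) ^ (σ n).length := by positivity
    nlinarith
  · intro n
    have h1 : gk (g n) (k n) = pre C (k n + 1) := by
      have := prefix_of_le (hC (n + 1)) (hk2 n)
      rw [gk_length (hk1 n)] at this
      exact this.symm
    refine ⟨k n, ?_, ?_, ?_⟩
    · have h2 := gk_getElem (g n) (k n) (hk1 n)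
      rw [h1, pre_getElem? _ _ _ (Nat.lt_succ_self _)] at h2
      simpa using h2
    · rw [← h1, ct_gk]
      have := hgc n
      omega
    · rw [← h1, ct_gk]
      have h2 : B ∈ Hs (pre T (k n)) (ct (g n) + 1) := by
        apply hk5 n
        rw [mem_cyl_iff]
        exact hB (n + 1)
      exact h2

/-- The test witnessing that a sequence with prescribed zeros is not random. -/
theorem not_mlr_of_zeros {C A : ℕ → Bool} (h : ∀ n, ∃ p, C p = true ∧ n < ct (pre C (p + 1)) ∧
    ∀ l < ct (pre C (p + 1)), A (Nat.pair p l) = false) : ¬ MLR C A := by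
  intro hA
  have hS : S1 fun x : List Bool × ℕ × List Bool => ∃ p : ℕ, (p < x.1.length ∧
      x.1.getD p false = true) ∧ (x.2.1 < ct (x.1.take (p + 1)) ∧
      ∀ l < ct (x.1.take (p + 1)), x.2.2.getD (Nat.pair p l) true = false) := by
    refine S1.ex (S1.of_prim ?_)
    have e1 : Primrec fun y : (List Bool × ℕ × List Bool) × ℕ => ct (y.1.1.take (y.2 + 1)) :=
      primrec_ct.comp (Primrec.list_take.comp (Primrec.succ.comp Primrec.snd)
        (Primrec.fst.comp Primrec.fst))
    refine PrimrecPred.and (PrimrecPred.and ?_ ?_) (PrimrecPred.and ?_ ?_)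
    · exact Primrec.nat_lt.comp Primrec.snd (Primrec.list_length.comp
        (Primrec.fst.comp Primrec.fst))
    · exact Primrec.eq.comp ((Primrec.list_getD false).comp (Primrec.fst.comp Primrec.fst)
        Primrec.snd) (Primrec.const true)
    · exact Primrec.nat_lt.comp (Primrec.fst.comp (Primrec.snd.comp Primrec.fst)) e1
    · refine PP.all_lt (α := (List Bool × ℕ × List Bool) × ℕ)
        (f := fun y => ct (y.1.1.take (y.2 + 1)))
        (p := fun y l => y.1.2.2.getD (Nat.pair y.2 l) true = false) ?_ e1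
      exact Primrec.eq.comp ((Primrec.list_getD true).comp (Primrec.snd.comp (Primrec.snd.comp
        (Primrec.fst.comp Primrec.fst))) (Primrec₂.natPair.comp (Primrec.snd.comp Primrec.fst)
        Primrec.snd)) (Primrec.const false)
  obtain ⟨F, hF⟩ : ∃ F : List Bool × ℕ × List Bool → Prop, F = fun x => ∃ p : ℕ, (p < x.1.length ∧
      x.1.getD p false = true) ∧ (x.2.1 < ct (x.1.take (p + 1)) ∧
      ∀ l < ct (x.1.take (p + 1)), x.2.2.getD (Nat.pair p l) true = false) := ⟨_, rfl⟩
  rw [← hF] at hS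
  have hmem : ∀ n Z, Z ∈ UE F C n ↔ ∃ p, C p = true ∧ n < ct (pre C (p + 1)) ∧
      ∀ l < ct (pre C (p + 1)), Z (Nat.pair p l) = false := by
    intro n Z
    rw [hF]
    simp only [UE, Set.mem_ofPred_eq, length_pre]
    constructor
    · rintro ⟨s, t, p, ⟨h1, h2⟩, h3, h4⟩
      rw [pre_getD _ _ _ _ h1] at h2
      rw [take_pre _ _ _ (by omega)] at h3 h4
      refine ⟨p, h2, h3, fun l hl => ?_⟩
      have h5 := h4 l hl
      by_cases hlt : Nat.pair p l < t
      · rwa [pre_getD _ _ _ _ hlt] at h5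
      · rw [List.getD_eq_default _ _ (by simp; omega)] at h5
        cases h5
    · rintro ⟨p, h1, h2, h3⟩
      refine ⟨p + 1, Nat.pair p (ct (pre C (p + 1))), p, ⟨Nat.lt_succ_self _, ?_⟩, ?_, ?_⟩
      · rw [pre_getD _ _ _ _ (Nat.lt_succ_self _)]; exact h1
      · rw [take_pre _ _ _ le_rfl]; exact h2
      · rw [take_pre _ _ _ le_rfl]
        intro l hl
        rw [pre_getD _ _ _ _ (Nat.pair_lt_pair_right _ hl)]
        exact h3 l hl
  have huniq : ∀ p q, C p = true → C q = true → ct (pre C (p + 1)) = ct (pre C (q + 1)) →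
      p = q := by
    have key : ∀ p q, C q = true → p < q → ct (pre C (p + 1)) < ct (pre C (q + 1)) := by
      intro p q hq hlt
      have h1 : ct (pre C (p + 1)) ≤ ct (pre C q) := ct_prefix (pre_prefix C (by omega))
      have h2 : ct (pre C (q + 1)) = ct (pre C q) + 1 := by
        rw [pre_succ, ct_append, hq]; rfl
      omega
    intro p q hp hq he
    rcases Nat.lt_trichotomy p q with h | h | h
    · have := key p q hq h; omega
    · exact h
    · have := key q p hp h; omega
  have hmeas : ∀ n, lam (UE F C n) ≤ (1 / 2) ^ n := by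
    intro n
    have hsub : UE F C n ⊆ ⋃ j : ℕ, {Z | ∃ p, C p = true ∧ ct (pre C (p + 1)) = n + j + 1 ∧
        ∀ l < n + j + 1, Z (Nat.pair p l) = false} := by
      intro Z hZ
      obtain ⟨p, h1, h2, h3⟩ := (hmem n Z).1 hZ
      rw [Set.mem_iUnion]
      refine ⟨ct (pre C (p + 1)) - n - 1, p, h1, by omega, ?_⟩
      intro l hl
      exact h3 l (by omega)
    refine le_trans (measure_mono hsub) (le_trans (measure_iUnion_le _) ?_)
    rw [← tsum_half_pow n]
    refine ENNReal.tsum_le_tsum fun j => ?_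
    by_cases hex : ∃ p, C p = true ∧ ct (pre C (p + 1)) = n + j + 1
    · obtain ⟨p, hp1, hp2⟩ := hex
      have hsub2 : {Z : ℕ → Bool | ∃ p, C p = true ∧ ct (pre C (p + 1)) = n + j + 1 ∧
          ∀ l < n + j + 1, Z (Nat.pair p l) = false} ⊆
          {Z | ∀ m ∈ (Finset.range (n + j + 1)).image (Nat.pair p), Z m = false} := by
        rintro Z ⟨q, hq1, hq2, hq3⟩
        have := huniq p q hp1 hq1 (hp2.trans hq2.symm)
        subst this
        simp only [Set.mem_ofPred_eq, Finset.mem_image, Finset.mem_range]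
        rintro _ ⟨l, hl, rfl⟩
        exact hq3 l hl
      refine le_trans (measure_mono hsub2) (le_of_eq ?_)
      rw [lam_coord _ (fun _ => false), card_block]
    · have : {Z : ℕ → Bool | ∃ p, C p = true ∧ ct (pre C (p + 1)) = n + j + 1 ∧
          ∀ l < n + j + 1, Z (Nat.pair p l) = false} = ∅ := by
        ext Z
        simp only [Set.mem_ofPred_eq, Set.mem_empty_iff_false, iff_false]
        rintro ⟨p, h1, h2, _⟩
        exact hex ⟨p, h1, h2⟩
      rw [this, measure_empty]
      exact bot_le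
  refine hA _ (isMLTest_of_E hS hmeas) ?_
  rw [Set.mem_iInter]
  intro n
  exact (hmem n A).2 (h n)

end Pool.Agent.Helper227
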