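import Pool.Agent.Helper227.Cov1
import Pool.Agent.Helper227.Force4

set_option autoImplicit false

namespace Pool.Agent.Helper227

open MeasureTheory Encodable
open scoped ENNReal

/-- block `e` starts with `n` zeros -/
def Blk (e n : ℕ) : Set (ℕ → Bool) := {Z | ∀ l < n, Z (Nat.pair e l) = false}

theorem Blk_eq (e n : ℕ) :
    Blk e n = {Z | ∀ m ∈ (Finset.range n).image (Nat.pair e), Z m = false} := by
  ext Z
  simp only [Blk, Set.mem_ofPred_eq, Finset.mem_image, Finset.mem_range]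
  constructor
  · rintro h _ ⟨l, hl, rfl⟩
    exact h l hl
  · intro h l hl
    exact h _ ⟨l, hl, rfl⟩

theorem measurableSet_Blk (e n : ℕ) : MeasurableSet (Blk e n) := by
  have : Blk e n = ⋂ l ∈ {l | l < n}, {Z : ℕ → Bool | Z (Nat.pair e l) = false} := by
    ext Z; simp [Blk]
  rw [this]
  refine MeasurableSet.biInter (Set.to_countable _) fun l _ => ?_
  exact (measurable_pi_apply (Nat.pair e l)) (measurableSet_singleton _)

theorem lam_Blk (e n : ℕ) : lam (Blk e n) = (1 / 2) ^ n := by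
  rw [Blk_eq, lam_coord _ (fun _ => false), card_block]

theorem lam_Blk_Blk {e e' : ℕ} (h : e ≠ e') (n n' : ℕ) :
    lam (Blk e n ∩ Blk e' n') = (1 / 2) ^ (n + n') := by
  have : Blk e n ∩ Blk e' n' = {Z | ∀ m ∈ (Finset.range n).image (Nat.pair e) ∪
      (Finset.range n').image (Nat.pair e'), Z m = false} := by
    rw [Blk_eq, Blk_eq]
    ext Z
    simp only [Set.mem_inter_iff, Set.mem_ofPred_eq, Finset.mem_union]
    constructor
    · rintro ⟨h1, h2⟩ m (hm | hm)
      · exact h1 m hm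
      · exact h2 m hm
    · intro h
      exact ⟨fun m hm => h m (Or.inl hm), fun m hm => h m (Or.inr hm)⟩
  rw [this, lam_coord _ (fun _ => false), Finset.card_union_of_disjoint, card_block, card_block]
  rw [Finset.disjoint_left]
  intro m h1 h2
  simp only [Finset.mem_image, Finset.mem_range] at h1 h2
  obtain ⟨l, _, rfl⟩ := h1
  obtain ⟨l', _, h3⟩ := h2
  exact h (Nat.pair_eq_pair.1 h3).1.symm

theorem mem_Blk_iff_getD {e n : ℕ} {Z : ℕ → Bool} :
    Z ∈ Blk e n ↔ ∃ t, ∀ l < n, (pre Z t).getD (Nat.pair e l) true = false := by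
  constructor
  · intro h
    refine ⟨Nat.pair e n, fun l hl => ?_⟩
    rw [pre_getD _ _ _ _ (Nat.pair_lt_pair_right _ hl)]
    exact h l hl
  · rintro ⟨t, h⟩ l hl
    have h3 := h l hl
    by_cases hlt : Nat.pair e l < t
    · rwa [pre_getD _ _ _ _ hlt] at h3
    · rw [List.getD_eq_default _ _ (by simp; omega)] at h3
      cases h3

section

variable {β : Type*} [Primcodable β]

/-- the test attached to a set of tokens -/
def EVb (g : β → ℕ) (ES : List Bool × β → Prop) (y : List Bool × ℕ × List Bool) : Prop :=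
  ∃ x : β, ES (y.1, x) ∧
    ∀ l < g x + y.2.1, y.2.2.getD (Nat.pair (Nat.pair (encode x) y.2.1) l) true = false

theorem s1_EVb {g : β → ℕ} (hg : Primrec g) {ES : List Bool × β → Prop} (hES : S1 ES) :
    S1 (EVb g ES) := by
  unfold EVb
  refine S1.ex (S1.and (S1.comp (f := fun z : (List Bool × ℕ × List Bool) × β => (z.1.1, z.2))
    hES ((Primrec.fst.comp Primrec.fst).pair Primrec.snd)) (S1.of_prim ?_))
  refine PP.all_lt (α := (List Bool × ℕ × List Bool) × β) (f := fun z => g z.2 + z.1.2.1)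
    (p := fun z l => z.1.2.2.getD (Nat.pair (Nat.pair (encode z.2) z.1.2.1) l) true = false) ?_ ?_
  · refine Primrec.eq.comp ((Primrec.list_getD true).comp
      (Primrec.snd.comp (Primrec.snd.comp (Primrec.fst.comp Primrec.fst)))
      (Primrec₂.natPair.comp (Primrec₂.natPair.comp (Primrec.encode.comp
        (Primrec.snd.comp Primrec.fst)) ?_) Primrec.snd)) (Primrec.const false)
    exact Primrec.fst.comp (Primrec.snd.comp (Primrec.fst.comp Primrec.fst))
  · exact Primrec.nat_add.comp (hg.comp Primrec.snd)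
      (Primrec.fst.comp (Primrec.snd.comp Primrec.fst))

theorem UE_EVb (g : β → ℕ) (ES : List Bool × β → Prop) (D : ℕ → Bool) (i : ℕ) :
    UE (EVb g ES) D i = ⋃ x : β, ⋃ _ : ∃ s, ES (pre D s, x),
      Blk (Nat.pair (encode x) i) (g x + i) := by
  ext Z
  simp only [UE, EVb, Set.mem_ofPred_eq, Set.mem_iUnion, exists_prop, mem_Blk_iff_getD]
  constructor
  · rintro ⟨s, t, x, h1, h2⟩
    exact ⟨x, ⟨s, h1⟩, t, h2⟩
  · rintro ⟨x, ⟨s, h1⟩, t, h2⟩
    exact ⟨s, t, x, h1, h2⟩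

theorem tsum_le_of_finset {w : β → ℝ≥0∞} {P : β → Prop} {b : ℝ≥0∞}
    (h : ∀ F : Finset β, (∀ x ∈ F, P x) → ∑ x ∈ F, w x ≤ b) :
    ∑' x : β, (⨆ _ : P x, w x) ≤ b := by
  classical
  rw [ENNReal.tsum_eq_iSup_sum]
  refine iSup_le fun F => ?_
  have : ∑ x ∈ F, (⨆ _ : P x, w x) = ∑ x ∈ F.filter P, w x := by
    rw [Finset.sum_filter]
    refine Finset.sum_congr rfl fun x _ => ?_
    by_cases hx : P x <;> simp [hx]
  rw [this]
  exact h _ fun x hx => (Finset.mem_filter.1 hx).2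

theorem lam_UE_EVb_le (g : β → ℕ) (ES : List Bool × β → Prop) (D : ℕ → Bool)
    (hw : ∀ F : Finset β, (∀ x ∈ F, ∃ s, ES (pre D s, x)) → ∑ x ∈ F, (1 / 2 : ℝ≥0∞) ^ (g x) ≤ 1)
    (i : ℕ) : lam (UE (EVb g ES) D i) ≤ (1 / 2) ^ i := by
  rw [UE_EVb]
  refine le_trans (measure_iUnion_le _) ?_
  have h1 : ∀ x : β, lam (⋃ _ : ∃ s, ES (pre D s, x), Blk (Nat.pair (encode x) i) (g x + i)) ≤
      (1 / 2) ^ i * ⨆ _ : ∃ s, ES (pre D s, x), (1 / 2 : ℝ≥0∞) ^ (g x) := by
    intro x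
    by_cases hx : ∃ s, ES (pre D s, x)
    · simp only [hx, Set.iUnion_true, ciSup_unique]
      rw [lam_Blk, pow_add, mul_comm]
    · simp [hx]
  refine le_trans (ENNReal.tsum_le_tsum h1) ?_
  rw [ENNReal.tsum_mul_left]
  calc (1 / 2 : ℝ≥0∞) ^ i * ∑' x : β, (⨆ _ : ∃ s, ES (pre D s, x), (1 / 2 : ℝ≥0∞) ^ (g x))
      ≤ (1 / 2) ^ i * 1 := mul_le_mul_right (tsum_le_of_finset hw) _
    _ = (1 / 2) ^ i := mul_one _

end

end Pool.Agent.Helper227
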