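import Pool.Agent.Helper227.Cov2

set_option autoImplicit false

namespace Pool.Agent.Helper227

open MeasureTheory Encodable
open scoped ENNReal

variable {β : Type*} [Primcodable β]

/-- Nested cylinder argument: some cylinder meets the complement of the `B`-test in positive
measure but is almost disjoint from a component of the `D`-test there. -/
theorem exists_rho {B D : ℕ → Bool} (hLR : ∀ X, MLR B X → MLR D X)
    {EU : List Bool × ℕ × List Bool → Prop} (mEU : Mono3 EU)
    (hEm : ∀ A n, lam (UE EU A n) ≤ (1 / 2) ^ n)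
    (hEU : ∀ A X, MLR A X ↔ ∃ n, X ∉ UE EU A n)
    {g : β → ℕ} (hg : Primrec g) {ES : List Bool × β → Prop} (hES : S1 ES)
    (hw : ∀ F : Finset β, (∀ x ∈ F, ∃ s, ES (pre D s, x)) → ∑ x ∈ F, (1 / 2 : ℝ≥0∞) ^ (g x) ≤ 1) :
    ∃ ρ i, lam (cyl ρ \ UE EU B 1) ≠ 0 ∧
      lam ((cyl ρ ∩ UE (EVb g ES) D i) \ UE EU B 1) = 0 := by
  by_contra hneg
  push Not at hneg
  have htest : IsMLTest D (UE (EVb g ES) D) :=
    isMLTest_of_E (s1_EVb hg hES) (lam_UE_EVb_le g ES D hw)
  -- one step
  have hstep : ∀ (ρ : List Bool) (i : ℕ), lam (cyl ρ \ UE EU B 1) ≠ 0 → ∃ ρ', ρ <+: ρ' ∧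
      i + 1 ≤ ρ'.length ∧ cyl ρ' ⊆ UE (EVb g ES) D i ∧ lam (cyl ρ' \ UE EU B 1) ≠ 0 := by
    intro ρ i hρ
    by_contra hc
    push Not at hc
    apply hneg ρ i hρ
    have hsub : (cyl ρ ∩ UE (EVb g ES) D i) \ UE EU B 1 ⊆ ⋃ ρ' : List Bool, ⋃ _ : ρ <+: ρ' ∧
        i + 1 ≤ ρ'.length ∧ cyl ρ' ⊆ UE (EVb g ES) D i, cyl ρ' \ UE EU B 1 := by
      rintro Z ⟨⟨h1, s, t, h2⟩, h3⟩
      obtain ⟨N, hN⟩ : ∃ N, N = max (max t ρ.length) (i + 1) := ⟨_, rfl⟩
      simp only [Set.mem_iUnion, exists_prop]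
      refine ⟨pre Z N, ⟨?_, by simp; omega, ?_⟩, mem_cyl_pre _ _, h3⟩
      · rw [mem_cyl_iff] at h1
        rw [← h1]
        exact pre_prefix Z (by omega)
      · intro Z' hZ'
        rw [mem_cyl_iff, length_pre] at hZ'
        refine ⟨s, t, ?_⟩
        have : pre Z' t = pre Z t := by
          rw [← take_pre Z' N t (by omega), hZ', take_pre _ _ _ (by omega)]
        rw [this]
        exact h2
    refine le_antisymm (le_trans (measure_mono hsub) ?_) (bot_le)
    rw [nonpos_iff_eq_zero, measure_iUnion_null_iff]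
    intro ρ'
    rw [measure_iUnion_null_iff]
    intro h
    exact hc ρ' h.1 h.2.1 h.2.2
  choose! f hf using hstep
  let s : ℕ → List Bool := fun n => Nat.rec [] (fun i q => f q i) n
  have hs : ∀ n, s (n + 1) = f (s n) n := fun n => rfl
  have hpos : ∀ n, lam (cyl (s n) \ UE EU B 1) ≠ 0 := by
    intro n
    induction n with
    | zero =>
      have h0 : cyl (s 0) = Set.univ := by
        ext X; simp [cyl, s]
      rw [h0]
      intro hz
      have h1 : (1 : ℝ≥0∞) ≤ lam (UE EU B 1) + lam (Set.univ \ UE EU B 1) := by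
        rw [← measure_univ (μ := lam)]
        refine le_trans (measure_mono ?_) (measure_union_le _ _)
        intro x _
        by_cases hx : x ∈ UE EU B 1
        · exact Or.inl hx
        · exact Or.inr ⟨trivial, hx⟩
      rw [hz, add_zero] at h1
      have h2 := le_trans h1 (hEm B 1)
      rw [pow_one, one_div] at h2
      exact absurd h2 (not_le.2 ENNReal.one_half_lt_one)
    | succ n ih =>
      rw [hs]
      exact (hf (s n) n ih).2.2.2
  have hl : ∀ n, n ≤ (s n).length := by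
    intro n
    cases n with
    | zero => exact Nat.zero_le _
    | succ n => rw [hs]; exact (hf (s n) n (hpos n)).2.1
  obtain ⟨Z, hZ⟩ := exists_limit s (fun n => by rw [hs]; exact (hf (s n) n (hpos n)).1) hl
  have hZc : ∀ n, Z ∈ cyl (s n) := fun n => by rw [mem_cyl_iff]; exact hZ n
  have hZU : Z ∉ UE EU B 1 := by
    rintro ⟨a, t, h⟩
    apply hpos t
    have hsub : cyl (s t) ⊆ UE EU B 1 := by
      intro Z' hZ'
      refine ⟨a, (s t).length, ?_⟩
      rw [mem_cyl_iff] at hZ'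
      rw [hZ']
      refine mEU _ _ _ _ _ (List.prefix_refl _) ?_ h
      rw [← hZ t]
      exact pre_prefix Z (hl t)
    rw [Set.sdiff_eq_empty.2 hsub, measure_empty]
  have hZD : MLR D Z := hLR Z ((hEU B Z).2 ⟨1, hZU⟩)
  apply hZD _ htest
  rw [Set.mem_iInter]
  intro i
  have := (hf (s i) i (hpos i)).2.2.1
  rw [← hs] at this
  exact this (hZc (i + 1))

/-- the covering operator -/
def RP (EU : List Bool × ℕ × List Bool → Prop) (g : β → ℕ) (ρ : List Bool) (i : ℕ)
    (x : List Bool × β) (τ : List Bool) : Prop :=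
  (EU (x.1, 1, τ) ∨ (ρ.length ≤ τ.length ∧ ¬ ρ = τ.take ρ.length)) ∨
    ∃ l < g x.2 + i, τ.getD (Nat.pair (Nat.pair (encode x.2) i) l) false = true

theorem s1_RP {EU : List Bool × ℕ × List Bool → Prop} (hE : S1 EU) {g : β → ℕ} (hg : Primrec g)
    (ρ : List Bool) (i : ℕ) :
    S1 fun y : (List Bool × β) × List Bool => RP EU g ρ i y.1 y.2 := by
  unfold RP
  refine S1.or (S1.or (S1.comp (f := fun y : (List Bool × β) × List Bool => (y.1.1, 1, y.2))
    hE ?_) (S1.of_prim (PrimrecPred.and ?_ (PrimrecPred.not ?_)))) (S1.of_prim ?_)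
  · exact (Primrec.fst.comp Primrec.fst).pair ((Primrec.const 1).pair Primrec.snd)
  · exact Primrec.nat_le.comp (Primrec.const _) (Primrec.list_length.comp Primrec.snd)
  · exact Primrec.eq.comp (Primrec.const _) (Primrec.list_take.comp (Primrec.const _) Primrec.snd)
  · refine PP.ex_lt (α := (List Bool × β) × List Bool) (f := fun z => g z.1.2 + i)
      (p := fun z l => z.2.getD (Nat.pair (Nat.pair (encode z.1.2) i) l) false = true) ?_ ?_
    · exact Primrec.eq.comp ((Primrec.list_getD false).comp (Primrec.snd.comp Primrec.fst)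
        (Primrec₂.natPair.comp (Primrec₂.natPair.comp (Primrec.encode.comp
          (Primrec.snd.comp (Primrec.fst.comp Primrec.fst))) (Primrec.const i)) Primrec.snd))
        (Primrec.const true)
    · exact Primrec.nat_add.comp (hg.comp (Primrec.snd.comp Primrec.fst)) (Primrec.const i)

theorem RP_set (EU : List Bool × ℕ × List Bool → Prop) (g : β → ℕ) (ρ : List Bool) (i : ℕ)
    (ζ : List Bool) (x : β) :
    {Z | ∃ t, RP EU g ρ i (ζ, x) (pre Z t)} =
      {Z | ∃ t, EU (ζ, 1, pre Z t)} ∪ (cyl ρ ∩ Blk (Nat.pair (encode x) i) (g x + i))ᶜ := by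
  ext Z
  simp only [RP, Set.mem_union, Set.mem_ofPred_eq, Set.mem_compl_iff, Set.mem_inter_iff]
  constructor
  · rintro ⟨t, (h | ⟨h1, h2⟩) | ⟨l, hl, h⟩⟩
    · exact Or.inl ⟨t, h⟩
    · right
      rintro ⟨h3, -⟩
      rw [length_pre] at h1
      rw [take_pre _ _ _ h1] at h2
      exact h2 (mem_cyl_iff.1 h3).symm
    · right
      rintro ⟨-, h3⟩
      have h4 := h3 l hl
      by_cases hlt : Nat.pair (Nat.pair (encode x) i) l < t
      · rw [pre_getD _ _ _ _ hlt, h4] at h
        cases h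
      · rw [List.getD_eq_default _ _ (by simp; omega)] at h
        cases h
  · rintro (⟨t, h⟩ | h)
    · exact ⟨t, Or.inl (Or.inl h)⟩
    · by_cases h1 : Z ∈ cyl ρ
      · have h2 : ¬ Z ∈ Blk (Nat.pair (encode x) i) (g x + i) := fun h2 => h ⟨h1, h2⟩
        simp only [Blk, Set.mem_ofPred_eq] at h2
        push Not at h2
        obtain ⟨l, hl, h3⟩ := h2
        refine ⟨Nat.pair (Nat.pair (encode x) i) l + 1, Or.inr ⟨l, hl, ?_⟩⟩
        rw [pre_getD _ _ _ _ (Nat.lt_succ_self _)]
        simpa using h3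
      · refine ⟨ρ.length, Or.inl (Or.inr ⟨by simp, ?_⟩)⟩
        rw [take_pre _ _ _ le_rfl]
        intro h2
        exact h1 (mem_cyl_iff.2 h2.symm)

end Pool.Agent.Helper227
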