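import Pool.Agent.Helper227.Cov3

set_option autoImplicit false

namespace Pool.Agent.Helper227

open MeasureTheory Encodable
open scoped ENNReal

theorem two_pow_frac (N : ℕ) :
    ((2 ^ N - 1 : ℕ) : ℝ) / ((2 ^ N : ℕ) : ℝ) = 1 - (1 / 2) ^ N := by
  rw [Nat.cast_sub Nat.one_le_two_pow]
  push_cast
  rw [div_eq_iff (by positivity), sub_mul, ← mul_pow]
  norm_num

variable {β : Type*} [Primcodable β]

theorem sum_half_encode_le (F : Finset β) (d : ℕ) :
    ∑ x ∈ F, (1 / 2 : ℝ) ^ (encode x + d) ≤ 2 * (1 / 2) ^ d := by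
  classical
  have h1 : ∑ x ∈ F, (1 / 2 : ℝ) ^ (encode x + d) = (1 / 2) ^ d * ∑ x ∈ F, (1 / 2 : ℝ) ^ (encode x) := by
    rw [Finset.mul_sum]
    exact Finset.sum_congr rfl fun x _ => by rw [pow_add, mul_comm]
  have h2 : ∑ x ∈ F, (1 / 2 : ℝ) ^ (encode x) = ∑ n ∈ F.image (encode : β → ℕ), (1 / 2 : ℝ) ^ n := by
    rw [Finset.sum_image]
    exact fun x _ y _ h => encode_injective h
  have h3 : ∑ n ∈ F.image (encode : β → ℕ), (1 / 2 : ℝ) ^ n ≤ 2 := by
    have h := Summable.sum_le_tsum (F.image (encode : β → ℕ)) (fun n _ => by positivity)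
      summable_geometric_two
    rwa [tsum_geometric_two] at h
  rw [h1, h2]
  have : (0 : ℝ) ≤ (1 / 2) ^ d := by positivity
  nlinarith

/-- The covering lemma: if every `B`-random set is `D`-random then every `D`-c.e. set of tokens
of finite weight is contained in a `B`-c.e. set of finite weight. -/
theorem cover {B D : ℕ → Bool} (hLR : ∀ X, MLR B X → MLR D X) {g : β → ℕ} (hg : Primrec g)
    {ES : List Bool × β → Prop} (hES : S1 ES)
    (hw : ∀ F : Finset β, (∀ x ∈ F, ∃ s, ES (pre D s, x)) → ∑ x ∈ F, (1 / 2 : ℝ≥0∞) ^ (g x) ≤ 1) :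
    ∃ R : List Bool × β → Prop, S1 R ∧ (∀ x, (∃ s, ES (pre D s, x)) → ∃ s, R (pre B s, x)) ∧
      ∃ b : ℕ, ∀ F : Finset β, (∀ x ∈ F, ∃ s, R (pre B s, x)) →
        ∑ x ∈ F, (1 / 2 : ℝ≥0∞) ^ (g x) ≤ b := by
  classical
  obtain ⟨EU, hE, mEU, hEm, hEU⟩ := exists_universal
  obtain ⟨ρ, i, hρ, hi⟩ := exists_rho hLR mEU hEm hEU hg hES hw
  obtain ⟨lm, hlm⟩ : ∃ lm : ℝ, lm = lam.real (cyl ρ \ UE EU B 1) := ⟨_, rfl⟩
  have hlm0 : 0 < lm := by
    rw [hlm, measureReal_def]
    exact ENNReal.toReal_pos hρ (measure_ne_top _ _)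
  obtain ⟨d, hd⟩ : ∃ d : ℕ, (1 / 2 : ℝ) ^ d < lm / 4 :=
    exists_pow_lt_of_lt_one (by positivity) (by norm_num)
  let A : List Bool → β → Set (ℕ → Bool) := fun ζ x => {Z | ∃ t, RP EU g ρ i (ζ, x) (pre Z t)}
  have hAeq : ∀ ζ x, A ζ x = {Z | ∃ t, EU (ζ, 1, pre Z t)} ∪
      (cyl ρ ∩ Blk (Nat.pair (encode x) i) (g x + i))ᶜ := fun ζ x => RP_set EU g ρ i ζ x
  have hAm : ∀ ζ x, MeasurableSet (A ζ x) := fun ζ x =>
    measurableSet_open (fun _ τ => RP EU g ρ i (ζ, x) τ)
  have hS1 : S1 fun x : List Bool × β => ((2 ^ (encode x.2 + d) - 1 : ℕ) : ℝ≥0∞) /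
      ((2 ^ (encode x.2 + d) : ℕ) : ℝ≥0∞) < lam (A x.1 x.2) := by
    refine s1_measure_gt (P := fun x ζ => RP EU g ρ i x ζ)
      (a := fun x : List Bool × β => 2 ^ (encode x.2 + d) - 1)
      (b := fun x : List Bool × β => 2 ^ (encode x.2 + d)) (s1_RP hE hg ρ i) ?_ ?_ ?_
    · exact Primrec.nat_sub.comp (primrec_pow.comp (Primrec.const 2) (Primrec.nat_add.comp
        (Primrec.encode.comp Primrec.snd) (Primrec.const d))) (Primrec.const 1)
    · exact primrec_pow.comp (Primrec.const 2) (Primrec.nat_add.comp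
        (Primrec.encode.comp Primrec.snd) (Primrec.const d))
    · intro x; positivity
  have hthr : ∀ (N : ℕ) (V : Set (ℕ → Bool)), ((2 ^ N - 1 : ℕ) : ℝ≥0∞) / ((2 ^ N : ℕ) : ℝ≥0∞) < lam V →
      1 - (1 / 2) ^ N < lam.real V := by
    intro N V h
    have h1 := (ENNReal.toReal_lt_toReal (ne_top_of_lt h) (measure_ne_top lam V)).2 h
    rw [ENNReal.toReal_div, ENNReal.toReal_natCast, ENNReal.toReal_natCast, two_pow_frac] at h1
    exact h1
  refine ⟨fun x => ((2 ^ (encode x.2 + d) - 1 : ℕ) : ℝ≥0∞) /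
      ((2 ^ (encode x.2 + d) : ℕ) : ℝ≥0∞) < lam (A x.1 x.2), hS1, ?_, ?_⟩
  · intro x hx
    have hmono : Monotone fun s => A (pre B s) x := by
      intro s s' hss Z hZ
      simp only [hAeq] at hZ ⊢
      rcases hZ with ⟨t, ht⟩ | hZ
      · exact Or.inl ⟨t, mEU _ _ _ _ _ (pre_prefix B hss) (List.prefix_refl _) ht⟩
      · exact Or.inr hZ
    have hfull : lam (⋃ s, A (pre B s) x) = 1 := by
      have h0 : lam (⋃ s, A (pre B s) x)ᶜ = 0 := by
        refine le_antisymm (le_trans (measure_mono ?_) (le_of_eq hi)) bot_le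
        intro Z hZ
        simp only [Set.mem_compl_iff, Set.mem_iUnion, not_exists, hAeq, Set.mem_union,
          Set.mem_ofPred_eq, not_or, not_not] at hZ
        refine ⟨⟨(hZ 0).2.1, ?_⟩, ?_⟩
        · rw [UE_EVb]
          simp only [Set.mem_iUnion, exists_prop]
          exact ⟨x, hx, (hZ 0).2.2⟩
        · rintro ⟨s, t, h⟩
          exact (hZ s).1 t h
      have h1 := prob_add_prob_compl (μ := lam) (s := ⋃ s, A (pre B s) x)
        (MeasurableSet.iUnion fun s => hAm _ _)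
      rwa [h0, add_zero] at h1
    rw [hmono.measure_iUnion] at hfull
    have hlt : ((2 ^ (encode x + d) - 1 : ℕ) : ℝ≥0∞) / ((2 ^ (encode x + d) : ℕ) : ℝ≥0∞) <
        ⨆ s, lam (A (pre B s) x) := by
      rw [hfull, ENNReal.div_lt_iff (Or.inl (by positivity)) (Or.inl (ENNReal.natCast_ne_top _)),
        one_mul]
      exact_mod_cast Nat.sub_lt (by positivity) Nat.one_pos
    exact lt_iSup_iff.1 hlt
  · obtain ⟨b, hb⟩ := exists_nat_gt (2 ^ i * (2 / lm))
    refine ⟨b, fun F hF => ?_⟩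
    -- measure of the overlap
    have hover : ∀ x ∈ F, lam.real ((cyl ρ \ UE EU B 1) ∩ Blk (Nat.pair (encode x) i) (g x + i)) ≤
        (1 / 2) ^ (encode x + d) := by
      intro x hx
      obtain ⟨s, hs⟩ := hF x hx
      have h1 := hthr _ _ hs
      simp only at h1
      have h2 : (cyl ρ \ UE EU B 1) ∩ Blk (Nat.pair (encode x) i) (g x + i) ⊆ (A (pre B s) x)ᶜ := by
        rintro Z ⟨⟨h3, h4⟩, h5⟩ h6
        rw [hAeq] at h6
        rcases h6 with ⟨t, ht⟩ | h6
        · exact h4 ⟨s, t, ht⟩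
        · exact h6 ⟨h3, h5⟩
      have h3 : lam.real (A (pre B s) x)ᶜ = 1 - lam.real (A (pre B s) x) :=
        probReal_compl_eq_one_sub (hAm _ _)
      have h4 := measureReal_mono h2 (μ := lam)
      rw [h3] at h4
      linarith
    obtain ⟨Q, hQ⟩ : ∃ Q : Set (ℕ → Bool), Q = (cyl ρ \ UE EU B 1) \
        ⋃ x ∈ F, Blk (Nat.pair (encode x) i) (g x + i) := ⟨_, rfl⟩
    have hQm : MeasurableSet Q := by
      rw [hQ]
      exact ((measurableSet_cyl ρ).diff (measurableSet_UE EU B 1)).diff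
        (Finset.measurableSet_biUnion _ fun x _ => measurableSet_Blk _ _)
    have hQl : lm / 2 ≤ lam.real Q := by
      have h1 : cyl ρ \ UE EU B 1 ⊆ Q ∪ ⋃ x ∈ F, ((cyl ρ \ UE EU B 1) ∩
          Blk (Nat.pair (encode x) i) (g x + i)) := by
        intro Z hZ
        by_cases h : ∃ x ∈ F, Z ∈ Blk (Nat.pair (encode x) i) (g x + i)
        · right
          simp only [Set.mem_iUnion, exists_prop]
          obtain ⟨x, h3, h4⟩ := h
          exact ⟨x, h3, hZ, h4⟩
        · left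
          rw [hQ]
          refine ⟨hZ, ?_⟩
          simpa using h
      have h2 := measureReal_mono h1 (μ := lam)
      have h3 := measureReal_union_le (μ := lam) Q (⋃ x ∈ F, ((cyl ρ \ UE EU B 1) ∩
          Blk (Nat.pair (encode x) i) (g x + i)))
      have h4 : lam.real (⋃ x ∈ F, ((cyl ρ \ UE EU B 1) ∩ Blk (Nat.pair (encode x) i) (g x + i))) ≤
          ∑ x ∈ F, lam.real ((cyl ρ \ UE EU B 1) ∩ Blk (Nat.pair (encode x) i) (g x + i)) :=
        measureReal_biUnion_finset_le _ _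
      have h5 := Finset.sum_le_sum hover
      have h6 := sum_half_encode_le F d
      rw [← hlm] at h2
      linarith
    have hch := chebyshev lam F (fun x => Blk (Nat.pair (encode x) i) (g x + i))
      (fun x _ => measurableSet_Blk _ _) (fun x => (1 / 2) ^ (g x + i))
      (fun x _ => by rw [measureReal_def, lam_Blk, real_half_pow])
      (fun x _ y _ hne => by
        rw [measureReal_def, lam_Blk_Blk, real_half_pow, pow_add]
        intro h
        exact hne (encode_injective (Nat.pair_eq_pair.1 h).1)) Q hQm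
      (fun x hx => by
        rw [Set.disjoint_left, hQ]
        rintro Z ⟨_, h1⟩ h2
        apply h1
        simp only [Set.mem_iUnion, exists_prop]
        exact ⟨x, hx, h2⟩)
    have hsum : (∑ x ∈ F, (1 / 2 : ℝ) ^ (g x + i)) * (lm / 2) ≤ 1 := by
      refine le_trans (mul_le_mul_of_nonneg_left hQl ?_) hch
      exact Finset.sum_nonneg fun x _ => by positivity
    have hsum2 : ∑ x ∈ F, (1 / 2 : ℝ) ^ (g x) ≤ 2 ^ i * (2 / lm) := by
      have h1 : ∑ x ∈ F, (1 / 2 : ℝ) ^ (g x) = 2 ^ i * ∑ x ∈ F, (1 / 2 : ℝ) ^ (g x + i) := by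
        rw [Finset.mul_sum]
        refine Finset.sum_congr rfl fun x _ => ?_
        rw [pow_add, mul_comm, mul_assoc, ← mul_pow]
        norm_num
      rw [h1]
      refine mul_le_mul_of_nonneg_left ?_ (by positivity)
      rw [le_div_iff₀ hlm0]
      linarith
    have hsum3 : ∑ x ∈ F, (1 / 2 : ℝ≥0∞) ^ (g x) = ENNReal.ofReal (∑ x ∈ F, (1 / 2 : ℝ) ^ (g x)) := by
      rw [ENNReal.ofReal_sum_of_nonneg (fun x _ => by positivity)]
      refine Finset.sum_congr rfl fun x _ => ?_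
      rw [ENNReal.ofReal_pow (by norm_num), one_div, one_div, ENNReal.ofReal_inv_of_pos (by norm_num)]
      norm_num
    rw [hsum3]
    refine le_trans (ENNReal.ofReal_le_ofReal (le_trans hsum2 hb.le)) ?_
    rw [ENNReal.ofReal_natCast]

end Pool.Agent.Helper227
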