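import Pool.Agent.Helper227.Meas

set_option autoImplicit false

namespace Pool.Agent.Helper227

open Encodable MeasureTheory
open scoped ENNReal
open Nat.Partrec (Code)

/-- strings with code less than `s` -/
def cands (s : ℕ) : List (List Bool) := (List.range s).filterMap (decode₂ (List Bool))

theorem mem_cands {s : ℕ} {ζ : List Bool} : ζ ∈ cands s ↔ encode ζ < s := by
  simp only [cands, List.mem_filterMap, List.mem_range]
  constructor
  · rintro ⟨a, ha, h⟩
    have : encode ζ = a := mem_decode₂.1 h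
    omega
  · intro h
    exact ⟨_, h, mem_decode₂.2 rfl⟩

theorem primrec_cands : Primrec cands :=
  Primrec.listFilterMap Primrec.list_range (Primrec.decode₂.comp Primrec.snd)

/-- one step of the computation of the code `c` on the given triple -/
def stp (c : Code) (r : ℕ) (x : List Bool × ℕ × List Bool) : Prop :=
  (c.evaln r (encode x)).isSome = true

theorem stp_mono {c : Code} {r r' : ℕ} (h : r ≤ r') {x : List Bool × ℕ × List Bool}
    (hx : stp c r x) : stp c r' x := by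
  unfold stp at *
  rw [Option.isSome_iff_exists] at hx ⊢
  obtain ⟨y, hy⟩ := hx
  exact ⟨y, Nat.Partrec.Code.evaln_mono h hy⟩

theorem primrec_stp : PrimrecPred fun y : (Code × ℕ) × (List Bool × ℕ × List Bool) =>
    stp y.1.1 y.1.2 y.2 := by
  unfold stp
  refine Primrec.eq.comp (Primrec.option_isSome.comp (Nat.Partrec.Code.primrec_evaln.comp
    (((Primrec.snd.comp Primrec.fst).pair (Primrec.fst.comp Primrec.fst)).pair
      (Primrec.encode.comp Primrec.snd)))) (Primrec.const true)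

theorem exists_code {E : List Bool × ℕ × List Bool → Prop} (hE : S1 E) :
    ∃ c : Code, ∀ x, E x ↔ ∃ r, stp c r x := by
  obtain ⟨c, hc⟩ := Nat.Partrec.Code.exists_code.1 hE.re
  refine ⟨c, fun x => ?_⟩
  have h1 : (c.eval (encode x)).Dom ↔ E x := by
    rw [hc]
    simp [Part.assert]
  rw [← h1]
  constructor
  · intro h
    obtain ⟨y, hy⟩ := Part.dom_iff_mem.1 h
    obtain ⟨k, hk⟩ := Nat.Partrec.Code.evaln_complete.1 hy
    exact ⟨k, Option.isSome_iff_exists.2 ⟨y, hk⟩⟩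
  · rintro ⟨n, hn⟩
    obtain ⟨y, hy⟩ := Option.isSome_iff_exists.1 hn
    exact Part.dom_iff_mem.2 ⟨y, Nat.Partrec.Code.evaln_sound hy⟩

open Classical in
/-- the list of strings enumerated by stage `σ.length` -/
noncomputable def Lst (c : Code) (σ : List Bool) (n : ℕ) : List (List Bool) :=
  (cands σ.length).filter fun ζ => ∃ k < σ.length + 1, stp c σ.length (σ.take k, n, ζ)

theorem mem_Lst {c : Code} {σ : List Bool} {n : ℕ} {ζ : List Bool} :
    ζ ∈ Lst c σ n ↔ encode ζ < σ.length ∧ ∃ k < σ.length + 1, stp c σ.length (σ.take k, n, ζ) := by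
  simp only [Lst, List.mem_filter, mem_cands, decide_eq_true_eq]

theorem Lst_mono {c : Code} {σ τ : List Bool} {n : ℕ} {ζ : List Bool} (h : σ <+: τ)
    (hζ : ζ ∈ Lst c σ n) : ζ ∈ Lst c τ n := by
  rw [mem_Lst] at hζ ⊢
  obtain ⟨h1, k, hk, h2⟩ := hζ
  have hl := h.length_le
  refine ⟨by omega, k, by omega, stp_mono hl ?_⟩
  have hk2 : σ.take k = τ.take k := by
    rw [List.prefix_iff_eq_take] at h
    rw [h, List.take_take, min_eq_left (by omega)]
  rw [← hk2]
  exact h2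

theorem primrec_Lst : Primrec fun x : Code × List Bool × ℕ => Lst x.1 x.2.1 x.2.2 := by
  classical
  have h1 : PrimrecRel (fun (ζ : List Bool) (x : Code × List Bool × ℕ) =>
      ∃ k < x.2.1.length + 1, stp x.1 x.2.1.length (x.2.1.take k, x.2.2, ζ)) := by
    refine PP.ex_lt (α := List Bool × (Code × List Bool × ℕ))
      (f := fun y => y.2.2.1.length + 1)
      (p := fun y k => stp y.2.1 y.2.2.1.length (y.2.2.1.take k, y.2.2.2, y.1)) ?_
      (Primrec.succ.comp (Primrec.list_length.comp (Primrec.fst.comp (Primrec.snd.comp Primrec.snd))))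
    refine PrimrecPred.comp (f := fun z : (List Bool × (Code × List Bool × ℕ)) × ℕ =>
      ((z.1.2.1, z.1.2.2.1.length), (z.1.2.2.1.take z.2, z.1.2.2.2, z.1.1))) primrec_stp ?_
    have e1 : Primrec fun z : (List Bool × (Code × List Bool × ℕ)) × ℕ => z.1.2.2.1 :=
      Primrec.fst.comp (Primrec.snd.comp (Primrec.snd.comp Primrec.fst))
    exact ((Primrec.fst.comp (Primrec.snd.comp Primrec.fst)).pair (Primrec.list_length.comp e1)).pair
      ((Primrec.list_take.comp Primrec.snd e1).pair ((Primrec.snd.comp (Primrec.snd.comp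
        (Primrec.snd.comp Primrec.fst))).pair (Primrec.fst.comp Primrec.fst)))
  refine (h1.listFilter.comp (primrec_cands.comp (Primrec.list_length.comp
    (Primrec.fst.comp Primrec.snd))) Primrec.id).of_eq fun x => ?_
  unfold Lst
  congr

/-- trimmed enumeration -/
def Dt (c : Code) (σ : List Bool) (n : ℕ) (ζ : List Bool) : Prop :=
  ζ ∈ Lst c σ n ∧ MOK (Lst c σ n) n

theorem primrec_Dt : PrimrecPred fun x : Code × List Bool × ℕ × List Bool =>
    Dt x.1 x.2.1 x.2.2.1 x.2.2.2 := by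
  have e : Primrec fun x : Code × List Bool × ℕ × List Bool => Lst x.1 x.2.1 x.2.2.1 :=
    primrec_Lst.comp (Primrec.fst.pair ((Primrec.fst.comp Primrec.snd).pair
      (Primrec.fst.comp (Primrec.snd.comp Primrec.snd))))
  unfold Dt
  refine PrimrecPred.and ?_ (primrec_mok.comp e (Primrec.fst.comp (Primrec.snd.comp Primrec.snd)))
  refine (PP.ex_mem (α := Code × List Bool × ℕ × List Bool) (p := fun x ζ => ζ = x.2.2.2)
    (Primrec.eq.comp Primrec.snd (Primrec.snd.comp (Primrec.snd.comp (Primrec.snd.comp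
      Primrec.fst)))) e).of_eq fun x => ?_
  simp

/-- the open set enumerated by the trimmed enumeration -/
def DtSet (c : Code) (A : ℕ → Bool) (n : ℕ) : Set (ℕ → Bool) :=
  {Z | ∃ s, ∃ ζ, Dt c (pre A s) n ζ ∧ Z ∈ cyl ζ}

theorem lam_DtSet_le (c : Code) (A : ℕ → Bool) (n : ℕ) : lam (DtSet c A n) ≤ (1 / 2) ^ n := by
  obtain ⟨G, hG⟩ : ∃ G : ℕ → Set (ℕ → Bool),
      G = fun s => {Z | ∃ ζ, Dt c (pre A s) n ζ ∧ Z ∈ cyl ζ} := ⟨_, rfl⟩
  have h1 : DtSet c A n = ⋃ s, G s := by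
    ext Z; simp [DtSet, hG]
  rw [h1, measure_iUnion_eq_iSup_accumulate]
  refine iSup_le fun s => ?_
  by_cases hs : ∃ s' ≤ s, MOK (Lst c (pre A s') n) n
  · -- take the largest such `s'`
    classical
    obtain ⟨m, hm, hm2⟩ : ∃ m, (m ≤ s ∧ MOK (Lst c (pre A m) n) n) ∧
        ∀ k, k ≤ s → MOK (Lst c (pre A k) n) n → k ≤ m := by
      have := Nat.findGreatest_spec (P := fun k => MOK (Lst c (pre A k) n) n)
        hs.choose_spec.1 hs.choose_spec.2
      refine ⟨_, ⟨Nat.findGreatest_le s, this⟩, fun k hk hk2 => Nat.le_findGreatest hk hk2⟩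
    refine le_trans (measure_mono ?_) ((mok_iff _ _).1 hm.2)
    intro Z hZ
    simp only [Set.mem_accumulate, hG, Set.mem_ofPred_eq] at hZ ⊢
    obtain ⟨k, hk, ζ, ⟨h2, h3⟩, h4⟩ := hZ
    exact ⟨ζ, Lst_mono (pre_prefix A (hm2 k hk h3)) h2, h4⟩
  · push Not at hs
    have : Set.accumulate G s = ∅ := by
      ext Z
      simp only [Set.mem_accumulate, hG, Set.mem_ofPred_eq, Set.mem_empty_iff_false, iff_false]
      rintro ⟨k, hk, ζ, ⟨h2, h3⟩, h4⟩
      exact hs k hk h3
    rw [this]; simp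

theorem exists_DtSet {E : List Bool × ℕ × List Bool → Prop} (hE : S1 E) :
    ∃ c : Code, ∀ (A : ℕ → Bool) (n : ℕ), lam (UE E A n) ≤ (1 / 2) ^ n → UE E A n = DtSet c A n := by
  obtain ⟨c, hc⟩ := exists_code hE
  refine ⟨c, fun A n hn => ?_⟩
  have hsub : ∀ s ζ, ζ ∈ Lst c (pre A s) n → cyl ζ ⊆ UE E A n := by
    intro s ζ h Z hZ
    rw [mem_Lst] at h
    obtain ⟨_, k, hk, h2⟩ := h
    rw [length_pre] at hk
    rw [take_pre _ _ _ (by omega)] at h2
    rw [mem_cyl_iff] at hZ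
    refine ⟨k, ζ.length, (hc _).2 ⟨(pre A s).length, ?_⟩⟩
    rw [hZ]; exact h2
  have hok : ∀ s, MOK (Lst c (pre A s) n) n := by
    intro s
    rw [mok_iff]
    refine le_trans (measure_mono ?_) hn
    rintro Z ⟨ζ, h1, h2⟩
    exact hsub s ζ h1 h2
  ext Z
  constructor
  · rintro ⟨s, t, h⟩
    obtain ⟨r, hr⟩ := (hc _).1 h
    refine ⟨s + r + encode (pre Z t) + 1, pre Z t, ⟨?_, hok _⟩, mem_cyl_pre _ _⟩
    rw [mem_Lst]
    refine ⟨by simp, s, by simp; omega, ?_⟩
    rw [take_pre _ _ _ (by omega)]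
    exact stp_mono (by simp; omega) hr
  · rintro ⟨s, ζ, h1, h2⟩
    exact hsub s ζ h1.1 h2

/-- enumeration of the universal test -/
def EU0 (x : List Bool × ℕ × List Bool) : Prop :=
  ∃ c : Code, Dt c x.1 (x.2.1 + encode c + 1) x.2.2

theorem s1_EU0 : S1 EU0 := by
  unfold EU0
  refine S1.ex (S1.of_prim ?_)
  refine PrimrecPred.comp (f := fun z : (List Bool × ℕ × List Bool) × Code =>
      (z.2, z.1.1, z.1.2.1 + encode z.2 + 1, z.1.2.2)) primrec_Dt ?_
  exact Primrec.snd.pair ((Primrec.fst.comp Primrec.fst).pair ((Primrec.succ.comp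
    (Primrec.nat_add.comp (Primrec.fst.comp (Primrec.snd.comp Primrec.fst))
      (Primrec.encode.comp Primrec.snd))).pair (Primrec.snd.comp (Primrec.snd.comp Primrec.fst))))

theorem UE_EU0 (A : ℕ → Bool) (n : ℕ) : UE EU0 A n = ⋃ c : Code, DtSet c A (n + encode c + 1) := by
  ext Z
  simp only [UE, EU0, DtSet, Set.mem_ofPred_eq, Set.mem_iUnion]
  constructor
  · rintro ⟨s, t, c, h⟩
    exact ⟨c, s, _, h, mem_cyl_pre _ _⟩
  · rintro ⟨c, s, ζ, h, hZ⟩
    rw [mem_cyl_iff] at hZ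
    exact ⟨s, ζ.length, c, by rw [hZ]; exact h⟩

theorem tsum_half_pow (n : ℕ) : ∑' k : ℕ, (1 / 2 : ℝ≥0∞) ^ (n + k + 1) = (1 / 2) ^ n := by
  have : ∀ k : ℕ, (1 / 2 : ℝ≥0∞) ^ (n + k + 1) = (1 / 2) ^ n * (1 / 2) * (1 / 2) ^ k := by
    intro k; ring
  simp_rw [this]
  rw [ENNReal.tsum_mul_left, ENNReal.tsum_geometric, mul_assoc]
  have h : (1 / 2 : ℝ≥0∞) * (1 - 1 / 2)⁻¹ = 1 := by
    rw [one_div, ENNReal.one_sub_inv_two, inv_inv]
    exact ENNReal.inv_mul_cancel (by norm_num) (by norm_num)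
  rw [h, mul_one]

theorem lam_UE_EU0_le (A : ℕ → Bool) (n : ℕ) : lam (UE EU0 A n) ≤ (1 / 2) ^ n := by
  rw [UE_EU0]
  refine le_trans (measure_iUnion_le _) ?_
  refine le_trans (ENNReal.tsum_le_tsum fun c => lam_DtSet_le c A _) ?_
  rw [← tsum_half_pow n]
  exact ENNReal.tsum_comp_le_tsum_of_injective (f := (encode : Code → ℕ)) encode_injective
    (fun k => (1 / 2 : ℝ≥0∞) ^ (n + k + 1))

/-- the universal oracle test, with properties packaged -/
theorem exists_universal : ∃ E : List Bool × ℕ × List Bool → Prop, S1 E ∧ Mono3 E ∧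
    (∀ A n, lam (UE E A n) ≤ (1 / 2) ^ n) ∧
    (∀ A X, MLR A X ↔ ∃ n, X ∉ UE E A n) := by
  obtain ⟨E, hE, mE, eE⟩ := exists_mono3 s1_EU0
  refine ⟨E, hE, mE, fun A n => by rw [eE]; exact lam_UE_EU0_le A n, fun A X => ?_⟩
  constructor
  · intro h
    have h1 : IsMLTest A (UE E A) := isMLTest_of_E hE (fun n => by
      rw [eE]; exact lam_UE_EU0_le A n)
    have h2 := h _ h1
    simpa using h2
  · rintro ⟨n, hn⟩ U hU hX
    rw [eE, UE_EU0] at hn
    obtain ⟨F, hF, _, hUF⟩ := hU.exists_E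
    obtain ⟨c, hc⟩ := exists_DtSet hF
    apply hn
    rw [Set.mem_iInter] at hX
    have h3 := hX (n + encode c + 1)
    have h4 := hU.2 (n + encode c + 1)
    rw [hUF] at h3 h4
    rw [Set.mem_iUnion]
    exact ⟨c, by rw [← hc A _ h4]; exact h3⟩

end Pool.Agent.Helper227
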