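import Pool.Agent.Helper227.Univ

set_option autoImplicit false

namespace Pool.Agent.Helper227

open Encodable MeasureTheory
open scoped ENNReal

theorem lam_ext {ν : Measure (ℕ → Bool)} [IsProbabilityMeasure ν]
    (h : ∀ σ, ν (cyl σ) = (1 / 2) ^ σ.length) : ν = lam := by
  refine Measure.eq_infinitePi _ fun s t ht => ?_
  -- both sides agree by writing the box as a finite union of cylinders
  obtain ⟨N, hN⟩ : ∃ N, ∀ i ∈ s, i < N := by
    refine ⟨s.sup id + 1, fun i hi => Nat.lt_succ_of_le (Finset.le_sup (f := id) hi)⟩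
  have hbox : Set.pi (s : Set ℕ) t = {X : ℕ → Bool | ∀ i ∈ s, X i ∈ t i} := by
    ext X; simp [Set.mem_pi]
  classical
  set G : Finset (List Bool) := ((allStr N).filter fun τ => ∀ i ∈ s, τ.getD i false ∈ t i).toFinset
    with hG
  have hGl : ∀ σ ∈ G, σ.length = N := by
    intro σ hσ
    simp only [hG, List.mem_toFinset, List.mem_filter, mem_allStr] at hσ
    exact hσ.1
  have hset : {X : ℕ → Bool | ∀ i ∈ s, X i ∈ t i} = {X | pre X N ∈ G} := by
    ext X
    simp only [hG, Set.mem_ofPred_eq, List.mem_toFinset, List.mem_filter, mem_allStr, length_pre,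
      true_and, decide_eq_true_eq]
    refine forall_congr' fun i => forall_congr' fun hi => ?_
    rw [pre_getD _ _ _ _ (hN i hi)]
  have hU : {X : ℕ → Bool | pre X N ∈ G} = ⋃ σ ∈ G, cyl σ := by
    ext X
    simp only [Set.mem_ofPred_eq, Set.mem_iUnion, exists_prop]
    constructor
    · intro h
      exact ⟨_, h, mem_cyl_pre _ _⟩
    · rintro ⟨σ, h1, h2⟩
      rw [mem_cyl_iff, hGl σ h1] at h2
      rwa [h2]
  have hν : ν {X | pre X N ∈ G} = lam {X | pre X N ∈ G} := by
    rw [lam_finset G N hGl, hU, measure_biUnion_finset]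
    · rw [Finset.sum_congr rfl (fun σ hσ => by rw [h, hGl σ hσ])]
      simp
    · intro σ hσ τ hτ h
      exact cyl_disjoint (by rw [hGl σ hσ, hGl τ hτ]) h
    · intro σ _
      exact measurableSet_cyl σ
  rw [hbox, hset, hν, ← hset, ← hbox, lam, Measure.infinitePi_pi _ (fun i _ => ht i)]

theorem measurable_join : Measurable fun p : (ℕ → Bool) × (ℕ → Bool) => join p.1 p.2 := by
  refine measurable_pi_iff.2 fun n => ?_
  unfold join
  by_cases h : n % 2 = 0
  · simp only [h, if_true]
    fun_prop
  · simp only [h, if_false]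
    fun_prop

theorem join_even (X Y : ℕ → Bool) (k : ℕ) : join X Y (2 * k) = X k := by
  unfold join
  rw [if_pos (by omega)]
  congr 1; omega

theorem join_odd (X Y : ℕ → Bool) (k : ℕ) : join X Y (2 * k + 1) = Y k := by
  unfold join
  rw [if_neg (by omega)]
  congr 1; omega

theorem lam_join : Measure.map (fun p : (ℕ → Bool) × (ℕ → Bool) => join p.1 p.2) (lam.prod lam)
    = lam := by
  have : IsProbabilityMeasure (Measure.map (fun p : (ℕ → Bool) × (ℕ → Bool) => join p.1 p.2)
      (lam.prod lam)) := Measure.isProbabilityMeasure_map measurable_join.aemeasurable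
  refine lam_ext fun σ => ?_
  rw [Measure.map_apply measurable_join (measurableSet_cyl σ)]
  have h : (fun p : (ℕ → Bool) × (ℕ → Bool) => join p.1 p.2) ⁻¹' cyl σ =
      {X | ∀ i ∈ Finset.range ((σ.length + 1) / 2), X i = σ.getD (2 * i) false} ×ˢ
      {Y | ∀ i ∈ Finset.range (σ.length / 2), Y i = σ.getD (2 * i + 1) false} := by
    ext ⟨X, Y⟩
    simp only [Set.mem_preimage, cyl_eq, Set.mem_ofPred_eq, Finset.mem_range, Set.mem_prod]
    constructor
    · intro h
      refine ⟨fun i hi => ?_, fun i hi => ?_⟩
      · have := h (2 * i) (by omega)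
        rwa [join_even] at this
      · have := h (2 * i + 1) (by omega)
        rwa [join_odd] at this
    · rintro ⟨h1, h2⟩ i hi
      rcases Nat.even_or_odd' i with ⟨k, rfl | rfl⟩
      · rw [join_even]
        exact h1 k (by omega)
      · rw [join_odd]
        exact h2 k (by omega)
  rw [h, Measure.prod_prod, lam_coord, lam_coord, Finset.card_range, Finset.card_range, ← pow_add]
  congr 1
  omega

theorem lam_xor (Z : ℕ → Bool) : Measure.map (fun (X : ℕ → Bool) n => xor (X n) (Z n)) lam = lam := by
  have hm : Measurable (fun (X : ℕ → Bool) n => xor (X n) (Z n)) := by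
    refine measurable_pi_iff.2 fun n => ?_
    exact (measurable_of_finite (fun b : Bool => xor b (Z n))).comp (measurable_pi_apply n)
  have : IsProbabilityMeasure (Measure.map (fun (X : ℕ → Bool) n => xor (X n) (Z n)) lam) :=
    Measure.isProbabilityMeasure_map hm.aemeasurable
  refine lam_ext fun σ => ?_
  rw [Measure.map_apply hm (measurableSet_cyl σ)]
  have h : (fun (X : ℕ → Bool) n => xor (X n) (Z n)) ⁻¹' cyl σ =
      {X | ∀ i ∈ Finset.range σ.length, X i = xor (σ.getD i false) (Z i)} := by
    ext X
    simp only [Set.mem_preimage, cyl_eq, Set.mem_ofPred_eq, Finset.mem_range]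
    refine forall_congr' fun i => forall_congr' fun hi => ?_
    generalize σ.getD i false = b
    cases b <;> cases X i <;> cases Z i <;> simp
  rw [h, lam_coord, Finset.card_range]

theorem lam_comp {j : ℕ → ℕ} (hj : Function.Injective j) :
    Measure.map (fun (X : ℕ → Bool) n => X (j n)) lam = lam := by
  have hm : Measurable (fun (X : ℕ → Bool) n => X (j n)) :=
    measurable_pi_iff.2 fun n => measurable_pi_apply (j n)
  have : IsProbabilityMeasure (Measure.map (fun (X : ℕ → Bool) n => X (j n)) lam) :=
    Measure.isProbabilityMeasure_map hm.aemeasurable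
  refine lam_ext fun σ => ?_
  rw [Measure.map_apply hm (measurableSet_cyl σ)]
  classical
  have h : (fun (X : ℕ → Bool) n => X (j n)) ⁻¹' cyl σ =
      {X | ∀ m ∈ (Finset.range σ.length).image j, X m =
        σ.getD (Function.invFun j m) false} := by
    ext X
    simp only [Set.mem_preimage, cyl_eq, Set.mem_ofPred_eq, Finset.mem_range, Finset.mem_image]
    constructor
    · rintro h m ⟨i, hi, rfl⟩
      rw [Function.leftInverse_invFun hj i]
      exact h i hi
    · intro h i hi
      have := h (j i) ⟨i, hi, rfl⟩
      rwa [Function.leftInverse_invFun hj i] at this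
  rw [h, lam_coord, Finset.card_image_of_injective _ hj, Finset.card_range]

end Pool.Agent.Helper227
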