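import Mathlib

set_option autoImplicit false

namespace Pool.Agent.Helper227

open MeasureTheory
open scoped ENNReal

/-- Second moment bound: a set `V` of relative measure at most `c` can contain more than the
fraction `c' > c` of only few members of a pairwise independent family. -/
theorem second_moment {Ω ι : Type*} [MeasurableSpace Ω] [DecidableEq ι] (μ : Measure Ω)
    [IsFiniteMeasure μ] (S : Finset ι) (H : ι → Set Ω) (hH : ∀ τ ∈ S, MeasurableSet (H τ))
    (V : Set Ω) (hV : MeasurableSet V) (M h c c' : ℝ) (hM : μ.real Set.univ = M) (hMpos : 0 < M)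
    (h1 : ∀ τ ∈ S, μ.real (H τ) = h * M)
    (h2 : ∀ τ ∈ S, ∀ τ' ∈ S, τ ≠ τ' → μ.real (H τ ∩ H τ') = h * h * M)
    (hVc : μ.real V ≤ c * M) (hVH : ∀ τ ∈ S, c' * h * M ≤ μ.real (V ∩ H τ)) (h0 : 0 ≤ h)
    (hcc : c < c') : (S.card : ℝ) * h * (c' - c) ^ 2 ≤ 1 := by
  obtain ⟨m, hm⟩ : ∃ m : ℝ, m = S.card := ⟨_, rfl⟩
  obtain ⟨l, hl⟩ : ∃ l : ℝ, l = (c' - c) / 2 := ⟨_, rfl⟩
  have hlpos : 0 < l := by rw [hl]; linarith
  let a : ι → Ω → ℝ := fun τ => (H τ).indicator 1
  let v : Ω → ℝ := V.indicator 1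
  have ha01 : ∀ τ x, a τ x = 0 ∨ a τ x = 1 := by
    intro τ x
    by_cases hx : x ∈ H τ
    · right; simp [a, hx]
    · left; simp [a, hx]
  have hv01 : ∀ x, v x = 0 ∨ v x = 1 := by
    intro x
    by_cases hx : x ∈ V
    · right; simp [v, hx]
    · left; simp [v, hx]
  have hai : ∀ τ ∈ S, Integrable (a τ) μ := fun τ hτ =>
    (integrable_const (1 : ℝ)).indicator (hH τ hτ)
  have hvi : Integrable v μ := (integrable_const (1 : ℝ)).indicator hV
  have haai : ∀ τ ∈ S, ∀ τ' ∈ S, Integrable (fun x => a τ x * a τ' x) μ := by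
    intro τ hτ τ' hτ'
    have : (fun x => a τ x * a τ' x) = (H τ ∩ H τ').indicator 1 := by
      funext x
      by_cases hx : x ∈ H τ <;> by_cases hx' : x ∈ H τ' <;> simp [a, hx, hx']
    rw [this]
    exact (integrable_const (1 : ℝ)).indicator ((hH τ hτ).inter (hH τ' hτ'))
  have hvai : ∀ τ ∈ S, Integrable (fun x => v x * a τ x) μ := by
    intro τ hτ
    have : (fun x => v x * a τ x) = (V ∩ H τ).indicator 1 := by
      funext x
      by_cases hx : x ∈ V <;> by_cases hx' : x ∈ H τ <;> simp [a, v, hx, hx']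
    rw [this]
    exact (integrable_const (1 : ℝ)).indicator (hV.inter (hH τ hτ))
  have hia : ∀ τ ∈ S, ∫ x, a τ x ∂μ = h * M := by
    intro τ hτ
    rw [← h1 τ hτ]
    exact integral_indicator_one (hH τ hτ)
  have hiv : ∫ x, v x ∂μ = μ.real V := integral_indicator_one hV
  have hiva : ∀ τ ∈ S, c' * h * M ≤ ∫ x, v x * a τ x ∂μ := by
    intro τ hτ
    have : (fun x => v x * a τ x) = (V ∩ H τ).indicator 1 := by
      funext x
      by_cases hx : x ∈ V <;> by_cases hx' : x ∈ H τ <;> simp [a, v, hx, hx']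
    rw [this, integral_indicator_one (hV.inter (hH τ hτ))]
    exact hVH τ hτ
  have hiaa : ∀ τ ∈ S, ∀ τ' ∈ S, ∫ x, a τ x * a τ' x ∂μ ≤
      h * h * M + (if τ = τ' then h * M else 0) := by
    intro τ hτ τ' hτ'
    have : (fun x => a τ x * a τ' x) = (H τ ∩ H τ').indicator 1 := by
      funext x
      by_cases hx : x ∈ H τ <;> by_cases hx' : x ∈ H τ' <;> simp [a, hx, hx']
    rw [this, integral_indicator_one ((hH τ hτ).inter (hH τ' hτ'))]
    by_cases he : τ = τ'
    · subst he
      rw [Set.inter_self, h1 τ hτ, if_pos rfl]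
      have : 0 ≤ h * h * M := by positivity
      linarith
    · rw [h2 τ hτ τ' hτ' he, if_neg he]
      linarith
  -- the nonnegative function
  let N : Ω → ℝ := fun x => ∑ τ ∈ S, a τ x
  have hNi : Integrable N μ := integrable_finsetSum _ hai
  have hNN : ∀ x, N x * N x = ∑ τ ∈ S, ∑ τ' ∈ S, a τ x * a τ' x := by
    intro x
    rw [Finset.sum_mul_sum]
  have hNNi : Integrable (fun x => N x * N x) μ := by
    simp only [hNN]
    exact integrable_finsetSum _ fun τ hτ => integrable_finsetSum _ fun τ' hτ' => haai τ hτ τ' hτ'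
  have hvN : ∀ x, v x * N x = ∑ τ ∈ S, v x * a τ x := by
    intro x
    rw [Finset.mul_sum]
  have hvNi : Integrable (fun x => v x * N x) μ := by
    simp only [hvN]
    exact integrable_finsetSum _ fun τ hτ => hvai τ hτ
  have hpt : ∀ x, 0 ≤ l * (N x * N x) - (2 * l * m * h) * N x + l * (m * h) ^ 2 - v x * N x
      + (m * h) * v x + 1 / (4 * l) := by
    intro x
    have hv : v x ^ 2 = v x ∧ v x ≤ 1 := by
      rcases hv01 x with hx | hx <;> rw [hx] <;> norm_num
    have h3 : l * (N x * N x) - (2 * l * m * h) * N x + l * (m * h) ^ 2 - v x * N x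
      + (m * h) * v x + 1 / (4 * l) = l * (N x - m * h - v x / (2 * l)) ^ 2 +
        (1 - v x ^ 2) / (4 * l) := by
      field_simp
      ring
    rw [h3, hv.1]
    have : 0 ≤ 1 - v x := by linarith [hv.2]
    positivity
  have hint := integral_nonneg (μ := μ) (f := fun x => l * (N x * N x) - (2 * l * m * h) * N x
    + l * (m * h) ^ 2 - v x * N x + (m * h) * v x + 1 / (4 * l)) hpt
  have hI1 : Integrable (fun x => l * (N x * N x)) μ := hNNi.const_mul l
  have hI2 : Integrable (fun x => (2 * l * m * h) * N x) μ := hNi.const_mul _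
  have hI3 : Integrable (fun _ : Ω => l * (m * h) ^ 2) μ := integrable_const _
  have hI5 : Integrable (fun x => (m * h) * v x) μ := hvi.const_mul _
  have hI6 : Integrable (fun _ : Ω => 1 / (4 * l)) μ := integrable_const _
  have hI12 := hI1.sub hI2
  have hI123 := hI12.add hI3
  have hI1234 := hI123.sub hvNi
  have hI12345 := hI1234.add hI5
  have heq : ∫ x, (l * (N x * N x) - (2 * l * m * h) * N x
    + l * (m * h) ^ 2 - v x * N x + (m * h) * v x + 1 / (4 * l)) ∂μ =
    l * ∫ x, N x * N x ∂μ - (2 * l * m * h) * ∫ x, N x ∂μ + l * (m * h) ^ 2 * M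
      - ∫ x, v x * N x ∂μ + (m * h) * ∫ x, v x ∂μ + 1 / (4 * l) * M := by
    have e1 := integral_add hI12345 hI6
    have e2 := integral_add hI1234 hI5
    have e3 := integral_sub hI123 hvNi
    have e4 := integral_add hI12 hI3
    have e5 := integral_sub hI1 hI2
    simp only [Pi.add_apply, Pi.sub_apply] at e1 e2 e3 e4 e5
    have f1 : ∫ x, l * (N x * N x) ∂μ = l * ∫ x, N x * N x ∂μ := integral_const_mul _ _
    have f2 : ∫ x, (2 * l * m * h) * N x ∂μ = (2 * l * m * h) * ∫ x, N x ∂μ :=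
      integral_const_mul _ _
    have f3 : ∫ x, (m * h) * v x ∂μ = (m * h) * ∫ x, v x ∂μ := integral_const_mul _ _
    have f4 : ∫ _x : Ω, l * (m * h) ^ 2 ∂μ = l * (m * h) ^ 2 * M := by
      rw [integral_const, smul_eq_mul, hM]; ring
    have f5 : ∫ _x : Ω, 1 / (4 * l) ∂μ = 1 / (4 * l) * M := by
      rw [integral_const, smul_eq_mul, hM]; ring
    rw [e1, e2, e3, e4, e5, f1, f2, f3, f4, f5]
  rw [heq] at hint
  have hN : ∫ x, N x ∂μ = m * (h * M) := by
    rw [integral_finsetSum _ hai, Finset.sum_congr rfl hia]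
    simp [hm]
  have hNN' : ∫ x, N x * N x ∂μ ≤ m * m * (h * h * M) + m * (h * M) := by
    simp only [hNN]
    rw [integral_finsetSum _ fun τ hτ => integrable_finsetSum _ fun τ' hτ' => haai τ hτ τ' hτ']
    have : ∀ τ ∈ S, ∫ x, ∑ τ' ∈ S, a τ x * a τ' x ∂μ ≤ m * (h * h * M) + h * M := by
      intro τ hτ
      rw [integral_finsetSum _ fun τ' hτ' => haai τ hτ τ' hτ']
      refine le_trans (Finset.sum_le_sum fun τ' hτ' => hiaa τ hτ τ' hτ') ?_
      rw [Finset.sum_add_distrib, Finset.sum_ite_eq]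
      simp [hm, hτ]
    refine le_trans (Finset.sum_le_sum this) ?_
    rw [Finset.sum_const, nsmul_eq_mul, ← hm]
    linarith
  have hvN' : m * (c' * h * M) ≤ ∫ x, v x * N x ∂μ := by
    simp only [hvN]
    rw [integral_finsetSum _ fun τ hτ => hvai τ hτ]
    refine le_trans (le_of_eq ?_) (Finset.sum_le_sum fun τ hτ => hiva τ hτ)
    rw [Finset.sum_const, nsmul_eq_mul, ← hm]
  have hm0 : 0 ≤ m := by rw [hm]; positivity
  have hmh : 0 ≤ m * h := mul_nonneg hm0 h0
  have hstep : 0 ≤ l * (m * m * (h * h * M) + m * (h * M)) - (2 * l * m * h) * (m * (h * M))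
      + l * (m * h) ^ 2 * M - m * (c' * h * M) + (m * h) * (c * M) + 1 / (4 * l) * M := by
    have q1 : l * ∫ x, N x * N x ∂μ ≤ l * (m * m * (h * h * M) + m * (h * M)) :=
      mul_le_mul_of_nonneg_left hNN' hlpos.le
    have q2 : (m * h) * ∫ x, v x ∂μ ≤ (m * h) * (c * M) := by
      rw [hiv]; exact mul_le_mul_of_nonneg_left hVc hmh
    rw [hN] at hint
    linarith
  have hfin : 0 ≤ M * (l * (m * h) - (c' - c) * (m * h) + 1 / (4 * l)) := by
    have : l * (m * m * (h * h * M) + m * (h * M)) - (2 * l * m * h) * (m * (h * M))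
      + l * (m * h) ^ 2 * M - m * (c' * h * M) + (m * h) * (c * M) + 1 / (4 * l) * M =
      M * (l * (m * h) - (c' - c) * (m * h) + 1 / (4 * l)) := by ring
    rwa [this] at hstep
  have hfin2 : 0 ≤ l * (m * h) - (c' - c) * (m * h) + 1 / (4 * l) :=
    nonneg_of_mul_nonneg_right hfin hMpos
  have hd : c' - c = 2 * l := by rw [hl]; ring
  rw [hd] at hfin2 ⊢
  rw [← hm]
  have h5 : l * (m * h) ≤ 1 / (4 * l) := by linarith
  have h6 : l * (m * h) * (4 * l) ≤ 1 := by
    rw [le_div_iff₀ (by positivity)] at h5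
    exact h5
  calc m * h * (2 * l) ^ 2 = l * (m * h) * (4 * l) := by ring
    _ ≤ 1 := h6

end Pool.Agent.Helper227
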