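import Pool.Agent.Helper227.VL
import Pool.Agent.Helper227.SecMom

set_option autoImplicit false

namespace Pool.Agent.Helper227

open MeasureTheory Encodable
open scoped ENNReal

/-- the part of the second component of a test enumerated from the finite oracle `h` -/
def UH (E : List Bool × ℕ × List Bool → Prop) (h : List Bool) : Set (ℕ → Bool) :=
  {Z | ∃ t, E (h, 2, pre Z t)}

variable {E : List Bool × ℕ × List Bool → Prop}

theorem UH_mono (mE : Mono3 E) {h h' : List Bool} (hh : h <+: h') : UH E h ⊆ UH E h' := by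
  rintro Z ⟨t, ht⟩
  exact ⟨t, mE _ _ _ _ _ hh (List.prefix_refl _) ht⟩

theorem measurableSet_UH (h : List Bool) : MeasurableSet (UH E h) :=
  measurableSet_open (fun _ ζ => E (h, 2, ζ))

theorem pre_getD_list (h : List Bool) : pre (fun n => h.getD n false) h.length = h := by
  refine List.ext_getElem (by simp) fun i h1 h2 => ?_
  rw [getElem_pre]
  simp [List.getD, h2]

theorem lam_UH_le (hEm : ∀ A n, lam (UE E A n) ≤ (1 / 2) ^ n) (h : List Bool) :
    lam (UH E h) ≤ (1 / 2) ^ 2 := by
  refine le_trans (measure_mono ?_) (hEm (fun n => h.getD n false) 2)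
  rintro Z ⟨t, ht⟩
  exact ⟨h.length, t, by rw [pre_getD_list]; exact ht⟩

/-- the class of all `Z` for which the block coded by `τ` starts with `i` zeros -/
def Hs (τ : List Bool) (i : ℕ) : Set (ℕ → Bool) :=
  {Z | ∀ l < i, Z (Nat.pair (encode τ) l) = false}

theorem measurableSet_Hs (τ : List Bool) (i : ℕ) : MeasurableSet (Hs τ i) := by
  have : Hs τ i = ⋂ l ∈ {l | l < i}, {Z : ℕ → Bool | Z (Nat.pair (encode τ) l) = false} := by
    ext Z; simp [Hs]
  rw [this]
  refine MeasurableSet.biInter (Set.to_countable _) fun l _ => ?_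
  exact (measurable_pi_apply (Nat.pair (encode τ) l)) (measurableSet_singleton _)

theorem lam_cyl_inter (σ : List Bool) (F : Finset ℕ) (hF : ∀ m ∈ F, σ.length ≤ m) :
    lam (cyl σ ∩ {Z | ∀ m ∈ F, Z m = false}) = (1 / 2) ^ (σ.length + F.card) := by
  have h : cyl σ ∩ {Z | ∀ m ∈ F, Z m = false} =
      {X | ∀ m ∈ Finset.range σ.length ∪ F, X m = σ.getD m false} := by
    rw [cyl_eq]
    ext X
    simp only [Set.mem_inter_iff, Set.mem_ofPred_eq, Finset.mem_union]
    constructor
    · rintro ⟨h1, h2⟩ m (hm | hm)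
      · exact h1 m hm
      · rw [h2 m hm, List.getD_eq_default _ _ (hF m hm)]
    · intro h
      refine ⟨fun m hm => h m (Or.inl hm), fun m hm => ?_⟩
      rw [h m (Or.inr hm), List.getD_eq_default _ _ (hF m hm)]
  rw [h, lam_coord, Finset.card_union_of_disjoint, Finset.card_range]
  rw [Finset.disjoint_left]
  intro m h1 h2
  have := hF m h2
  rw [Finset.mem_range] at h1
  omega

theorem Hs_eq (τ : List Bool) (i : ℕ) :
    Hs τ i = {Z | ∀ m ∈ (Finset.range i).image (Nat.pair (encode τ)), Z m = false} := by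
  ext Z
  simp only [Hs, Set.mem_ofPred_eq, Finset.mem_image, Finset.mem_range]
  constructor
  · rintro h _ ⟨l, hl, rfl⟩
    exact h l hl
  · intro h l hl
    exact h _ ⟨l, hl, rfl⟩

theorem card_block (e i : ℕ) : ((Finset.range i).image (Nat.pair e)).card = i := by
  rw [Finset.card_image_of_injective, Finset.card_range]
  intro a b hab
  have := Nat.pair_eq_pair.1 hab
  exact this.2

theorem lam_cyl_Hs {σ τ : List Bool} (h : σ.length ≤ encode τ) (i : ℕ) :
    lam (cyl σ ∩ Hs τ i) = (1 / 2) ^ (σ.length + i) := by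
  rw [Hs_eq, lam_cyl_inter, card_block]
  intro m hm
  simp only [Finset.mem_image, Finset.mem_range] at hm
  obtain ⟨l, _, rfl⟩ := hm
  exact le_trans h (Nat.left_le_pair _ _)

theorem lam_cyl_Hs_Hs {σ τ τ' : List Bool} (h : σ.length ≤ encode τ) (h' : σ.length ≤ encode τ')
    (hne : τ ≠ τ') (i : ℕ) :
    lam (cyl σ ∩ (Hs τ i ∩ Hs τ' i)) = (1 / 2) ^ (σ.length + (i + i)) := by
  have : Hs τ i ∩ Hs τ' i = {Z | ∀ m ∈ (Finset.range i).image (Nat.pair (encode τ)) ∪
      (Finset.range i).image (Nat.pair (encode τ')), Z m = false} := by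
    rw [Hs_eq, Hs_eq]
    ext Z
    simp only [Set.mem_inter_iff, Set.mem_ofPred_eq, Finset.mem_union]
    constructor
    · rintro ⟨h1, h2⟩ m (hm | hm)
      · exact h1 m hm
      · exact h2 m hm
    · intro h
      exact ⟨fun m hm => h m (Or.inl hm), fun m hm => h m (Or.inr hm)⟩
  rw [this, lam_cyl_inter, Finset.card_union_of_disjoint, card_block, card_block]
  · rw [Finset.disjoint_left]
    intro m h1 h2
    simp only [Finset.mem_image, Finset.mem_range] at h1 h2
    obtain ⟨l, _, rfl⟩ := h1
    obtain ⟨l', _, h3⟩ := h2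
    exact hne (encode_injective (Nat.pair_eq_pair.1 h3).1.symm)
  · intro m hm
    simp only [Finset.mem_union, Finset.mem_image, Finset.mem_range] at hm
    rcases hm with ⟨l, _, rfl⟩ | ⟨l, _, rfl⟩
    · exact le_trans h (Nat.left_le_pair _ _)
    · exact le_trans h' (Nat.left_le_pair _ _)

theorem real_half_pow (n : ℕ) : ((1 / 2 : ℝ≥0∞) ^ n).toReal = (1 / 2 : ℝ) ^ n := by
  rw [ENNReal.toReal_pow]; norm_num

theorem card_bound {σ : List Bool} {h : List Bool} {c c' : ℝ} {i : ℕ} (S : Finset (List Bool))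
    (hc : lam.real (cyl σ ∩ UH E h) ≤ c * (1 / 2) ^ σ.length) (hcc : c < c')
    (hS : ∀ τ ∈ S, σ.length ≤ encode τ)
    (hSm : ∀ τ ∈ S, c' * (1 / 2) ^ (σ.length + i) ≤ lam.real (cyl σ ∩ Hs τ i ∩ UH E h)) :
    (S.card : ℝ) * (1 / 2) ^ i * (c' - c) ^ 2 ≤ 1 := by
  have hr : ∀ V : Set (ℕ → Bool), MeasurableSet V →
      (lam.restrict (cyl σ)).real V = lam.real (cyl σ ∩ V) := by
    intro V hV
    rw [measureReal_restrict_apply hV, Set.inter_comm]
  refine second_moment (lam.restrict (cyl σ)) S (fun τ => Hs τ i)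
    (fun τ _ => measurableSet_Hs τ i) (UH E h) (measurableSet_UH h) ((1 / 2) ^ σ.length)
    ((1 / 2) ^ i) c c' ?_ (by positivity) ?_ ?_ ?_ ?_ (by positivity) hcc
  · rw [hr _ MeasurableSet.univ, Set.inter_univ, measureReal_def, lam_cyl, real_half_pow]
  · intro τ hτ
    rw [hr _ (measurableSet_Hs τ i), measureReal_def, lam_cyl_Hs (hS τ hτ), real_half_pow]
    ring
  · intro τ hτ τ' hτ' hne
    rw [hr _ ((measurableSet_Hs τ i).inter (measurableSet_Hs τ' i)), measureReal_def,
      lam_cyl_Hs_Hs (hS τ hτ) (hS τ' hτ') hne, real_half_pow]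
    ring
  · rw [hr _ (measurableSet_UH h)]
    exact hc
  · intro τ hτ
    rw [hr _ ((measurableSet_UH h).inter (measurableSet_Hs τ i))]
    have h1 : cyl σ ∩ (UH E h ∩ Hs τ i) = cyl σ ∩ Hs τ i ∩ UH E h := by
      rw [Set.inter_assoc, Set.inter_comm (UH E h)]
    rw [h1]
    refine le_trans (le_of_eq ?_) (hSm τ hτ)
    ring


/-- extend `g` by zeros up to length `k` and then by a one -/
def gk (g : List Bool) (k : ℕ) : List Bool :=
  g ++ (List.range (k - g.length)).map (fun _ => false) ++ [true]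

theorem primrec_gk (g : List Bool) : Primrec (gk g) := by
  unfold gk
  refine Primrec.list_append.comp (Primrec.list_append.comp (Primrec.const g) ?_)
    (Primrec.const [true])
  exact Primrec.list_map (Primrec.list_range.comp (Primrec.nat_sub.comp Primrec.id
    (Primrec.const _))) (Primrec.const false)

/-- a fully finitary version of duplicate-freeness -/
def ND (F : List (List Bool)) : Prop := ∀ i < F.length, ∀ j < i, F.getD i [] ≠ F.getD j []

theorem nd_iff (F : List (List Bool)) : ND F ↔ F.Nodup := by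
  constructor
  · intro h1
    rw [List.nodup_iff_getElem?_ne_getElem?]
    intro i j hij hj hc
    refine h1 j hj i hij ?_
    simp only [List.getD]
    rw [hc]
  · intro hnd i hi j hj hc
    have hj' : j < F.length := by omega
    simp only [List.getD, List.getElem?_eq_getElem hi, List.getElem?_eq_getElem hj',
      Option.getD_some] at hc
    have := (List.Nodup.getElem_inj_iff hnd).1 hc
    omega

theorem primrec_ND : PrimrecPred ND := by
  refine PP.all_lt (α := List (List Bool)) (f := fun x => x.length)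
    (p := fun x i => ∀ j < i, x.getD i [] ≠ x.getD j []) ?_ Primrec.list_length
  refine PP.all_lt (α := List (List Bool) × ℕ) (f := fun x => x.2)
    (p := fun x j => x.1.getD x.2 [] ≠ x.1.getD j []) ?_ Primrec.snd
  refine PrimrecPred.not (Primrec.eq.comp ?_ ?_)
  · exact (Primrec.list_getD []).comp (Primrec.fst.comp Primrec.fst)
      (Primrec.snd.comp Primrec.fst)
  · exact (Primrec.list_getD []).comp (Primrec.fst.comp Primrec.fst) Primrec.snd

/-- `h ⊇ gk g k` and `F` is a list of distinct strings of length `k` each of which is `bad`. -/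
def Val (E : List Bool × ℕ × List Bool → Prop) (σ g : List Bool) (i a b : ℕ) (k : ℕ)
    (h : List Bool) (F : List (List Bool)) : Prop :=
  gk g k <+: h ∧ F.Nodup ∧ ∀ τ ∈ F, τ.length = k ∧
    (a : ℝ≥0∞) / (b : ℝ≥0∞) < lam (cyl σ ∩ Hs τ i ∩ UH E h)

theorem mem_set_iff (mE : Mono3 E) (σ τ h : List Bool) (i : ℕ) :
    cyl σ ∩ Hs τ i ∩ UH E h = {Z | ∃ t, (σ = (pre Z t).take σ.length ∧
      (∀ l < i, (pre Z t).getD (Nat.pair (encode τ) l) true = false)) ∧ E (h, 2, pre Z t)} := by
  ext Z
  simp only [Set.mem_inter_iff, mem_cyl_iff, Hs, UH, Set.mem_ofPred_eq]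
  constructor
  · rintro ⟨⟨h1, h2⟩, t, ht⟩
    refine ⟨max (max t σ.length) (Nat.pair (encode τ) i), ⟨?_, ?_⟩, ?_⟩
    · rw [take_pre _ _ _ (by omega)]
      exact h1.symm
    · intro l hl
      have : Nat.pair (encode τ) l < Nat.pair (encode τ) i := Nat.pair_lt_pair_right _ hl
      rw [pre_getD _ _ _ _ (by omega)]
      exact h2 l hl
    · exact mE _ _ _ _ _ (List.prefix_refl _) (pre_prefix Z (by omega)) ht
  · rintro ⟨t, ⟨h1, h2⟩, ht⟩
    refine ⟨⟨?_, ?_⟩, t, ht⟩
    · have hl : σ.length ≤ t := by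
        have := congrArg List.length h1
        simp at this
        omega
      rw [take_pre _ _ _ hl] at h1
      exact h1.symm
    · intro l hl
      have h3 := h2 l hl
      by_cases hlt : Nat.pair (encode τ) l < t
      · rwa [pre_getD _ _ _ _ hlt] at h3
      · rw [List.getD_eq_default _ _ (by simp; omega)] at h3
        cases h3

theorem s1_bad (hE : S1 E) (mE : Mono3 E) (σ : List Bool) (i a b : ℕ) (hb : b ≠ 0) :
    S1 fun x : List Bool × List Bool =>
      (a : ℝ≥0∞) / (b : ℝ≥0∞) < lam (cyl σ ∩ Hs x.1 i ∩ UH E x.2) := by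
  have h1 : S1 fun x : (List Bool × List Bool) × List Bool => (σ = x.2.take σ.length ∧
      (∀ l < i, x.2.getD (Nat.pair (encode x.1.1) l) true = false)) ∧ E (x.1.2, 2, x.2) := by
    refine S1.and (S1.of_prim (PrimrecPred.and ?_ ?_)) (hE.comp ?_)
    · exact Primrec.eq.comp (Primrec.const σ) (Primrec.list_take.comp (Primrec.const _)
        Primrec.snd)
    · refine PP.all_lt (α := (List Bool × List Bool) × List Bool) (f := fun _ => i)
        (p := fun x l => x.2.getD (Nat.pair (encode x.1.1) l) true = false) ?_ (Primrec.const i)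
      refine Primrec.eq.comp ((Primrec.list_getD true).comp (Primrec.snd.comp Primrec.fst)
        (Primrec₂.natPair.comp (Primrec.encode.comp (Primrec.fst.comp (Primrec.fst.comp
          Primrec.fst))) Primrec.snd)) (Primrec.const false)
    · exact (Primrec.snd.comp Primrec.fst).pair ((Primrec.const 2).pair Primrec.snd)
  refine (s1_measure_gt (P := fun (x : List Bool × List Bool) ζ => (σ = ζ.take σ.length ∧
      (∀ l < i, ζ.getD (Nat.pair (encode x.1) l) true = false)) ∧ E (x.2, 2, ζ)) h1
      (a := fun _ => a) (b := fun _ => b) (Primrec.const a) (Primrec.const b)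
      (fun _ => hb)).of_eq fun x => ?_
  rw [mem_set_iff mE]

end Pool.Agent.Helper227
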