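import Pool.Agent.Helper227.Force

set_option autoImplicit false

namespace Pool.Agent.Helper227

open MeasureTheory Encodable
open scoped ENNReal

variable {E : List Bool × ℕ × List Bool → Prop}

theorem gk_length {g : List Bool} {k : ℕ} (h : g.length ≤ k) : (gk g k).length = k + 1 := by
  simp [gk]; omega

theorem prefix_gk (g : List Bool) (k : ℕ) : g <+: gk g k := by
  unfold gk
  rw [List.append_assoc]
  exact List.prefix_append _ _

theorem s1_val (hE : S1 E) (mE : Mono3 E) (σ g : List Bool) (i a b : ℕ) (hb : b ≠ 0) :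
    S1 fun x : ℕ × List Bool × List (List Bool) => Val E σ g i a b x.1 x.2.1 x.2.2 := by
  have h1 : S1 fun x : ℕ × List Bool × List (List Bool) =>
      (gk g x.1 = x.2.1.take (gk g x.1).length ∧ ND x.2.2) ∧ ∀ τ ∈ x.2.2, τ.length = x.1 ∧
        (a : ℝ≥0∞) / (b : ℝ≥0∞) < lam (cyl σ ∩ Hs τ i ∩ UH E x.2.1) := by
    refine S1.and (S1.of_prim (PrimrecPred.and ?_ (primrec_ND.comp (Primrec.snd.comp
      Primrec.snd)))) (S1.all_mem (f := fun x : ℕ × List Bool × List (List Bool) => x.2.2)
      (p := fun x τ => τ.length = x.1 ∧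
        (a : ℝ≥0∞) / (b : ℝ≥0∞) < lam (cyl σ ∩ Hs τ i ∩ UH E x.2.1)) ?_
        (Primrec.snd.comp Primrec.snd))
    · have e : Primrec fun x : ℕ × List Bool × List (List Bool) => gk g x.1 :=
        (primrec_gk g).comp Primrec.fst
      exact Primrec.eq.comp e (Primrec.list_take.comp (Primrec.list_length.comp e)
        (Primrec.fst.comp Primrec.snd))
    · refine S1.and (S1.of_prim ?_) (S1.comp
        (f := fun y : (ℕ × List Bool × List (List Bool)) × List Bool => (y.2, y.1.2.1))
        (s1_bad hE mE σ i a b hb) ?_)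
      · exact Primrec.eq.comp (Primrec.list_length.comp Primrec.snd) (Primrec.fst.comp Primrec.fst)
      · exact Primrec.snd.pair (Primrec.fst.comp (Primrec.snd.comp Primrec.fst))
  refine h1.of_eq fun x => ?_
  unfold Val
  rw [nd_iff, List.prefix_iff_eq_take, and_assoc]

/-- Extension lemma, first part. -/
theorem ext_one (hE : S1 E) (mE : Mono3 E) {T : ℕ → Bool} (hT : ¬ Computable T)
    (σ g : List Bool) (i a b : ℕ) (hb : b ≠ 0) (c c' : ℝ) (hcc : c < c')
    (hab : ((a : ℝ≥0∞) / (b : ℝ≥0∞)) = ENNReal.ofReal (c' * (1 / 2) ^ (σ.length + i)))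
    (hc0 : 0 ≤ c')
    (hg : ∀ h, g <+: h → lam.real (cyl σ ∩ UH E h) ≤ c * (1 / 2) ^ σ.length) (K0 : ℕ) :
    ∃ k ≥ K0, ∃ h, gk g k <+: h ∧ ∀ h', h <+: h' →
      lam.real (cyl σ ∩ Hs (pre T k) i ∩ UH E h') ≤ c' * (1 / 2) ^ (σ.length + i) := by
  by_contra hneg
  push Not at hneg
  have hthr : ∀ S : Set (ℕ → Bool), c' * (1 / 2) ^ (σ.length + i) < lam.real S ↔
      (a : ℝ≥0∞) / (b : ℝ≥0∞) < lam S := by
    intro S
    rw [hab, measureReal_def, ENNReal.ofReal_lt_iff_lt_toReal (by positivity) (measure_ne_top _ _)]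
  -- the property that there are always `j` bad strings
  let P : ℕ → Prop := fun j => ∀ K, ∃ k ≥ K, ∃ h F, Val E σ g i a b k h F ∧ F.length = j
  have hP0 : P 0 := by
    intro K
    exact ⟨K, le_rfl, gk g K, [], ⟨List.prefix_refl _, List.nodup_nil, by simp⟩, rfl⟩
  obtain ⟨J, hJ⟩ : ∃ J : ℕ, 1 < (J : ℝ) * ((1 / 2) ^ i * (c' - c) ^ 2) := by
    have hpos : 0 < (1 / 2 : ℝ) ^ i * (c' - c) ^ 2 := by
      have : 0 < c' - c := by linarith
      positivity
    obtain ⟨J, hJ⟩ := exists_nat_gt (1 / ((1 / 2 : ℝ) ^ i * (c' - c) ^ 2))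
    refine ⟨J, ?_⟩
    rwa [div_lt_iff₀ hpos] at hJ
  have hPJ : ¬ P J := by
    intro hP
    obtain ⟨k, hk, h, F, ⟨h1, h2, h3⟩, h4⟩ := hP σ.length
    have := card_bound (E := E) (σ := σ) (h := h) (c := c) (c' := c') (i := i) F.toFinset
      (hg h ((prefix_gk g k).trans h1)) hcc (by
        intro τ hτ
        rw [List.mem_toFinset] at hτ
        have := (h3 τ hτ).1
        exact le_trans (by omega) (Encodable.length_le_encode τ)) (by
        intro τ hτ
        rw [List.mem_toFinset] at hτ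
        exact ((hthr _).2 (h3 τ hτ).2).le)
    rw [List.toFinset_card_of_nodup h2, h4, mul_assoc] at this
    linarith
  obtain ⟨j, hj, hj1⟩ : ∃ j, P j ∧ ¬ P (j + 1) := by
    by_contra hcon
    push Not at hcon
    have : ∀ j, P j := fun j => Nat.rec hP0 (fun n ih => hcon n ih) j
    exact hPJ (this J)
  obtain ⟨K1, hK1⟩ : ∃ K1, ∀ k ≥ K1, ∀ h F, Val E σ g i a b k h F → F.length ≠ j + 1 := by
    by_contra hcon
    push Not at hcon
    apply hj1
    intro K
    obtain ⟨k, hk, h, F, hv, hF⟩ := hcon K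
    exact ⟨k, hk, h, F, hv, hF⟩
  -- every witness contains the initial segment of `T`
  have hmem : ∀ k, K0 ≤ k → K1 ≤ k → ∀ h F, Val E σ g i a b k h F → F.length = j →
      pre T k ∈ F := by
    intro k hk0 hk1 h F hv hF
    by_contra hnot
    obtain ⟨h', hh', hlt⟩ := hneg k hk0 h hv.1
    refine hK1 k hk1 h' (pre T k :: F) ⟨hv.1.trans hh', List.nodup_cons.2 ⟨hnot, hv.2.1⟩, ?_⟩
      (by simp [hF])
    intro τ hτ
    rcases List.mem_cons.1 hτ with rfl | hτ
    · exact ⟨length_pre _ _, (hthr _).1 hlt⟩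
    · refine ⟨(hv.2.2 τ hτ).1, lt_of_lt_of_le (hv.2.2 τ hτ).2 (measure_mono ?_)⟩
      exact Set.inter_subset_inter_right _ (UH_mono mE hh')
  -- find the right initial segment
  obtain ⟨m, hm⟩ : ∃ m, ∀ x, ∃ k h F, (K0 ≤ k ∧ K1 ≤ k ∧ m ≤ k ∧ x < k) ∧
      Val E σ g i a b k h F ∧ F.length = j ∧ ∀ τ ∈ F, pre T m <+: τ → τ[x]? = some (T x) := by
    by_contra hcon
    push Not at hcon
    choose x hx using hcon
    let ms : ℕ → ℕ := fun r => Nat.rec 0 (fun _ q => max q (x q) + 1) r
    have hms : ∀ r, ms (r + 1) = max (ms r) (x (ms r)) + 1 := fun r => rfl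
    have hmono : Monotone ms := monotone_nat_of_le_succ fun r => by rw [hms]; omega
    obtain ⟨k, hk, h, F, hv, hF⟩ := hj (max (max K0 K1) (ms (j + 1)))
    have hex : ∀ r, r < j + 1 → ∃ τ ∈ F, pre T (ms r) <+: τ ∧
        ¬ τ[x (ms r)]? = some (T (x (ms r))) := by
      intro r hr
      have h1 : ms (r + 1) ≤ ms (j + 1) := hmono (show r + 1 ≤ j + 1 by omega)
      rw [hms] at h1
      exact hx (ms r) k h F ⟨by omega, by omega, by omega, by omega⟩ hv hF
    choose! τ hτ using hex
    have hinj : Set.InjOn τ (Finset.range (j + 1) : Set ℕ) := by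
      intro r hr s hs hrs
      simp only [Finset.coe_range, Set.mem_Iio] at hr hs
      by_contra hne
      have key : ∀ r s, r < j + 1 → s < j + 1 → r < s → τ r = τ s → False := by
        intro r s hr hs hlt heq
        have h1 : ms (r + 1) ≤ ms s := hmono (show r + 1 ≤ s by omega)
        rw [hms] at h1
        obtain ⟨ρ, hρ⟩ := (hτ s hs).2.1
        apply (hτ r hr).2.2
        rw [heq, ← hρ, List.getElem?_append_left (by simp; omega), pre_getElem? _ _ _ (by omega)]
      rcases Nat.lt_or_ge r s with h | h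
      · exact key r s hr hs h hrs
      · exact key s r hs hr (by omega) hrs.symm
    have hcard := Finset.card_le_card_of_injOn (s := Finset.range (j + 1)) (t := F.toFinset) τ
      (fun r hr => by
        simp only [Finset.coe_range, Set.mem_Iio] at hr
        simpa using (hτ r hr).1) hinj
    rw [Finset.card_range] at hcard
    have := List.toFinset_card_le F
    omega
  -- the graph of `T` is c.e.
  apply hT
  apply computable_of_graph
  have hS : S1 fun x : ℕ × Bool => ∃ k : ℕ, ∃ h : List Bool, ∃ F : List (List Bool),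
      (((K0 ≤ k ∧ K1 ≤ k) ∧ (m ≤ k ∧ x.1 < k)) ∧ (F.length = j ∧
        ∀ τ ∈ F, (¬ pre T m = τ.take m ∨ τ[x.1]? = some x.2))) ∧ Val E σ g i a b k h F := by
    refine S1.ex (S1.ex (S1.ex (S1.and (S1.of_prim ?_) (S1.comp
      (f := fun y : ((((ℕ × Bool) × ℕ) × List Bool) × List (List Bool)) => (y.1.1.2, y.1.2, y.2))
      (s1_val hE mE σ g i a b hb) ?_))))
    · refine PrimrecPred.and (PrimrecPred.and (PrimrecPred.and ?_ ?_) (PrimrecPred.and ?_ ?_))
        (PrimrecPred.and ?_ ?_)
      · exact Primrec.nat_le.comp (Primrec.const _) (Primrec.snd.comp (Primrec.fst.comp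
          Primrec.fst))
      · exact Primrec.nat_le.comp (Primrec.const _) (Primrec.snd.comp (Primrec.fst.comp
          Primrec.fst))
      · exact Primrec.nat_le.comp (Primrec.const _) (Primrec.snd.comp (Primrec.fst.comp
          Primrec.fst))
      · exact Primrec.nat_lt.comp (Primrec.fst.comp (Primrec.fst.comp (Primrec.fst.comp
          Primrec.fst))) (Primrec.snd.comp (Primrec.fst.comp Primrec.fst))
      · exact Primrec.eq.comp (Primrec.list_length.comp Primrec.snd) (Primrec.const _)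
      · refine PP.all_mem (α := ((((ℕ × Bool) × ℕ) × List Bool) × List (List Bool)))
          (f := fun x => x.2) (p := fun x τ => ¬ pre T m = τ.take m ∨
            τ[x.1.1.1.1]? = some x.1.1.1.2) ?_ Primrec.snd
        refine PrimrecPred.or (PrimrecPred.not ?_) ?_
        · exact Primrec.eq.comp (Primrec.const _) (Primrec.list_take.comp (Primrec.const _)
            Primrec.snd)
        · refine Primrec.eq.comp (Primrec.list_getElem?.comp Primrec.snd ?_)
            (Primrec.option_some.comp ?_)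
          · exact Primrec.fst.comp (Primrec.fst.comp (Primrec.fst.comp (Primrec.fst.comp
              Primrec.fst)))
          · exact Primrec.snd.comp (Primrec.fst.comp (Primrec.fst.comp (Primrec.fst.comp
              Primrec.fst)))
    · exact (Primrec.snd.comp (Primrec.fst.comp Primrec.fst)).pair
        ((Primrec.snd.comp Primrec.fst).pair Primrec.snd)
  refine hS.of_eq ?_
  rintro ⟨x, b'⟩
  constructor
  · rintro ⟨k, h, F, ⟨⟨⟨h1, h2⟩, h3, h4⟩, h5, h6⟩, hv⟩
    have h7 := hmem k h1 h2 h F hv h5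
    rcases h6 _ h7 with h8 | h8
    · exact absurd (take_pre T k m h3).symm h8
    · rw [pre_getElem? _ _ _ h4] at h8
      simpa using h8
  · intro hx
    simp only at hx
    subst hx
    obtain ⟨k, h, F, ⟨h1, h2, h3, h4⟩, hv, h5, h6⟩ := hm x
    refine ⟨k, h, F, ⟨⟨⟨h1, h2⟩, h3, h4⟩, h5, fun τ hτ => ?_⟩, hv⟩
    by_cases hp : pre T m = τ.take m
    · right
      refine h6 τ hτ ?_
      rw [hp]
      exact List.take_prefix _ _
    · left
      exact hp

end Pool.Agent.Helper227
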