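import Pool.Agent.Helper227.Force2

set_option autoImplicit false

namespace Pool.Agent.Helper227

open MeasureTheory Encodable
open scoped ENNReal

variable {E : List Bool × ℕ × List Bool → Prop}

theorem real_cyl (σ : List Bool) : lam.real (cyl σ) = (1 / 2) ^ σ.length := by
  rw [measureReal_def, lam_cyl, real_half_pow]

/-- Extension lemma, second part. -/
theorem ext_two (mE : Mono3 E) (σ τ h : List Bool) (i : ℕ) (c' : ℝ) (hτ : σ.length ≤ encode τ)
    (hh : ∀ h', h <+: h' →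
      lam.real (cyl σ ∩ Hs τ i ∩ UH E h') ≤ c' * (1 / 2) ^ (σ.length + i)) (N : ℕ) :
    ∃ ρ, σ <+: ρ ∧ N ≤ ρ.length ∧ cyl ρ ⊆ Hs τ i ∧ ∃ g', h <+: g' ∧
      ∀ h', g' <+: h' → lam.real (cyl ρ ∩ UH E h') ≤ c' * (1 / 2) ^ ρ.length := by
  classical
  obtain ⟨L, hL⟩ : ∃ L, L = max (max N σ.length) (Nat.pair (encode τ) i) := ⟨_, rfl⟩
  let R : Finset (List Bool) := ((allStr L).filter fun ρ => σ = ρ.take σ.length ∧
    ∀ l < i, ρ.getD (Nat.pair (encode τ) l) true = false).toFinset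
  have hR : ∀ ρ, ρ ∈ R ↔ ρ.length = L ∧ σ = ρ.take σ.length ∧
      ∀ l < i, ρ.getD (Nat.pair (encode τ) l) true = false := by
    intro ρ
    simp only [R, List.mem_toFinset, List.mem_filter, mem_allStr, decide_eq_true_eq]
  have hl : ∀ l < i, Nat.pair (encode τ) l < L := by
    intro l hl
    have : Nat.pair (encode τ) l < Nat.pair (encode τ) i := Nat.pair_lt_pair_right _ hl
    omega
  have hunion : cyl σ ∩ Hs τ i = ⋃ ρ ∈ R, cyl ρ := by
    ext Z
    simp only [Set.mem_inter_iff, mem_cyl_iff, Hs, Set.mem_ofPred_eq, Set.mem_iUnion, exists_prop]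
    constructor
    · rintro ⟨h1, h2⟩
      refine ⟨pre Z L, (hR _).2 ⟨length_pre _ _, ?_, ?_⟩, by simp⟩
      · rw [take_pre _ _ _ (by omega)]; exact h1.symm
      · intro l hli
        rw [pre_getD _ _ _ _ (hl l hli)]
        exact h2 l hli
    · rintro ⟨ρ, hρ, hZ⟩
      obtain ⟨h1, h2, h3⟩ := (hR ρ).1 hρ
      rw [h1] at hZ
      subst hZ
      constructor
      · rw [take_pre _ _ _ (by omega)] at h2; exact h2.symm
      · intro l hli
        have := h3 l hli
        rwa [pre_getD _ _ _ _ (hl l hli)] at this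
  have hdis : (R : Set (List Bool)).PairwiseDisjoint cyl := by
    intro ρ hρ ρ' hρ' hne
    exact cyl_disjoint (((hR ρ).1 hρ).1.trans ((hR ρ').1 hρ').1.symm) hne
  have hcard : (R.card : ℝ) * (1 / 2) ^ L = (1 / 2) ^ (σ.length + i) := by
    have h1 : lam.real (cyl σ ∩ Hs τ i) = (1 / 2) ^ (σ.length + i) := by
      rw [measureReal_def, lam_cyl_Hs hτ, real_half_pow]
    rw [← h1, hunion, measureReal_biUnion_finset hdis (fun ρ _ => measurableSet_cyl ρ),
      Finset.sum_congr rfl (fun ρ hρ => by rw [real_cyl, ((hR ρ).1 hρ).1]), Finset.sum_const,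
      nsmul_eq_mul]
  by_contra hneg
  push Not at hneg
  have hstep : ∀ ρ ∈ R, ∀ g', h <+: g' → ∃ h', g' <+: h' ∧
      c' * (1 / 2) ^ L < lam.real (cyl ρ ∩ UH E h') := by
    intro ρ hρ g' hg'
    obtain ⟨h1, h2, h3⟩ := (hR ρ).1 hρ
    have hsub : cyl ρ ⊆ Hs τ i := by
      have : cyl ρ ⊆ ⋃ ρ ∈ R, cyl ρ := Set.subset_biUnion_of_mem (u := cyl) hρ
      rw [← hunion] at this
      exact this.trans Set.inter_subset_right
    have := hneg ρ (by rw [h2]; exact List.take_prefix _ _) (by omega) hsub g' hg'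
    rwa [h1] at this
  have hiter : ∀ R' : Finset (List Bool), R' ⊆ R → ∃ h', h <+: h' ∧ ∀ ρ ∈ R',
      c' * (1 / 2) ^ L < lam.real (cyl ρ ∩ UH E h') := by
    intro R'
    induction R' using Finset.induction_on with
    | empty => intro _; exact ⟨h, List.prefix_refl _, by simp⟩
    | insert ρ R' hnot ih =>
      intro hsub
      obtain ⟨h1, hh1, h2⟩ := ih (fun x hx => hsub (Finset.mem_insert_of_mem hx))
      obtain ⟨h3, hh3, h4⟩ := hstep ρ (hsub (Finset.mem_insert_self _ _)) h1 hh1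
      refine ⟨h3, hh1.trans hh3, fun ρ' hρ' => ?_⟩
      rcases Finset.mem_insert.1 hρ' with rfl | hρ'
      · exact h4
      · refine lt_of_lt_of_le (h2 ρ' hρ') (measureReal_mono ?_)
        exact Set.inter_subset_inter_right _ (UH_mono mE hh3)
  obtain ⟨h', hh', hall⟩ := hiter R (Finset.Subset.refl _)
  have hne : R.Nonempty := by
    by_contra hemp
    rw [Finset.not_nonempty_iff_eq_empty] at hemp
    rw [hemp] at hcard
    have : (0 : ℝ) < (1 / 2) ^ (σ.length + i) := by positivity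
    simp only [Finset.card_empty, Nat.cast_zero, zero_mul] at hcard
    linarith
  have h1 : lam.real (cyl σ ∩ Hs τ i ∩ UH E h') = ∑ ρ ∈ R, lam.real (cyl ρ ∩ UH E h') := by
    rw [hunion, Set.iUnion₂_inter]
    refine measureReal_biUnion_finset ?_ (fun ρ _ => (measurableSet_cyl ρ).inter
      (measurableSet_UH _))
    intro ρ hρ ρ' hρ' hne'
    exact (hdis hρ hρ' hne').mono Set.inter_subset_left Set.inter_subset_left
  have h2 : c' * (1 / 2) ^ (σ.length + i) < ∑ ρ ∈ R, lam.real (cyl ρ ∩ UH E h') := by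
    rw [← hcard]
    have : ∑ ρ ∈ R, c' * (1 / 2 : ℝ) ^ L < ∑ ρ ∈ R, lam.real (cyl ρ ∩ UH E h') :=
      Finset.sum_lt_sum_of_nonempty hne (fun ρ hρ => hall ρ hρ)
    rw [Finset.sum_const, nsmul_eq_mul] at this
    linarith
  have := hh h' hh'
  rw [h1] at this
  linarith

/-- The constants `1 - 2 ^ -(n+1)`. -/
noncomputable def cc (n : ℕ) : ℝ := ((2 ^ (n + 1) - 1 : ℕ) : ℝ) / ((2 ^ (n + 1) : ℕ) : ℝ)

theorem cc_eq (n : ℕ) : cc n = 1 - (1 / 2) ^ (n + 1) := by
  unfold cc
  rw [Nat.cast_sub Nat.one_le_two_pow]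
  push_cast
  rw [div_eq_iff (by positivity), sub_mul, ← mul_pow]
  norm_num

theorem cc_lt (n : ℕ) : cc n < cc (n + 1) := by
  rw [cc_eq, cc_eq, pow_succ _ (n + 1)]
  have : (0 : ℝ) < (1 / 2) ^ (n + 1) := by positivity
  linarith

theorem cc_nonneg (n : ℕ) : 0 ≤ cc n := by unfold cc; positivity

theorem cc_lt_one (n : ℕ) : cc n < 1 := by
  rw [cc_eq]
  have : (0 : ℝ) < (1 / 2) ^ (n + 1) := by positivity
  linarith

/-- forcing conditions -/
def Cond (E : List Bool × ℕ × List Bool → Prop) (n : ℕ) (g σ : List Bool) : Prop :=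
  ∀ h, g <+: h → lam.real (cyl σ ∩ UH E h) ≤ cc n * (1 / 2) ^ σ.length

/-- one step of the construction -/
theorem exists_step (hE : S1 E) (mE : Mono3 E) {T : ℕ → Bool} (hT : ¬ Computable T) (n i : ℕ)
    (g σ : List Bool) (hc : Cond E n g σ) : ∃ g' σ' k, g.length ≤ k ∧ gk g k <+: g' ∧ σ <+: σ' ∧
      n + 1 ≤ σ'.length ∧ cyl σ' ⊆ Hs (pre T k) i ∧ Cond E (n + 1) g' σ' := by
  obtain ⟨k, hk, h, hh, hall⟩ := ext_one hE mE hT σ g i (2 ^ (n + 1 + 1) - 1)
    (2 ^ (n + 1 + 1) * 2 ^ (σ.length + i)) (by positivity) (cc n) (cc (n + 1)) (cc_lt n) (by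
      unfold cc
      rw [ENNReal.ofReal_mul (by positivity), ENNReal.ofReal_div_of_pos (by positivity),
        ENNReal.ofReal_natCast, ENNReal.ofReal_natCast, ENNReal.ofReal_pow (by norm_num)]
      have : ENNReal.ofReal (1 / 2) = (2 : ℝ≥0∞)⁻¹ := by
        rw [one_div, ENNReal.ofReal_inv_of_pos (by norm_num)]
        norm_num
      rw [this, Nat.cast_mul, div_eq_mul_inv, div_eq_mul_inv, ENNReal.mul_inv, mul_assoc]
      · rw [← ENNReal.inv_pow]
        push_cast
        rfl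
      · left; positivity
      · left; exact ENNReal.natCast_ne_top _) (cc_nonneg _) hc (max g.length σ.length)
  obtain ⟨ρ, h1, h2, h3, g', h4, h5⟩ := ext_two mE σ (pre T k) h i (cc (n + 1))
    (le_trans (by rw [length_pre]; omega) (Encodable.length_le_encode (pre T k))) hall (n + 1)
  exact ⟨g', ρ, k, by omega, hh.trans h4, h1, h2, h3, h5⟩

theorem exists_limit (g : ℕ → List Bool) (hg : ∀ n, g n <+: g (n + 1))
    (hl : ∀ n, n ≤ (g n).length) : ∃ X : ℕ → Bool, ∀ n, pre X (g n).length = g n := by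
  have hmono : ∀ m n, m ≤ n → g m <+: g n := by
    intro m n h
    induction h with
    | refl => exact List.prefix_refl _
    | step _ ih => exact ih.trans (hg _)
  refine ⟨fun m => (g (m + 1)).getD m false, fun n => ?_⟩
  refine List.ext_getElem (by simp) fun m h1 h2 => ?_
  rw [getElem_pre]
  have h3 : m < (g (m + 1)).length := hl (m + 1)
  have h4 : (g (m + 1)).getD m false = (g (m + 1))[m] := by simp [List.getD, h3]
  rw [h4]
  rcases Nat.le_total (m + 1) n with h | h
  · obtain ⟨ρ, hρ⟩ := hmono _ _ h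
    simp only [← hρ]
    rw [List.getElem_append_left h3]
  · obtain ⟨ρ, hρ⟩ := hmono _ _ h
    simp only [← hρ]
    rw [List.getElem_append_left h2]

end Pool.Agent.Helper227
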