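import Pool.Agent.Helper227.Mach

set_option autoImplicit false

namespace Pool.Agent.Helper227

open MeasureTheory Encodable
open scoped ENNReal
open Nat.Partrec (Code)

/-- tokens `(m, α, σ, j)` -/
abbrev Tok := ℕ × List Bool × List Bool × ℕ

/-- exponent of the weight of a token -/
def gw (i : ℕ) (x : Tok) : ℕ := x.2.2.1.length + 2 * x.1 + i + 3

theorem primrec_gw : Primrec₂ gw := by
  unfold gw
  refine Primrec.nat_add.comp (Primrec.nat_add.comp (Primrec.nat_add.comp ?_ ?_) Primrec.fst)
    (Primrec.const 3)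
  · exact Primrec.list_length.comp (Primrec.fst.comp (Primrec.snd.comp (Primrec.snd.comp
      Primrec.snd)))
  · exact Primrec.nat_mul.comp (Primrec.const 2) (Primrec.fst.comp Primrec.snd)

/-- tokens with small code -/
def candT (s : ℕ) : List Tok := (List.range s).filterMap (decode₂ Tok)

theorem mem_candT {s : ℕ} {x : Tok} : x ∈ candT s ↔ encode x < s := by
  simp only [candT, List.mem_filterMap, List.mem_range]
  constructor
  · rintro ⟨a, ha, h⟩
    have : encode x = a := mem_decode₂.1 h
    omega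
  · intro h
    exact ⟨_, h, mem_decode₂.2 rfl⟩

theorem nodup_candT (s : ℕ) : (candT s).Nodup := by
  refine List.Nodup.filterMap ?_ List.nodup_range
  intro a a' b h h'
  rw [← mem_decode₂.1 h, ← mem_decode₂.1 h']

theorem primrec_candT : Primrec candT :=
  Primrec.listFilterMap Primrec.list_range (Primrec.decode₂.comp Primrec.snd)

/-- one step of the computation of the code `c` -/
def stT (c : Code) (r : ℕ) (y : List Bool × Tok) : Prop :=
  (c.evaln r (encode y)).isSome = true

theorem stT_mono {c : Code} {r r' : ℕ} (h : r ≤ r') {y : List Bool × Tok} (hy : stT c r y) :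
    stT c r' y := by
  unfold stT at *
  rw [Option.isSome_iff_exists] at hy ⊢
  obtain ⟨z, hz⟩ := hy
  exact ⟨z, Nat.Partrec.Code.evaln_mono h hz⟩

theorem primrec_stT : PrimrecPred fun y : (Code × ℕ) × (List Bool × Tok) =>
    stT y.1.1 y.1.2 y.2 := by
  unfold stT
  refine Primrec.eq.comp (Primrec.option_isSome.comp (Nat.Partrec.Code.primrec_evaln.comp
    (((Primrec.snd.comp Primrec.fst).pair (Primrec.fst.comp Primrec.fst)).pair
      (Primrec.encode.comp Primrec.snd)))) (Primrec.const true)

theorem exists_codeT {R : List Bool × Tok → Prop} (hR : S1 R) :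
    ∃ c : Code, ∀ x, R x ↔ ∃ r, stT c r x := by
  obtain ⟨c, hc⟩ := Nat.Partrec.Code.exists_code.1 hR.re
  refine ⟨c, fun x => ?_⟩
  have h1 : (c.eval (encode x)).Dom ↔ R x := by
    rw [hc]
    simp [Part.assert]
  rw [← h1]
  constructor
  · intro h
    obtain ⟨r, hr⟩ := Nat.Partrec.Code.evaln_complete.1 (Part.get_mem h)
    exact ⟨r, by unfold stT; rw [Option.isSome_iff_exists]; exact ⟨_, hr⟩⟩
  · rintro ⟨r, hr⟩
    unfold stT at hr
    rw [Option.isSome_iff_exists] at hr
    obtain ⟨y, hy⟩ := hr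
    exact Part.dom_iff_mem.2 ⟨y, Nat.Partrec.Code.evaln_sound hy⟩

open Classical in
/-- tokens enumerated with the finite oracle `ζ` -/
noncomputable def LT (c : Code) (ζ : List Bool) : List Tok :=
  (candT ζ.length).filter fun x => ∃ k < ζ.length + 1, stT c ζ.length (ζ.take k, x)

theorem mem_LT {c : Code} {ζ : List Bool} {x : Tok} :
    x ∈ LT c ζ ↔ encode x < ζ.length ∧ ∃ k < ζ.length + 1, stT c ζ.length (ζ.take k, x) := by
  simp only [LT, List.mem_filter, mem_candT, decide_eq_true_eq]

theorem nodup_LT (c : Code) (ζ : List Bool) : (LT c ζ).Nodup := (nodup_candT _).filter _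

theorem LT_mono {c : Code} {ζ τ : List Bool} {x : Tok} (h : ζ <+: τ) (hx : x ∈ LT c ζ) :
    x ∈ LT c τ := by
  rw [mem_LT] at hx ⊢
  obtain ⟨h1, k, hk, h2⟩ := hx
  have hl := h.length_le
  refine ⟨by omega, k, by omega, stT_mono hl ?_⟩
  have hk2 : ζ.take k = τ.take k := by
    rw [List.prefix_iff_eq_take] at h
    rw [h, List.take_take, min_eq_left (by omega)]
  rw [← hk2]; exact h2

theorem primrec_LT : Primrec₂ LT := by
  classical
  have h1 : PrimrecRel (fun (x : Tok) (y : Code × List Bool) =>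
      ∃ k < y.2.length + 1, stT y.1 y.2.length (y.2.take k, x)) := by
    refine PP.ex_lt (α := Tok × (Code × List Bool)) (f := fun y => y.2.2.length + 1)
      (p := fun y k => stT y.2.1 y.2.2.length (y.2.2.take k, y.1)) ?_
      (Primrec.succ.comp (Primrec.list_length.comp (Primrec.snd.comp Primrec.snd)))
    refine PrimrecPred.comp (f := fun z : (Tok × (Code × List Bool)) × ℕ =>
      ((z.1.2.1, z.1.2.2.length), (z.1.2.2.take z.2, z.1.1))) primrec_stT ?_
    have e1 : Primrec fun z : (Tok × (Code × List Bool)) × ℕ => z.1.2.2 :=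
      Primrec.snd.comp (Primrec.snd.comp Primrec.fst)
    exact ((Primrec.fst.comp (Primrec.snd.comp Primrec.fst)).pair (Primrec.list_length.comp
      e1)).pair ((Primrec.list_take.comp Primrec.snd e1).pair (Primrec.fst.comp Primrec.fst))
  have h2 := h1.listFilter.comp (primrec_candT.comp (Primrec.list_length.comp
    (Primrec.snd (α := Code) (β := List Bool)))) (Primrec.id (α := Code × List Bool))
  exact h2.of_eq fun y => rfl

/-- maximal exponent -/
def mxg (i : ℕ) (L : List Tok) : ℕ := L.foldr (fun x m => max (gw i x) m) 0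

theorem le_mxg {i : ℕ} {L : List Tok} {x : Tok} (h : x ∈ L) : gw i x ≤ mxg i L := by
  induction L with
  | nil => simp at h
  | cons a L ih =>
    simp only [mxg, List.foldr_cons] at ih ⊢
    rcases List.mem_cons.1 h with rfl | h
    · exact le_max_left _ _
    · exact le_trans (ih h) (le_max_right _ _)

/-- scaled weight -/
def wsum (i N : ℕ) (L : List Tok) : ℕ := L.foldr (fun x a => 2 ^ (N - gw i x) + a) 0

theorem wsum_eq {i N : ℕ} {L : List Tok} (h : ∀ x ∈ L, gw i x ≤ N) :
    (wsum i N L : ℝ) = 2 ^ N * (L.map fun x => (1 / 2 : ℝ) ^ (gw i x)).sum := by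
  induction L with
  | nil => simp [wsum]
  | cons a L ih =>
    have h1 := ih (fun x hx => h x (List.mem_cons_of_mem _ hx))
    have h2 : gw i a ≤ N := h a (List.mem_cons_self)
    simp only [wsum, List.foldr_cons, List.map_cons, List.sum_cons] at h1 ⊢
    push_cast
    rw [h1, mul_add]
    congr 1
    obtain ⟨k, rfl⟩ := Nat.exists_eq_add_of_le h2
    rw [Nat.add_sub_cancel_left, pow_add, mul_comm, ← mul_assoc, ← mul_pow]
    norm_num

/-- the weight of the list is at most `b` -/
def wok (i : ℕ) (L : List Tok) (b : ℕ) : Prop := wsum i (mxg i L) L ≤ b * 2 ^ (mxg i L)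

theorem wok_iff (i : ℕ) (L : List Tok) (b : ℕ) :
    wok i L b ↔ (L.map fun x => (1 / 2 : ℝ) ^ (gw i x)).sum ≤ b := by
  have h := wsum_eq (i := i) (N := mxg i L) (L := L) (fun x hx => le_mxg hx)
  have hp : (0 : ℝ) < 2 ^ (mxg i L) := by positivity
  unfold wok
  rw [← Nat.cast_le (α := ℝ), h]
  push_cast
  rw [mul_comm (b : ℝ), mul_le_mul_iff_right₀ hp]

theorem primrec_wok : PrimrecPred fun y : ℕ × List Tok × ℕ => wok y.1 y.2.1 y.2.2 := by
  have e1 : Primrec fun y : ℕ × List Tok => mxg y.1 y.2 := by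
    unfold mxg
    refine Primrec.list_foldr (h := fun (y : ℕ × List Tok) (p : Tok × ℕ) => max (gw y.1 p.1) p.2)
      Primrec.snd (Primrec.const 0) ?_
    exact Primrec.nat_max.comp (primrec_gw.comp (Primrec.fst.comp Primrec.fst)
      (Primrec.fst.comp Primrec.snd)) (Primrec.snd.comp Primrec.snd)
  have e2 : Primrec fun y : ℕ × ℕ × List Tok => wsum y.1 y.2.1 y.2.2 := by
    unfold wsum
    refine Primrec.list_foldr (h := fun (y : ℕ × ℕ × List Tok) (p : Tok × ℕ) =>
      2 ^ (y.2.1 - gw y.1 p.1) + p.2) (Primrec.snd.comp Primrec.snd) (Primrec.const 0) ?_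
    refine Primrec.nat_add.comp (primrec_pow.comp (Primrec.const 2) (Primrec.nat_sub.comp
      (Primrec.fst.comp (Primrec.snd.comp Primrec.fst)) (primrec_gw.comp
      (Primrec.fst.comp Primrec.fst) (Primrec.fst.comp Primrec.snd)))) (Primrec.snd.comp
      Primrec.snd)
  have e3 : Primrec fun y : ℕ × List Tok × ℕ => mxg y.1 y.2.1 :=
    e1.comp (Primrec.fst.pair (Primrec.fst.comp Primrec.snd))
  unfold wok
  refine Primrec.nat_le.comp ?_ ?_
  · exact e2.comp (Primrec.fst.pair (e3.pair (Primrec.fst.comp Primrec.snd)))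
  · exact Primrec.nat_mul.comp (Primrec.snd.comp Primrec.snd)
      (primrec_pow.comp (Primrec.const 2) e3)

end Pool.Agent.Helper227
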