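import Pool.Agent.Helper227.Game1

set_option autoImplicit false

namespace Pool.Agent.Helper227

open MeasureTheory Encodable
open scoped ENNReal
open Nat.Partrec (Code)

/-- code part of an index -/
def cOf (m : ℕ) : Code := Denumerable.ofNat Code (Nat.unpair m).1

/-- the trimmed operator with index `m` -/
def RM (i m : ℕ) (ζ : List Bool) (x : Tok) : Prop :=
  ∃ k < ζ.length + 1, x ∈ LT (cOf m) (ζ.take k) ∧ wok i (LT (cOf m) (ζ.take k)) (Nat.unpair m).2

theorem RM_mono {i m : ℕ} {ζ τ : List Bool} {x : Tok} (h : ζ <+: τ) (hx : RM i m ζ x) :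
    RM i m τ x := by
  obtain ⟨k, hk, h2⟩ := hx
  have hl := h.length_le
  have hk2 : ζ.take k = τ.take k := by
    rw [List.prefix_iff_eq_take] at h
    rw [h, List.take_take, min_eq_left (by omega)]
  rw [hk2] at h2
  exact ⟨k, by omega, h2⟩

theorem primrec_cOf : Primrec cOf :=
  (Primrec.ofNat Code).comp (Primrec.fst.comp Primrec.unpair)

/-- auxiliary predicate -/
def RM1 (z : (ℕ × Code × ℕ) × (List Bool × Tok)) : Prop :=
  z.2.2 ∈ LT z.1.2.1 z.2.1 ∧ wok z.1.1 (LT z.1.2.1 z.2.1) z.1.2.2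

theorem primrec_RM1 : PrimrecPred RM1 := by
  have e : Primrec fun z : (ℕ × Code × ℕ) × (List Bool × Tok) => LT z.1.2.1 z.2.1 :=
    primrec_LT.comp (Primrec.fst.comp (Primrec.snd.comp Primrec.fst))
      (Primrec.fst.comp Primrec.snd)
  have h1 : PrimrecPred fun z : (ℕ × Code × ℕ) × (List Bool × Tok) =>
      ∃ y ∈ LT z.1.2.1 z.2.1, y = z.2.2 :=
    PP.ex_mem (α := (ℕ × Code × ℕ) × (List Bool × Tok))
      (f := fun z => LT z.1.2.1 z.2.1) (p := fun z y => y = z.2.2)
      (Primrec.eq.comp Primrec.snd (Primrec.snd.comp (Primrec.snd.comp Primrec.fst))) e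
  have h2 : PrimrecPred fun z : (ℕ × Code × ℕ) × (List Bool × Tok) =>
      wok z.1.1 (LT z.1.2.1 z.2.1) z.1.2.2 :=
    PrimrecPred.comp (f := fun z : (ℕ × Code × ℕ) × (List Bool × Tok) =>
      (z.1.1, LT z.1.2.1 z.2.1, z.1.2.2)) primrec_wok ((Primrec.fst.comp Primrec.fst).pair
      (e.pair (Primrec.snd.comp (Primrec.snd.comp Primrec.fst))))
  have h3 := h1.and h2
  refine h3.of_eq fun z => ?_
  unfold RM1
  refine and_congr ?_ Iff.rfl
  constructor
  · rintro ⟨y, hy, rfl⟩; exact hy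
  · intro hy; exact ⟨_, hy, rfl⟩

theorem primrec_RM : PrimrecPred fun z : (ℕ × ℕ) × (List Bool × Tok) => RM z.1.1 z.1.2 z.2.1 z.2.2 := by
  have h : PrimrecPred fun z : (ℕ × ℕ) × (List Bool × Tok) => ∃ k < z.2.1.length + 1,
      RM1 ((z.1.1, cOf z.1.2, (Nat.unpair z.1.2).2), (z.2.1.take k, z.2.2)) := by
    refine PP.ex_lt (α := (ℕ × ℕ) × (List Bool × Tok)) (f := fun z => z.2.1.length + 1)
      (p := fun z k => RM1 ((z.1.1, cOf z.1.2, (Nat.unpair z.1.2).2), (z.2.1.take k, z.2.2))) ?_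
      (Primrec.succ.comp (Primrec.list_length.comp (Primrec.fst.comp Primrec.snd)))
    refine PrimrecPred.comp (f := fun z : ((ℕ × ℕ) × (List Bool × Tok)) × ℕ =>
      ((z.1.1.1, cOf z.1.1.2, (Nat.unpair z.1.1.2).2), (z.1.2.1.take z.2, z.1.2.2))) primrec_RM1 ?_
    have a1 : Primrec fun z : ((ℕ × ℕ) × (List Bool × Tok)) × ℕ => z.1.1.2 :=
      Primrec.snd.comp (Primrec.fst.comp Primrec.fst)
    refine Primrec.pair (Primrec.pair (Primrec.fst.comp (Primrec.fst.comp Primrec.fst))
      (Primrec.pair (primrec_cOf.comp a1) (Primrec.snd.comp (Primrec.unpair.comp a1)))) ?_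
    exact Primrec.pair (Primrec.list_take.comp Primrec.snd (Primrec.fst.comp (Primrec.snd.comp
      Primrec.fst))) (Primrec.snd.comp (Primrec.snd.comp Primrec.fst))
  exact h.of_eq fun z => Iff.rfl

/-- parameters `(i, m, α, σ)` -/
abbrev Par := ℕ × ℕ × List Bool × List Bool

/-- the first `j` tokens have been paid -/
def Run (p : Par) (ζ : List Bool) (j : ℕ) : Prop :=
  j ≤ ζ.length ∧ ∀ j' < j, RM p.1 p.2.1 ζ (p.2.1, p.2.2.1, p.2.2.2, j')

theorem Run_mono {p : Par} {ζ τ : List Bool} {j : ℕ} (h : ζ <+: τ) (hx : Run p ζ j) :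
    Run p τ j := ⟨hx.1.trans h.length_le, fun j' hj => RM_mono h (hx.2 j' hj)⟩

theorem Run_anti {p : Par} {ζ : List Bool} {j j' : ℕ} (h : j' ≤ j) (hx : Run p ζ j) :
    Run p ζ j' := ⟨h.trans hx.1, fun k hk => hx.2 k (by omega)⟩

theorem primrec_Run : PrimrecPred fun z : Par × (List Bool × ℕ) => Run z.1 z.2.1 z.2.2 := by
  unfold Run
  refine PrimrecPred.and ?_ ?_
  · exact Primrec.nat_le.comp (Primrec.snd.comp Primrec.snd) (Primrec.list_length.comp
      (Primrec.fst.comp Primrec.snd))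
  · refine PP.all_lt (α := Par × (List Bool × ℕ)) (f := fun z => z.2.2)
      (p := fun z j' => RM z.1.1 z.1.2.1 z.2.1 (z.1.2.1, z.1.2.2.1, z.1.2.2.2, j')) ?_
      (Primrec.snd.comp Primrec.snd)
    refine PrimrecPred.comp (f := fun z : (Par × (List Bool × ℕ)) × ℕ => ((z.1.1.1, z.1.1.2.1),
      (z.1.2.1, (z.1.1.2.1, z.1.1.2.2.1, z.1.1.2.2.2, z.2)))) primrec_RM ?_
    have a1 : Primrec fun z : (Par × (List Bool × ℕ)) × ℕ => z.1.1.1 :=
      Primrec.fst.comp (Primrec.fst.comp Primrec.fst)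
    have a2 : Primrec fun z : (Par × (List Bool × ℕ)) × ℕ => z.1.1.2 :=
      Primrec.snd.comp (Primrec.fst.comp Primrec.fst)
    exact (a1.pair (Primrec.fst.comp a2)).pair ((Primrec.fst.comp (Primrec.snd.comp
      Primrec.fst)).pair ((Primrec.fst.comp a2).pair ((Primrec.fst.comp (Primrec.snd.comp a2)).pair
        ((Primrec.snd.comp (Primrec.snd.comp a2)).pair Primrec.snd))))

open Classical in
/-- the list of the strings counted at stage `t` -/
noncomputable def cl (p : Par) (t : ℕ) : List (List Bool) :=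
  (List.range t).flatMap fun j => (allStr t).filter fun ζ => Run p ζ (j + 1)

/-- `(α, σ)` is not released at stage `t` -/
def NR (p : Par) (t : ℕ) : Prop := (cl p t).length < 2 ^ t

theorem primrec_NR : PrimrecPred fun z : Par × ℕ => NR z.1 z.2 := by
  classical
  have e : Primrec fun z : Par × ℕ => cl z.1 z.2 := by
    unfold cl
    refine Primrec.list_flatMap (Primrec.list_range.comp Primrec.snd) ?_
    have h1 : PrimrecRel (fun (ζ : List Bool) (y : (Par × ℕ) × ℕ) => Run y.1.1 ζ (y.2 + 1)) := by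
      refine PrimrecPred.comp (f := fun z : List Bool × ((Par × ℕ) × ℕ) =>
        (z.2.1.1, (z.1, z.2.2 + 1))) primrec_Run ?_
      exact (Primrec.fst.comp (Primrec.fst.comp Primrec.snd)).pair (Primrec.fst.pair
        (Primrec.succ.comp (Primrec.snd.comp Primrec.snd)))
    have h2 := h1.listFilter.comp (primrec_allStr.comp (Primrec.snd.comp
      (Primrec.fst (α := Par × ℕ) (β := ℕ)))) (Primrec.id (α := (Par × ℕ) × ℕ))
    exact h2.of_eq fun y => rfl
  unfold NR
  exact Primrec.nat_lt.comp (Primrec.list_length.comp e) (primrec_pow.comp (Primrec.const 2)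
    Primrec.snd)

/-- clopen sets of oracles -/
def Gt (p : Par) (t j : ℕ) : Set (ℕ → Bool) := {Y | Run p (pre Y t) j}

theorem measurableSet_Gt (p : Par) (t j : ℕ) : MeasurableSet (Gt p t j) :=
  measurableSet_pre t (fun ζ => Run p ζ j)

theorem Gt_mono (p : Par) {t t' : ℕ} (h : t ≤ t') (j : ℕ) : Gt p t j ⊆ Gt p t' j :=
  fun Y hY => Run_mono (pre_prefix Y h) hY

theorem Gt_empty (p : Par) {t j : ℕ} (h : t < j) : Gt p t j = ∅ := by
  ext Y
  simp only [Gt, Set.mem_ofPred_eq, Set.mem_empty_iff_false, iff_false]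
  intro hY
  have := hY.1
  rw [length_pre] at this
  omega

theorem sum_map_range (n : ℕ) (f : ℕ → ℕ) :
    ((List.range n).map f).sum = ∑ j ∈ Finset.range n, f j := by
  induction n with
  | zero => simp
  | succ n ih => rw [List.range_succ, List.map_append, List.sum_append, ih,
      Finset.sum_range_succ]; simp

theorem lam_Gt_sum (p : Par) (t : ℕ) :
    ∑ j ∈ Finset.range t, lam (Gt p t (j + 1)) = (cl p t).length * (1 / 2) ^ t := by
  classical
  have h1 : ∀ j, lam (Gt p t (j + 1)) =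
      (((allStr t).filter fun ζ => Run p ζ (j + 1)).length : ℝ≥0∞) * (1 / 2) ^ t := by
    intro j
    have h2 := lam_finset (((allStr t).filter fun ζ => Run p ζ (j + 1)).toFinset) t
      (by intro σ hσ; simp only [List.mem_toFinset, List.mem_filter, mem_allStr] at hσ; exact hσ.1)
    rw [List.toFinset_card_of_nodup ((nodup_allStr t).filter _)] at h2
    rw [← h2]
    congr 1
    ext Y
    simp [Gt, mem_allStr]
  simp only [h1]
  rw [← Finset.sum_mul]
  congr 1
  unfold cl
  rw [List.length_flatMap, sum_map_range, Nat.cast_sum]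

end Pool.Agent.Helper227
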