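import Pool.Agent.Helper227.Game2

set_option autoImplicit false

namespace Pool.Agent.Helper227

open MeasureTheory Encodable
open scoped ENNReal
open Nat.Partrec (Code)

theorem lam_Gt_sum_le {p : Par} {t : ℕ} (h : NR p t) (J : ℕ) :
    ∑ j ∈ Finset.range J, lam (Gt p t (j + 1)) ≤ 1 := by
  have h1 : ∑ j ∈ Finset.range t, lam (Gt p t (j + 1)) ≤ 1 := by
    rw [lam_Gt_sum]
    have h2 : ((cl p t).length : ℝ≥0∞) ≤ 2 ^ t := by
      have h3 : (cl p t).length ≤ 2 ^ t := le_of_lt h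
      exact_mod_cast h3
    calc ((cl p t).length : ℝ≥0∞) * (1 / 2) ^ t ≤ 2 ^ t * (1 / 2) ^ t := mul_le_mul_left h2 _
      _ = 1 := by
        rw [← mul_pow, one_div, ENNReal.mul_inv_cancel (by norm_num) (by norm_num), one_pow]
  refine le_trans ?_ h1
  rcases Nat.le_total J t with h2 | h2
  · exact Finset.sum_le_sum_of_subset (Finset.range_mono h2)
  · refine le_of_eq (Finset.sum_subset (Finset.range_mono h2) ?_).symm
    intro j _ hj
    rw [Finset.mem_range, not_lt] at hj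
    rw [Gt_empty p (by omega), measure_empty]

/-- oracles that have been asked for the token number `j` before `(α, σ)` is released -/
def Gs (p : Par) (j : ℕ) : Set (ℕ → Bool) := {Y | ∃ t, NR p t ∧ Run p (pre Y t) j}

/-- finite stage of `Gs` -/
def Hs' (p : Par) (j t : ℕ) : Set (ℕ → Bool) :=
  {Y | ∃ t' < t + 1, NR p t' ∧ Run p (pre Y t') (j + 1)}

theorem Hs'_mono (p : Par) (j : ℕ) : Monotone (Hs' p j) := by
  rintro t t' h Y ⟨s, hs, h2⟩
  exact ⟨s, by omega, h2⟩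

theorem Gs_eq (p : Par) (j : ℕ) : Gs p (j + 1) = ⋃ t, Hs' p j t := by
  ext Y
  simp only [Gs, Hs', Set.mem_ofPred_eq, Set.mem_iUnion]
  constructor
  · rintro ⟨t, h⟩; exact ⟨t, t, Nat.lt_succ_self _, h⟩
  · rintro ⟨_, t, _, h⟩; exact ⟨t, h⟩

theorem measurableSet_Gs (p : Par) (j : ℕ) : MeasurableSet (Gs p j) := by
  have : Gs p j = ⋃ t, {Y : ℕ → Bool | NR p t ∧ Run p (pre Y t) j} := by
    ext Y; simp [Gs]
  rw [this]
  exact MeasurableSet.iUnion fun t => measurableSet_pre t (fun ζ => NR p t ∧ Run p ζ j)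

theorem sum_Gs_le (p : Par) (J : ℕ) : ∑ j ∈ Finset.range J, lam (Gs p (j + 1)) ≤ 1 := by
  classical
  have h1 : ∀ j, lam (Gs p (j + 1)) = ⨆ t, lam (Hs' p j t) := fun j => by
    rw [Gs_eq, (Hs'_mono p j).measure_iUnion]
  simp only [h1]
  rw [ENNReal.finsetSum_iSup_of_monotone (fun j t t' h => measure_mono (Hs'_mono p j h))]
  refine iSup_le fun t => ?_
  by_cases hex : ∃ t' < t + 1, NR p t'
  · -- the largest such stage
    obtain ⟨s, hs, hmax⟩ : ∃ s, (s < t + 1 ∧ NR p s) ∧ ∀ s', s' < t + 1 → NR p s' → s' ≤ s := by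
      have hne : ((Finset.range (t + 1)).filter fun s => NR p s).Nonempty := by
        obtain ⟨s, h1, h2⟩ := hex
        exact ⟨s, Finset.mem_filter.2 ⟨Finset.mem_range.2 h1, h2⟩⟩
      refine ⟨((Finset.range (t + 1)).filter fun s => NR p s).max' hne, ?_, fun s' h1 h2 =>
        Finset.le_max' _ s' (Finset.mem_filter.2 ⟨Finset.mem_range.2 h1, h2⟩)⟩
      have := Finset.max'_mem _ hne
      rw [Finset.mem_filter, Finset.mem_range] at this
      exact this
    refine le_trans (Finset.sum_le_sum fun j _ => measure_mono ?_) (lam_Gt_sum_le hs.2 J)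
    rintro Y ⟨s', h2, h3, h4⟩
    exact Run_mono (pre_prefix Y (hmax s' h2 h3)) h4
  · have : ∀ j, Hs' p j t = ∅ := by
      intro j
      ext Y
      simp only [Hs', Set.mem_ofPred_eq, Set.mem_empty_iff_false, iff_false]
      rintro ⟨s, h2, h3, _⟩
      exact hex ⟨s, h2, h3⟩
    simp [this]

theorem tsum_Gs_le (p : Par) : ∑' j, lam (Gs p (j + 1)) ≤ 1 :=
  ENNReal.tsum_le_of_sum_range_le fun J => sum_Gs_le p J

/-- oracles which pay for the first `j` tokens -/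
def Ginf (p : Par) (j : ℕ) : Set (ℕ → Bool) := {Y | ∃ t, Run p (pre Y t) j}

theorem measurableSet_Ginf (p : Par) (j : ℕ) : MeasurableSet (Ginf p j) :=
  measurableSet_open (fun _ ζ => Run p ζ j)

theorem one_le_sum_Ginf {p : Par} {t : ℕ} (h : ¬ NR p t) :
    1 ≤ ∑ j ∈ Finset.range t, lam (Ginf p (j + 1)) := by
  have h1 : (2 : ℝ≥0∞) ^ t ≤ (cl p t).length := by
    have h3 : 2 ^ t ≤ (cl p t).length := not_lt.1 h
    exact_mod_cast h3
  calc (1 : ℝ≥0∞) = 2 ^ t * (1 / 2) ^ t := by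
        rw [← mul_pow, one_div, ENNReal.mul_inv_cancel (by norm_num) (by norm_num), one_pow]
    _ ≤ (cl p t).length * (1 / 2) ^ t := mul_le_mul_left h1 _
    _ = ∑ j ∈ Finset.range t, lam (Gt p t (j + 1)) := (lam_Gt_sum p t).symm
    _ ≤ ∑ j ∈ Finset.range t, lam (Ginf p (j + 1)) :=
        Finset.sum_le_sum fun j _ => measure_mono fun Y hY => ⟨t, hY⟩

/-- tokens paid by `Y` -/
def RMY (i m : ℕ) (Y : ℕ → Bool) (x : Tok) : Prop := ∃ t, RM i m (pre Y t) x

theorem RMY_weight {i m : ℕ} {Y : ℕ → Bool} (F : Finset Tok) (hF : ∀ x ∈ F, RMY i m Y x) :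
    ∑ x ∈ F, (1 / 2 : ℝ≥0∞) ^ (gw i x) ≤ (Nat.unpair m).2 := by
  classical
  have hL : ∀ (L : List Tok), L.Nodup → wok i L (Nat.unpair m).2 → (∀ x ∈ F, x ∈ L) →
      ∑ x ∈ F, (1 / 2 : ℝ≥0∞) ^ (gw i x) ≤ (Nat.unpair m).2 := by
    intro L hnd hw hsub
    rw [wok_iff] at hw
    have h1 : ∑ x ∈ F, (1 / 2 : ℝ) ^ (gw i x) ≤ (Nat.unpair m).2 := by
      refine le_trans ?_ hw
      have h2 : (L.map fun x => (1 / 2 : ℝ) ^ (gw i x)).sum = ∑ x ∈ L.toFinset, (1 / 2 : ℝ) ^ (gw i x) := by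
        rw [List.sum_toFinset _ hnd]
      rw [h2]
      refine Finset.sum_le_sum_of_subset_of_nonneg (fun x hx => ?_) (fun _ _ _ => by positivity)
      rw [List.mem_toFinset]
      exact hsub x hx
    have h3 : ∑ x ∈ F, (1 / 2 : ℝ≥0∞) ^ (gw i x) =
        ENNReal.ofReal (∑ x ∈ F, (1 / 2 : ℝ) ^ (gw i x)) := by
      rw [ENNReal.ofReal_sum_of_nonneg (fun x _ => by positivity)]
      refine Finset.sum_congr rfl fun x _ => ?_
      rw [ENNReal.ofReal_pow (by norm_num), one_div, one_div, ENNReal.ofReal_inv_of_pos (by norm_num)]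
      norm_num
    rw [h3]
    refine le_trans (ENNReal.ofReal_le_ofReal h1) ?_
    rw [ENNReal.ofReal_natCast]
  rcases F.eq_empty_or_nonempty with rfl | hne
  · simp
  -- choose the witnesses
  have h1 : ∀ x ∈ F, ∃ k, x ∈ LT (cOf m) (pre Y k) ∧ wok i (LT (cOf m) (pre Y k)) (Nat.unpair m).2 := by
    intro x hx
    obtain ⟨t, k, hk, h2⟩ := hF x hx
    rw [length_pre] at hk
    rw [take_pre _ _ _ (by omega)] at h2
    exact ⟨k, h2⟩
  choose! k hk using h1
  obtain ⟨x0, hx0, hmax⟩ := F.exists_max_image k hne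
  refine hL (LT (cOf m) (pre Y (k x0))) (nodup_LT _ _) (hk x0 hx0).2 fun x hx => ?_
  exact LT_mono (pre_prefix Y (hmax x hx)) (hk x hx).1

theorem RMY_of_Run {p : Par} {Y : ℕ → Bool} {j : ℕ} (h : Y ∈ Ginf p (j + 1)) :
    RMY p.1 p.2.1 Y (p.2.1, p.2.2.1, p.2.2.2, j) := by
  obtain ⟨t, ht⟩ := h
  exact ⟨t, ht.2 j (Nat.lt_succ_self _)⟩

end Pool.Agent.Helper227
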