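import Pool.Agent.Helper227.Game3

set_option autoImplicit false

namespace Pool.Agent.Helper227

open MeasureTheory Encodable
open scoped ENNReal

/-- `U(σ) = 0^n` -/
def Out (U : List Bool →. List Bool) (σ : List Bool) (n : ℕ) : Prop :=
  List.replicate n false ∈ U σ

variable {U : List Bool →. List Bool}

theorem Out.unique {σ : List Bool} {n n' : ℕ} (h : Out U σ n) (h' : Out U σ n') : n = n' := by
  have := congrArg List.length (Part.mem_unique h h')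
  simpa using this

theorem Out.dom {σ : List Bool} {n : ℕ} (h : Out U σ n) : (U σ).Dom :=
  Part.dom_iff_mem.2 ⟨_, h⟩

/-- the set of oracles asked the token `(m, A ↾ n, σ, j)` where `U(σ) = 0^n` -/
def Ga (U : List Bool →. List Bool) (i : ℕ) (A : ℕ → Bool) (m : ℕ) (σ : List Bool) (j : ℕ) :
    Set (ℕ → Bool) := {Y | ∃ n, Out U σ n ∧ Y ∈ Gs (i, m, pre A n, σ) j}

theorem measurableSet_Ga (i : ℕ) (A : ℕ → Bool) (m : ℕ) (σ : List Bool) (j : ℕ) :
    MeasurableSet (Ga U i A m σ j) := by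
  have : Ga U i A m σ j = ⋃ n, ⋃ _ : Out U σ n, Gs (i, m, pre A n, σ) j := by
    ext Y; simp [Ga]
  rw [this]
  exact MeasurableSet.iUnion fun n => MeasurableSet.iUnion fun _ => measurableSet_Gs _ _

/-- contribution of a token -/
noncomputable def aw (U : List Bool →. List Bool) (i : ℕ) (A : ℕ → Bool) (m : ℕ) (σ : List Bool)
    (j : ℕ) (Y : ℕ → Bool) : ℝ≥0∞ :=
  (Ga U i A m σ j).indicator (fun _ => (1 / 2 : ℝ≥0∞) ^ (σ.length + 2 * m + i + 3)) Y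

/-- total payment for the index `m` -/
noncomputable def fm (U : List Bool →. List Bool) (i : ℕ) (A : ℕ → Bool) (m : ℕ)
    (Y : ℕ → Bool) : ℝ≥0∞ := ∑' q : List Bool × ℕ, aw U i A m q.1 (q.2 + 1) Y

theorem kraft_tsum (hU : IsMachine U) :
    ∑' σ : List Bool, (⨆ _ : ∃ n, Out U σ n, (1 / 2 : ℝ≥0∞) ^ σ.length) ≤ 1 := by
  refine tsum_le_of_finset (P := fun σ => ∃ n, Out U σ n) fun F hF => ?_
  refine kraft (P := fun σ => (U σ).Dom) hU.2 F fun σ hσ => ?_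
  obtain ⟨n, hn⟩ := hF σ hσ
  exact hn.dom

theorem lintegral_aw (i : ℕ) (A : ℕ → Bool) (m : ℕ) (σ : List Bool) (j : ℕ) :
    ∫⁻ Y, aw U i A m σ j Y ∂lam =
      (1 / 2 : ℝ≥0∞) ^ (σ.length + 2 * m + i + 3) * lam (Ga U i A m σ j) := by
  unfold aw
  rw [lintegral_indicator_const (measurableSet_Ga i A m σ j)]

theorem tsum_Ga_le (i : ℕ) (A : ℕ → Bool) (m : ℕ) (σ : List Bool) :
    ∑' j, (1 / 2 : ℝ≥0∞) ^ (σ.length + 2 * m + i + 3) * lam (Ga U i A m σ (j + 1)) ≤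
      (1 / 2) ^ (2 * m + i + 3) * ⨆ _ : ∃ n, Out U σ n, (1 / 2 : ℝ≥0∞) ^ σ.length := by
  rw [ENNReal.tsum_mul_left]
  by_cases h : ∃ n, Out U σ n
  · obtain ⟨n, hn⟩ := h
    have h1 : ∀ j, Ga U i A m σ j = Gs (i, m, pre A n, σ) j := by
      intro j
      ext Y
      simp only [Ga, Set.mem_ofPred_eq]
      constructor
      · rintro ⟨n', h1, h2⟩
        rw [hn.unique h1]; exact h2
      · intro h; exact ⟨n, hn, h⟩
    simp only [h1]
    have h2 : (⨆ _ : ∃ n, Out U σ n, (1 / 2 : ℝ≥0∞) ^ σ.length) = (1 / 2) ^ σ.length := by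
      rw [ciSup_pos ⟨n, hn⟩]
    rw [h2]
    calc (1 / 2 : ℝ≥0∞) ^ (σ.length + 2 * m + i + 3) * ∑' j, lam (Gs (i, m, pre A n, σ) (j + 1))
        ≤ (1 / 2 : ℝ≥0∞) ^ (σ.length + 2 * m + i + 3) * 1 := mul_le_mul_right (tsum_Gs_le _) _
      _ = (1 / 2) ^ (2 * m + i + 3) * (1 / 2) ^ σ.length := by
        rw [mul_one, ← pow_add]; congr 1; ring
  · have h1 : ∀ j, Ga U i A m σ j = ∅ := by
      intro j
      ext Y
      simp only [Ga, Set.mem_ofPred_eq, Set.mem_empty_iff_false, iff_false]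
      rintro ⟨n, h1, _⟩
      exact h ⟨n, h1⟩
    simp [h1]

theorem lintegral_fm_le (hU : IsMachine U) (i : ℕ) (A : ℕ → Bool) (m : ℕ) :
    ∫⁻ Y, fm U i A m Y ∂lam ≤ (1 / 2) ^ (2 * m + i + 3) := by
  unfold fm
  rw [lintegral_tsum fun q => ?_]
  · simp only [lintegral_aw]
    rw [ENNReal.tsum_prod (f := fun σ j => (1 / 2 : ℝ≥0∞) ^ (σ.length + 2 * m + i + 3) *
      lam (Ga U i A m σ (j + 1)))]
    refine le_trans (ENNReal.tsum_le_tsum fun σ => tsum_Ga_le i A m σ) ?_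
    rw [ENNReal.tsum_mul_left]
    calc (1 / 2 : ℝ≥0∞) ^ (2 * m + i + 3) *
          ∑' σ : List Bool, (⨆ _ : ∃ n, Out U σ n, (1 / 2 : ℝ≥0∞) ^ σ.length)
        ≤ (1 / 2) ^ (2 * m + i + 3) * 1 := mul_le_mul_right (kraft_tsum hU) _
      _ = _ := mul_one _
  · exact (measurable_const.indicator (measurableSet_Ga i A m q.1 (q.2 + 1))).aemeasurable

theorem measurable_fm (i : ℕ) (A : ℕ → Bool) (m : ℕ) : Measurable (fm U i A m) := by
  unfold fm
  exact Measurable.tsum fun q =>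
    measurable_const.indicator (measurableSet_Ga i A m q.1 (q.2 + 1))

theorem lam_fm_gt (hU : IsMachine U) (i : ℕ) (A : ℕ → Bool) (m : ℕ) :
    lam {Y | (1 / 2) ^ (m + 2) < fm U i A m Y} ≤ (1 / 2) ^ (i + m + 1) := by
  have h1 := mul_meas_ge_le_lintegral (μ := lam) (measurable_fm (U := U) i A m) ((1 / 2) ^ (m + 2))
  have h2 := le_trans h1 (lintegral_fm_le hU i A m)
  have h3 : (2 : ℝ≥0∞) ^ (m + 2) * (1 / 2) ^ (m + 2) = 1 := by
    rw [← mul_pow, one_div, ENNReal.mul_inv_cancel (by norm_num) (by norm_num), one_pow]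
  have h4 : (2 : ℝ≥0∞) ^ (m + 2) * (1 / 2) ^ (2 * m + i + 3) = (1 / 2) ^ (i + m + 1) := by
    have h5 : (1 / 2 : ℝ≥0∞) ^ (2 * m + i + 3) = (1 / 2) ^ (m + 2) * (1 / 2) ^ (i + m + 1) := by
      rw [← pow_add]; congr 1; ring
    rw [h5, ← mul_assoc, h3, one_mul]
  calc lam {Y | (1 / 2) ^ (m + 2) < fm U i A m Y}
      ≤ lam {Y | (1 / 2) ^ (m + 2) ≤ fm U i A m Y} :=
        measure_mono fun Y (hY : (1 / 2) ^ (m + 2) < fm U i A m Y) => le_of_lt hY
    _ = 2 ^ (m + 2) * ((1 / 2) ^ (m + 2) * lam {Y | (1 / 2) ^ (m + 2) ≤ fm U i A m Y}) := by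
        rw [← mul_assoc, h3, one_mul]
    _ ≤ 2 ^ (m + 2) * (1 / 2) ^ (2 * m + i + 3) := mul_le_mul_right h2 _
    _ = _ := h4

end Pool.Agent.Helper227
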