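import Pool.Agent.Helper227.Game4

set_option autoImplicit false

namespace Pool.Agent.Helper227

open MeasureTheory Encodable
open scoped ENNReal

variable {U : List Bool →. List Bool}

/-- the list has large weight -/
def heavy (i m : ℕ) (F : List Tok) : Prop :=
  2 ^ (mxg i F) < wsum i (mxg i F) F * 2 ^ (m + 2)

theorem heavy_iff (i m : ℕ) (F : List Tok) :
    heavy i m F ↔ (1 / 2 : ℝ) ^ (m + 2) < (F.map fun x => (1 / 2 : ℝ) ^ (gw i x)).sum := by
  have h := wsum_eq (i := i) (N := mxg i F) (L := F) (fun x hx => le_mxg hx)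
  have hp : (0 : ℝ) < 2 ^ (mxg i F) := by positivity
  have h3 : (2 : ℝ) ^ (m + 2) * (1 / 2) ^ (m + 2) = 1 := by
    rw [← mul_pow]; norm_num
  unfold heavy
  rw [← Nat.cast_lt (α := ℝ)]
  push_cast [h]
  generalize (F.map fun x => (1 / 2 : ℝ) ^ (gw i x)).sum = S
  generalize (2 : ℝ) ^ (mxg i F) = K at hp ⊢
  generalize hG : (2 : ℝ) ^ (m + 2) = G at h3 ⊢
  have hG0 : 0 < G := by rw [← hG]; positivity
  generalize (1 / 2 : ℝ) ^ (m + 2) = g at h3 ⊢
  constructor
  · intro h1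
    have h2 : K * 1 < K * (S * G) := by rw [mul_one, ← mul_assoc]; exact h1
    have h4 : 1 < S * G := lt_of_mul_lt_mul_left h2 hp.le
    rw [← h3, mul_comm G g] at h4
    exact lt_of_mul_lt_mul_right h4 hG0.le
  · intro h1
    have h4 : g * G < S * G := mul_lt_mul_of_pos_right h1 hG0
    rw [mul_comm g G, h3] at h4
    calc K = K * 1 := (mul_one K).symm
      _ < K * (S * G) := mul_lt_mul_of_pos_left h4 hp
      _ = K * S * G := (mul_assoc _ _ _).symm

theorem ofReal_sum_gw (i : ℕ) (F : Finset Tok) : ∑ x ∈ F, (1 / 2 : ℝ≥0∞) ^ (gw i x) =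
    ENNReal.ofReal (∑ x ∈ F, (1 / 2 : ℝ) ^ (gw i x)) := by
  rw [ENNReal.ofReal_sum_of_nonneg (fun x _ => by positivity)]
  refine Finset.sum_congr rfl fun x _ => ?_
  rw [ENNReal.ofReal_pow (by norm_num), one_div, one_div, ENNReal.ofReal_inv_of_pos (by norm_num)]
  norm_num

theorem half_pow_ofReal (n : ℕ) : (1 / 2 : ℝ≥0∞) ^ n = ENNReal.ofReal ((1 / 2 : ℝ) ^ n) := by
  rw [ENNReal.ofReal_pow (by norm_num), one_div, one_div, ENNReal.ofReal_inv_of_pos (by norm_num)]
  norm_num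

theorem heavy_iff' (i m : ℕ) (F : List Tok) (hF : F.Nodup) :
    heavy i m F ↔ (1 / 2 : ℝ≥0∞) ^ (m + 2) < ∑ x ∈ F.toFinset, (1 / 2 : ℝ≥0∞) ^ (gw i x) := by
  rw [heavy_iff, ofReal_sum_gw, half_pow_ofReal,
    ENNReal.ofReal_lt_ofReal_iff_of_nonneg (by positivity), List.sum_toFinset _ hF]

theorem primrec_heavy : PrimrecPred fun y : ℕ × ℕ × List Tok => heavy y.1 y.2.1 y.2.2 := by
  have e1 : Primrec fun y : ℕ × List Tok => mxg y.1 y.2 := by
    unfold mxg
    refine Primrec.list_foldr (h := fun (y : ℕ × List Tok) (p : Tok × ℕ) => max (gw y.1 p.1) p.2)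
      Primrec.snd (Primrec.const 0) ?_
    exact Primrec.nat_max.comp (primrec_gw.comp (Primrec.fst.comp Primrec.fst)
      (Primrec.fst.comp Primrec.snd)) (Primrec.snd.comp Primrec.snd)
  have e2 : Primrec fun y : ℕ × ℕ × List Tok => wsum y.1 y.2.1 y.2.2 := by
    unfold wsum
    refine Primrec.list_foldr (h := fun (y : ℕ × ℕ × List Tok) (p : Tok × ℕ) =>
      2 ^ (y.2.1 - gw y.1 p.1) + p.2) (Primrec.snd.comp Primrec.snd) (Primrec.const 0) ?_
    refine Primrec.nat_add.comp (primrec_pow.comp (Primrec.const 2) (Primrec.nat_sub.comp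
      (Primrec.fst.comp (Primrec.snd.comp Primrec.fst)) (primrec_gw.comp
      (Primrec.fst.comp Primrec.fst) (Primrec.fst.comp Primrec.snd)))) (Primrec.snd.comp
      Primrec.snd)
  have e3 : Primrec fun y : ℕ × ℕ × List Tok => mxg y.1 y.2.2 :=
    e1.comp (Primrec.fst.pair (Primrec.snd.comp Primrec.snd))
  have h : PrimrecPred fun y : ℕ × ℕ × List Tok =>
      2 ^ (mxg y.1 y.2.2) < wsum y.1 (mxg y.1 y.2.2) y.2.2 * 2 ^ (y.2.1 + 2) := by
    refine Primrec.nat_lt.comp (primrec_pow.comp (Primrec.const 2) e3) (Primrec.nat_mul.comp ?_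
      (primrec_pow.comp (Primrec.const 2) (Primrec.nat_add.comp (Primrec.fst.comp Primrec.snd)
        (Primrec.const 2))))
    exact e2.comp (Primrec.fst.pair (e3.pair (Primrec.snd.comp Primrec.snd)))
  exact h.of_eq fun y => Iff.rfl

/-- duplicate-free lists of tokens -/
def NDT (F : List Tok) : Prop := ∀ a < F.length, ∀ b < a, ¬ F[a]? = F[b]?

theorem ndt_iff (F : List Tok) : NDT F ↔ F.Nodup := by
  constructor
  · intro h1
    rw [List.nodup_iff_getElem?_ne_getElem?]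
    intro a b hab hb hc
    exact h1 b hb a hab hc.symm
  · intro hnd a ha b hb hc
    rw [List.nodup_iff_getElem?_ne_getElem?] at hnd
    exact hnd b a hb ha hc.symm

theorem primrec_NDT : PrimrecPred NDT := by
  have h : PrimrecPred fun F : List Tok => ∀ a < F.length, ∀ b < a, ¬ F[a]? = F[b]? := by
    refine PP.all_lt (α := List Tok) (f := fun x => x.length)
      (p := fun x a => ∀ b < a, ¬ x[a]? = x[b]?) ?_ Primrec.list_length
    refine PP.all_lt (α := List Tok × ℕ) (f := fun x => x.2)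
      (p := fun x b => ¬ x.1[x.2]? = x.1[b]?) ?_ Primrec.snd
    refine PrimrecPred.not (Primrec.eq.comp ?_ ?_)
    · exact Primrec.list_getElem?.comp (Primrec.fst.comp Primrec.fst)
        (Primrec.snd.comp Primrec.fst)
    · exact Primrec.list_getElem?.comp (Primrec.fst.comp Primrec.fst) Primrec.snd
  exact h.of_eq fun F => Iff.rfl

/-- condition on a token in the test -/
def TC (U : List Bool →. List Bool) (y : ((List Bool × ℕ × List Bool) × ℕ) × Tok) : Prop :=
  (y.2.1 = y.1.2 ∧ (y.2.2.1.length ≤ y.1.1.1.length ∧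
    y.1.1.1.take y.2.2.1.length = y.2.2.1)) ∧
  (Out U y.2.2.2.1 y.2.2.1.length ∧ ∃ t : ℕ, t ≤ y.1.1.2.2.length ∧
    (NR (y.1.1.2.1, y.1.2, y.2.2.1, y.2.2.2.1) t ∧
      Run (y.1.1.2.1, y.1.2, y.2.2.1, y.2.2.2.1) (y.1.1.2.2.take t) (y.2.2.2.2 + 1)))

/-- the test -/
def EV (U : List Bool →. List Bool) (y : List Bool × ℕ × List Bool) : Prop :=
  ∃ m : ℕ, ∃ F : List Tok, (NDT F ∧ heavy y.2.1 m F) ∧ ∀ x ∈ F, TC U ((y, m), x)

theorem s1_TC (hU : Partrec U) : S1 (TC U) := by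
  have a1 : Primrec fun y : ((List Bool × ℕ × List Bool) × ℕ) × Tok => y.2.2.1 :=
    Primrec.fst.comp (Primrec.snd.comp Primrec.snd)
  have a2 : Primrec fun y : ((List Bool × ℕ × List Bool) × ℕ) × Tok => y.2.2.2.1 :=
    Primrec.fst.comp (Primrec.snd.comp (Primrec.snd.comp Primrec.snd))
  have a3 : Primrec fun y : ((List Bool × ℕ × List Bool) × ℕ) × Tok => y.1.1.1 :=
    Primrec.fst.comp (Primrec.fst.comp Primrec.fst)
  have a4 : Primrec fun y : ((List Bool × ℕ × List Bool) × ℕ) × Tok => y.1.2 :=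
    Primrec.snd.comp Primrec.fst
  have a5 : Primrec fun y : ((List Bool × ℕ × List Bool) × ℕ) × Tok => y.1.1.2.1 :=
    Primrec.fst.comp (Primrec.snd.comp (Primrec.fst.comp Primrec.fst))
  have a6 : Primrec fun y : ((List Bool × ℕ × List Bool) × ℕ) × Tok => y.1.1.2.2 :=
    Primrec.snd.comp (Primrec.snd.comp (Primrec.fst.comp Primrec.fst))
  have a7 : Primrec fun y : ((List Bool × ℕ × List Bool) × ℕ) × Tok =>
      ((y.1.1.2.1, y.1.2, y.2.2.1, y.2.2.2.1) : Par) := a5.pair (a4.pair (a1.pair a2))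
  have a8 : Primrec fun y : ((List Bool × ℕ × List Bool) × ℕ) × Tok => y.2.2.2.2 :=
    Primrec.snd.comp (Primrec.snd.comp (Primrec.snd.comp Primrec.snd))
  have h1 : S1 fun y : ((List Bool × ℕ × List Bool) × ℕ) × Tok =>
      (y.2.1 = y.1.2 ∧ (y.2.2.1.length ≤ y.1.1.1.length ∧
        y.1.1.1.take y.2.2.1.length = y.2.2.1)) := by
    refine S1.of_prim (PrimrecPred.and ?_ (PrimrecPred.and ?_ ?_))
    · exact Primrec.eq.comp (Primrec.fst.comp Primrec.snd) a4
    · exact Primrec.nat_le.comp (Primrec.list_length.comp a1) (Primrec.list_length.comp a3)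
    · exact Primrec.eq.comp (Primrec.list_take.comp (Primrec.list_length.comp a1) a3) a1
  have h2 : S1 fun y : ((List Bool × ℕ × List Bool) × ℕ) × Tok => Out U y.2.2.2.1 y.2.2.1.length :=
    S1.comp (f := fun y : ((List Bool × ℕ × List Bool) × ℕ) × Tok => (y.2.2.2.1, y.2.2.1.length))
      (s1_output hU) (a2.pair (Primrec.list_length.comp a1))
  have h3 : S1 fun y : ((List Bool × ℕ × List Bool) × ℕ) × Tok => ∃ t : ℕ,
      t ≤ y.1.1.2.2.length ∧ (NR (y.1.1.2.1, y.1.2, y.2.2.1, y.2.2.2.1) t ∧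
      Run (y.1.1.2.1, y.1.2, y.2.2.1, y.2.2.2.1) (y.1.1.2.2.take t) (y.2.2.2.2 + 1)) := by
    refine S1.ex (S1.of_prim (PrimrecPred.and ?_ (PrimrecPred.and ?_ ?_)))
    · exact Primrec.nat_le.comp Primrec.snd (Primrec.list_length.comp (a6.comp Primrec.fst))
    · exact PrimrecPred.comp (f := fun z : (((List Bool × ℕ × List Bool) × ℕ) × Tok) × ℕ =>
        ((((z.1.1.1.2.1, z.1.1.2, z.1.2.2.1, z.1.2.2.2.1) : Par)), z.2)) primrec_NR
        ((a7.comp Primrec.fst).pair Primrec.snd)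
    · exact PrimrecPred.comp (f := fun z : (((List Bool × ℕ × List Bool) × ℕ) × Tok) × ℕ =>
        ((((z.1.1.1.2.1, z.1.1.2, z.1.2.2.1, z.1.2.2.2.1) : Par)),
          (z.1.1.1.2.2.take z.2, z.1.2.2.2.2 + 1))) primrec_Run
        ((a7.comp Primrec.fst).pair ((Primrec.list_take.comp Primrec.snd
          (a6.comp Primrec.fst)).pair (Primrec.succ.comp (a8.comp Primrec.fst))))
  exact (h1.and (h2.and h3)).of_eq fun y => Iff.rfl

theorem s1_EV (hU : Partrec U) : S1 (EV U) := by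
  have h : S1 fun y : List Bool × ℕ × List Bool =>
      ∃ m : ℕ, ∃ F : List Tok, (NDT F ∧ heavy y.2.1 m F) ∧ ∀ x ∈ F, TC U ((y, m), x) := by
    refine S1.ex (S1.ex (S1.and (S1.of_prim (PrimrecPred.and (primrec_NDT.comp Primrec.snd) ?_))
      (S1.all_mem (f := fun z : ((List Bool × ℕ × List Bool) × ℕ) × List Tok => z.2)
        (p := fun z x => TC U (z.1, x)) ?_ Primrec.snd)))
    · exact PrimrecPred.comp (f := fun z : ((List Bool × ℕ × List Bool) × ℕ) × List Tok =>
        (z.1.1.2.1, z.1.2, z.2)) primrec_heavy ((Primrec.fst.comp (Primrec.snd.comp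
        (Primrec.fst.comp Primrec.fst))).pair ((Primrec.snd.comp Primrec.fst).pair Primrec.snd))
    · exact S1.comp (f := fun z : (((List Bool × ℕ × List Bool) × ℕ) × List Tok) × Tok =>
        (z.1.1, z.2)) (s1_TC hU) ((Primrec.fst.comp Primrec.fst).pair Primrec.snd)
  exact h.of_eq fun y => Iff.rfl

end Pool.Agent.Helper227
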