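import Pool.Agent.Helper227.Game5

set_option autoImplicit false

namespace Pool.Agent.Helper227

open MeasureTheory Encodable
open scoped ENNReal

variable {U : List Bool →. List Bool}

theorem aw_of_mem {i : ℕ} {A : ℕ → Bool} {m : ℕ} {σ : List Bool} {j : ℕ} {Y : ℕ → Bool}
    (h : Y ∈ Ga U i A m σ j) : aw U i A m σ j Y = (1 / 2 : ℝ≥0∞) ^ (σ.length + 2 * m + i + 3) := by
  unfold aw
  rw [Set.indicator_of_mem h]

theorem aw_of_not_mem {i : ℕ} {A : ℕ → Bool} {m : ℕ} {σ : List Bool} {j : ℕ} {Y : ℕ → Bool}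
    (h : Y ∉ Ga U i A m σ j) : aw U i A m σ j Y = 0 := by
  unfold aw
  rw [Set.indicator_of_notMem h]

theorem UE_EV_iff (i : ℕ) (A Y : ℕ → Bool) :
    Y ∈ UE (EV U) A i ↔ ∃ m, (1 / 2) ^ (m + 2) < fm U i A m Y := by
  classical
  constructor
  · rintro ⟨s, t0, m, F, ⟨hnd, hh⟩, hF⟩
    refine ⟨m, ?_⟩
    rw [ndt_iff] at hnd
    rw [heavy_iff' _ _ _ hnd] at hh
    refine lt_of_lt_of_le hh ?_
    have hx : ∀ x ∈ F, x.1 = m ∧ Out U x.2.2.1 x.2.1.length ∧ pre A x.2.1.length = x.2.1 ∧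
        Y ∈ Ga U i A m x.2.2.1 (x.2.2.2 + 1) := by
      intro x hx
      obtain ⟨⟨h1, h2, h3⟩, h4, t, h5, h6, h7⟩ := hF x hx
      simp only [length_pre] at h1 h2 h3 h4 h5 h6 h7
      rw [take_pre _ _ _ h2] at h3
      rw [take_pre _ _ _ h5] at h7
      refine ⟨h1, h4, h3, x.2.1.length, h4, ?_⟩
      rw [h3]
      exact ⟨t, h6, h7⟩
    have h1 : ∑ x ∈ F.toFinset, (1 / 2 : ℝ≥0∞) ^ (gw i x) =
        ∑ x ∈ F.toFinset, (fun q : List Bool × ℕ => aw U i A m q.1 (q.2 + 1) Y) (x.2.2.1, x.2.2.2) := by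
      refine Finset.sum_congr rfl fun x hxF => ?_
      rw [List.mem_toFinset] at hxF
      obtain ⟨h1, h2, h3, h4⟩ := hx x hxF
      simp only
      rw [aw_of_mem h4, gw, h1]
    have hinj : Set.InjOn (fun x : Tok => (x.2.2.1, x.2.2.2)) (F.toFinset : Set Tok) := by
      intro x hxF y hyF hxy
      rw [Finset.mem_coe, List.mem_toFinset] at hxF hyF
      obtain ⟨h1, h2, h3, h4⟩ := hx x hxF
      obtain ⟨h1', h2', h3', h4'⟩ := hx y hyF
      simp only [Prod.mk.injEq] at hxy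
      have h5 : x.2.1.length = y.2.1.length := by
        rw [hxy.1] at h2
        exact h2.unique h2'
      have h6 : x.2.1 = y.2.1 := by rw [← h3, ← h3', h5]
      exact Prod.ext (h1.trans h1'.symm) (Prod.ext h6 (Prod.ext hxy.1 hxy.2))
    rw [h1, ← Finset.sum_image (f := fun q : List Bool × ℕ => aw U i A m q.1 (q.2 + 1) Y) hinj]
    exact ENNReal.sum_le_tsum _
  · rintro ⟨m, hm⟩
    unfold fm at hm
    rw [ENNReal.tsum_eq_iSup_sum] at hm
    obtain ⟨Q, hQ⟩ := lt_iSup_iff.1 hm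
    let Q' := Q.filter fun q => Y ∈ Ga U i A m q.1 (q.2 + 1)
    have hQ' : (1 / 2 : ℝ≥0∞) ^ (m + 2) < ∑ q ∈ Q', aw U i A m q.1 (q.2 + 1) Y := by
      refine lt_of_lt_of_eq hQ ?_
      rw [Finset.sum_filter]
      refine Finset.sum_congr rfl fun q _ => ?_
      by_cases h : Y ∈ Ga U i A m q.1 (q.2 + 1)
      · rw [if_pos h]
      · rw [if_neg h, aw_of_not_mem h]
    have hw : ∀ q ∈ Q', ∃ n t, Out U q.1 n ∧ NR (i, m, pre A n, q.1) t ∧
        Run (i, m, pre A n, q.1) (pre Y t) (q.2 + 1) := by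
      intro q hq
      obtain ⟨n, h1, t, h2⟩ := (Finset.mem_filter.1 hq).2
      exact ⟨n, t, h1, h2⟩
    choose! n t hnt using hw
    let ψ : List Bool × ℕ → Tok := fun q => (m, pre A (n q), q.1, q.2)
    have hψ : Function.Injective ψ := by
      intro q q' h
      simp only [ψ, Prod.mk.injEq] at h
      exact Prod.ext h.2.2.1 h.2.2.2
    refine ⟨Q'.sup n, Q'.sup t, m, (Q'.image ψ).toList, ⟨?_, ?_⟩, ?_⟩
    · rw [ndt_iff]; exact Finset.nodup_toList _
    · rw [heavy_iff' _ _ _ (Finset.nodup_toList _), Finset.toList_toFinset,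
        Finset.sum_image (fun x _ y _ h => hψ h)]
      refine lt_of_lt_of_eq hQ' (Finset.sum_congr rfl fun q hq => ?_)
      rw [aw_of_mem (Finset.mem_filter.1 hq).2]
      rfl
    · intro x hx
      rw [Finset.mem_toList, Finset.mem_image] at hx
      obtain ⟨q, hq, rfl⟩ := hx
      obtain ⟨h1, h2, h3⟩ := hnt q hq
      have hns : n q ≤ Q'.sup n := Finset.le_sup (f := n) hq
      have hts : t q ≤ Q'.sup t := Finset.le_sup (f := t) hq
      simp only [TC, ψ, length_pre]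
      refine ⟨⟨trivial, hns, take_pre _ _ _ hns⟩, h1, t q, hts, h2, ?_⟩
      rw [take_pre _ _ _ hts]
      exact h3

theorem lam_UE_EV_le (hU : IsMachine U) (A : ℕ → Bool) (i : ℕ) :
    lam (UE (EV U) A i) ≤ (1 / 2) ^ i := by
  have h : UE (EV U) A i = ⋃ m, {Y | (1 / 2) ^ (m + 2) < fm U i A m Y} := by
    ext Y
    rw [UE_EV_iff, Set.mem_iUnion]
    rfl
  rw [h]
  refine le_trans (measure_iUnion_le _) ?_
  rw [← tsum_half_pow i]
  exact ENNReal.tsum_le_tsum fun m => lam_fm_gt hU i A m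

theorem isMLTest_EV (hU : IsMachine U) (A : ℕ → Bool) : IsMLTest A (UE (EV U) A) :=
  isMLTest_of_E (s1_EV hU.1) (lam_UE_EV_le hU A)

/-- the token `x` is asked with the oracles `A`, `Y` -/
def SA (U : List Bool →. List Bool) (i : ℕ) (A Y : ℕ → Bool) (x : Tok) : Prop :=
  Out U x.2.2.1 x.2.1.length ∧ pre A x.2.1.length = x.2.1 ∧
    Y ∈ Gs (i, x.1, x.2.1, x.2.2.1) x.2.2.2

/-- operator enumerating the asked tokens -/
def ES (U : List Bool →. List Bool) (i : ℕ) (y : List Bool × Tok) : Prop :=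
  (2 * y.2.2.1.length ≤ y.1.length ∧ rd y.1 (fun k => 2 * k) y.2.2.1.length = y.2.2.1) ∧
  (Out U y.2.2.2.1 y.2.2.1.length ∧ ∃ t : ℕ, 2 * t ≤ y.1.length ∧
    (NR (i, y.2.1, y.2.2.1, y.2.2.2.1) t ∧
      Run (i, y.2.1, y.2.2.1, y.2.2.2.1) (rd y.1 (fun k => 2 * k + 1) t) y.2.2.2.2))

theorem s1_ES (hU : Partrec U) (i : ℕ) : S1 (ES U i) := by
  have a1 : Primrec fun y : List Bool × Tok => y.2.2.1 :=
    Primrec.fst.comp (Primrec.snd.comp Primrec.snd)
  have a2 : Primrec fun y : List Bool × Tok => y.2.2.2.1 :=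
    Primrec.fst.comp (Primrec.snd.comp (Primrec.snd.comp Primrec.snd))
  have a7 : Primrec fun y : List Bool × Tok => ((i, y.2.1, y.2.2.1, y.2.2.2.1) : Par) :=
    (Primrec.const i).pair ((Primrec.fst.comp Primrec.snd).pair (a1.pair a2))
  have a8 : Primrec fun y : List Bool × Tok => y.2.2.2.2 :=
    Primrec.snd.comp (Primrec.snd.comp (Primrec.snd.comp Primrec.snd))
  have h1 : S1 fun y : List Bool × Tok => (2 * y.2.2.1.length ≤ y.1.length ∧
      rd y.1 (fun k => 2 * k) y.2.2.1.length = y.2.2.1) := by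
    refine S1.of_prim (PrimrecPred.and ?_ ?_)
    · exact Primrec.nat_le.comp (Primrec.nat_mul.comp (Primrec.const 2)
        (Primrec.list_length.comp a1)) (Primrec.list_length.comp Primrec.fst)
    · exact Primrec.eq.comp (primrec_rd (g := fun _ k => 2 * k) Primrec.fst
        (Primrec.nat_mul.comp (Primrec.const 2) Primrec.snd) (Primrec.list_length.comp a1)) a1
  have h2 : S1 fun y : List Bool × Tok => Out U y.2.2.2.1 y.2.2.1.length :=
    S1.comp (f := fun y : List Bool × Tok => (y.2.2.2.1, y.2.2.1.length))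
      (s1_output hU) (a2.pair (Primrec.list_length.comp a1))
  have h3 : S1 fun y : List Bool × Tok => ∃ t : ℕ, 2 * t ≤ y.1.length ∧
      (NR (i, y.2.1, y.2.2.1, y.2.2.2.1) t ∧
      Run (i, y.2.1, y.2.2.1, y.2.2.2.1) (rd y.1 (fun k => 2 * k + 1) t) y.2.2.2.2) := by
    refine S1.ex (S1.of_prim (PrimrecPred.and ?_ (PrimrecPred.and ?_ ?_)))
    · exact Primrec.nat_le.comp (Primrec.nat_mul.comp (Primrec.const 2) Primrec.snd)
        (Primrec.list_length.comp (Primrec.fst.comp Primrec.fst))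
    · exact PrimrecPred.comp (f := fun z : (List Bool × Tok) × ℕ =>
        ((((i, z.1.2.1, z.1.2.2.1, z.1.2.2.2.1) : Par)), z.2)) primrec_NR
        ((a7.comp Primrec.fst).pair Primrec.snd)
    · exact PrimrecPred.comp (f := fun z : (List Bool × Tok) × ℕ =>
        ((((i, z.1.2.1, z.1.2.2.1, z.1.2.2.2.1) : Par)),
          (rd z.1.1 (fun k => 2 * k + 1) z.2, z.1.2.2.2.2))) primrec_Run
        ((a7.comp Primrec.fst).pair ((primrec_rd (g := fun _ k => 2 * k + 1)
          (Primrec.fst.comp Primrec.fst)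
          (Primrec.succ.comp (Primrec.nat_mul.comp (Primrec.const 2) Primrec.snd))
          Primrec.snd).pair (a8.comp Primrec.fst)))
  exact (h1.and (h2.and h3)).of_eq fun y => Iff.rfl

theorem ES_iff (i : ℕ) (A Y : ℕ → Bool) (x : Tok) :
    (∃ s, ES U i (pre (join A Y) s, x)) ↔ SA U i A Y x := by
  have key1 : ∀ s n, 2 * n ≤ s → rd (pre (join A Y) s) (fun k => 2 * k) n = pre A n := by
    intro s n hs
    rw [rd_pre (fun k hk => by omega)]
    simp only [join_even]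
  have key2 : ∀ s n, 2 * n ≤ s → rd (pre (join A Y) s) (fun k => 2 * k + 1) n = pre Y n := by
    intro s n hs
    rw [rd_pre (fun k hk => by omega)]
    simp only [join_odd]
  constructor
  · rintro ⟨s, ⟨h1, h2⟩, h3, t, h4, h5, h6⟩
    simp only [length_pre] at h1 h2 h3 h4 h5 h6
    rw [key1 _ _ h1] at h2
    rw [key2 _ _ h4] at h6
    exact ⟨h3, h2, t, h5, h6⟩
  · rintro ⟨h3, h2, t, h5, h6⟩
    refine ⟨2 * x.2.1.length + 2 * t, ⟨?_, ?_⟩, h3, t, ?_, h5, ?_⟩
    · simp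
    · simp only
      rw [key1 _ _ (by omega)]; exact h2
    · simp
    · simp only
      rw [key2 _ _ (by omega)]; exact h6

end Pool.Agent.Helper227
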