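import Pool.Agent.Helper227.Game6

set_option autoImplicit false

namespace Pool.Agent.Helper227

open MeasureTheory Encodable
open scoped ENNReal

variable {U : List Bool →. List Bool}

theorem tsum_aw_zero_le (hU : IsMachine U) (i : ℕ) (A : ℕ → Bool) (m : ℕ) (Y : ℕ → Bool) :
    ∑' σ : List Bool, aw U i A m σ 0 Y ≤ (1 / 2) ^ (2 * m + i + 3) := by
  have h1 : ∀ σ, aw U i A m σ 0 Y ≤ (1 / 2) ^ (2 * m + i + 3) *
      ⨆ _ : ∃ n, Out U σ n, (1 / 2 : ℝ≥0∞) ^ σ.length := by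
    intro σ
    by_cases h : Y ∈ Ga U i A m σ 0
    · rw [aw_of_mem h]
      obtain ⟨n, hn, _⟩ := h
      rw [ciSup_pos ⟨n, hn⟩, ← pow_add]
      refine le_of_eq ?_
      congr 1; ring
    · rw [aw_of_not_mem h]; exact bot_le
  refine le_trans (ENNReal.tsum_le_tsum h1) ?_
  rw [ENNReal.tsum_mul_left]
  calc (1 / 2 : ℝ≥0∞) ^ (2 * m + i + 3) *
        ∑' σ : List Bool, (⨆ _ : ∃ n, Out U σ n, (1 / 2 : ℝ≥0∞) ^ σ.length)
      ≤ (1 / 2) ^ (2 * m + i + 3) * 1 := mul_le_mul_right (kraft_tsum hU) _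
    _ = _ := mul_one _

theorem SA_weight (hU : IsMachine U) {i : ℕ} {A Y : ℕ → Bool} (hY : Y ∉ UE (EV U) A i)
    (F : Finset Tok) (hF : ∀ x ∈ F, SA U i A Y x) :
    ∑ x ∈ F, (1 / 2 : ℝ≥0∞) ^ (gw i x) ≤ 1 := by
  classical
  have hfm : ∀ m, fm U i A m Y ≤ (1 / 2) ^ (m + 2) := by
    intro m
    by_contra h
    exact hY ((UE_EV_iff i A Y).2 ⟨m, not_le.1 h⟩)
  have hx : ∀ x ∈ F, Y ∈ Ga U i A x.1 x.2.2.1 x.2.2.2 := by
    intro x hxF
    obtain ⟨h1, h2, h3⟩ := hF x hxF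
    refine ⟨x.2.1.length, h1, ?_⟩
    rw [h2]
    exact h3
  have h1 : ∑ x ∈ F, (1 / 2 : ℝ≥0∞) ^ (gw i x) =
      ∑ x ∈ F, (fun q : ℕ × List Bool × ℕ => aw U i A q.1 q.2.1 q.2.2 Y)
        (x.1, x.2.2.1, x.2.2.2) := by
    refine Finset.sum_congr rfl fun x hxF => ?_
    simp only
    rw [aw_of_mem (hx x hxF), gw]
  have hinj : Set.InjOn (fun x : Tok => (x.1, x.2.2.1, x.2.2.2)) (F : Set Tok) := by
    intro x hxF y hyF hxy
    obtain ⟨h1, h2, h3⟩ := hF x hxF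
    obtain ⟨h1', h2', h3'⟩ := hF y hyF
    simp only [Prod.mk.injEq] at hxy
    have h5 : x.2.1.length = y.2.1.length := by
      rw [hxy.2.1] at h1
      exact h1.unique h1'
    have h6 : x.2.1 = y.2.1 := by rw [← h2, ← h2', h5]
    exact Prod.ext hxy.1 (Prod.ext h6 (Prod.ext hxy.2.1 hxy.2.2))
  rw [h1, ← Finset.sum_image (f := fun q : ℕ × List Bool × ℕ => aw U i A q.1 q.2.1 q.2.2 Y) hinj]
  refine le_trans (ENNReal.sum_le_tsum _) ?_
  rw [show (∑' x : ℕ × List Bool × ℕ, (fun q : ℕ × List Bool × ℕ => aw U i A q.1 q.2.1 q.2.2 Y) x) =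
      ∑' m, ∑' q : List Bool × ℕ, aw U i A m q.1 q.2 Y from
    ENNReal.tsum_prod (f := fun (m : ℕ) (q : List Bool × ℕ) => aw U i A m q.1 q.2 Y)]
  have h2 : ∀ m, ∑' q : List Bool × ℕ, aw U i A m q.1 q.2 Y ≤ (1 / 2) ^ (0 + m + 1) := by
    intro m
    rw [ENNReal.tsum_prod (f := fun σ j => aw U i A m σ j Y)]
    have h3 : ∀ σ : List Bool, ∑' j, aw U i A m σ j Y =
        aw U i A m σ 0 Y + ∑' j, aw U i A m σ (j + 1) Y := fun σ =>
      tsum_eq_zero_add' ENNReal.summable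
    simp only [h3]
    rw [ENNReal.tsum_add]
    have h4 : ∑' σ : List Bool, ∑' j, aw U i A m σ (j + 1) Y = fm U i A m Y := by
      unfold fm
      rw [ENNReal.tsum_prod (f := fun σ j => aw U i A m σ (j + 1) Y)]
    rw [h4]
    refine le_trans (add_le_add (tsum_aw_zero_le hU i A m Y) (hfm m)) ?_
    have h5 : (1 / 2 : ℝ≥0∞) ^ (2 * m + i + 3) ≤ (1 / 2) ^ (m + 2) :=
      pow_le_pow_of_le_one bot_le (by rw [one_div]; exact ENNReal.inv_le_one.2 (by norm_num))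
        (by omega)
    refine le_trans (add_le_add h5 le_rfl) ?_
    rw [← two_mul, zero_add, show m + 2 = (m + 1) + 1 by ring, pow_succ _ (m + 1), mul_comm,
      mul_assoc]
    refine le_of_eq ?_
    rw [one_div, ENNReal.inv_mul_cancel (by norm_num) (by norm_num), mul_one]
  refine le_trans (ENNReal.tsum_le_tsum h2) ?_
  rw [tsum_half_pow 0, pow_zero]

/-- the weight of the released pairs is finite -/
theorem released_weight (i m : ℕ) (F : Finset (List Bool × List Bool))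
    (hF : ∀ q ∈ F, ∃ t, ¬ NR (i, m, q.1, q.2) t) :
    ∑ q ∈ F, (1 / 2 : ℝ≥0∞) ^ q.2.length ≤ 2 ^ (2 * m + i + 3) * (Nat.unpair m).2 := by
  classical
  choose! t ht using hF
  obtain ⟨T, hT⟩ : ∃ T, T = F.sup t := ⟨_, rfl⟩
  have h1 : ∀ q ∈ F, (1 / 2 : ℝ≥0∞) ^ q.2.length ≤ 2 ^ (2 * m + i + 3) *
      ∑ j ∈ Finset.range T, (1 / 2 : ℝ≥0∞) ^ (q.2.length + 2 * m + i + 3) *
        lam (Ginf (i, m, q.1, q.2) (j + 1)) := by
    intro q hq
    have h2 := one_le_sum_Ginf (ht q hq)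
    have h3 : ∑ j ∈ Finset.range (t q), lam (Ginf (i, m, q.1, q.2) (j + 1)) ≤
        ∑ j ∈ Finset.range T, lam (Ginf (i, m, q.1, q.2) (j + 1)) :=
      Finset.sum_le_sum_of_subset (Finset.range_mono (by rw [hT]; exact Finset.le_sup hq))
    rw [← Finset.mul_sum, ← mul_assoc]
    have h4 : (2 : ℝ≥0∞) ^ (2 * m + i + 3) * (1 / 2) ^ (q.2.length + 2 * m + i + 3) =
        (1 / 2) ^ q.2.length := by
      have h5 : (1 / 2 : ℝ≥0∞) ^ (q.2.length + 2 * m + i + 3) =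
          (1 / 2) ^ (2 * m + i + 3) * (1 / 2) ^ q.2.length := by
        rw [← pow_add]; congr 1; ring
      rw [h5, ← mul_assoc, ← mul_pow, one_div, ENNReal.mul_inv_cancel (by norm_num) (by norm_num),
        one_pow, one_mul]
    rw [h4]
    calc (1 / 2 : ℝ≥0∞) ^ q.2.length = (1 / 2) ^ q.2.length * 1 := (mul_one _).symm
      _ ≤ _ := mul_le_mul_right (le_trans h2 h3) _
  refine le_trans (Finset.sum_le_sum h1) ?_
  rw [← Finset.mul_sum]
  refine mul_le_mul_right ?_ _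
  -- integrate the payments
  have h2 : ∑ q ∈ F, ∑ j ∈ Finset.range T, (1 / 2 : ℝ≥0∞) ^ (q.2.length + 2 * m + i + 3) *
        lam (Ginf (i, m, q.1, q.2) (j + 1)) =
      ∫⁻ Y, ∑ q ∈ F, ∑ j ∈ Finset.range T, (Ginf (i, m, q.1, q.2) (j + 1)).indicator
        (fun _ => (1 / 2 : ℝ≥0∞) ^ (q.2.length + 2 * m + i + 3)) Y ∂lam := by
    rw [lintegral_finsetSum _ (fun q _ => Finset.measurable_sum _ fun j _ =>
      measurable_const.indicator (measurableSet_Ginf _ _))]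
    refine Finset.sum_congr rfl fun q _ => ?_
    rw [lintegral_finsetSum _ (fun j _ => measurable_const.indicator (measurableSet_Ginf _ _))]
    refine Finset.sum_congr rfl fun j _ => ?_
    rw [lintegral_indicator_const (measurableSet_Ginf _ _)]
  rw [h2]
  have h3 : ∀ Y : ℕ → Bool, ∑ q ∈ F, ∑ j ∈ Finset.range T,
      (Ginf (i, m, q.1, q.2) (j + 1)).indicator
        (fun _ => (1 / 2 : ℝ≥0∞) ^ (q.2.length + 2 * m + i + 3)) Y ≤ (Nat.unpair m).2 := by
    intro Y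
    have h0 := Finset.sum_product' F (Finset.range T) (fun (q : List Bool × List Bool) (j : ℕ) =>
      (Ginf (i, m, q.1, q.2) (j + 1)).indicator
        (fun _ => (1 / 2 : ℝ≥0∞) ^ (q.2.length + 2 * m + i + 3)) Y)
    rw [← h0]
    let G := (F ×ˢ Finset.range T).filter fun z => Y ∈ Ginf (i, m, z.1.1, z.1.2) (z.2 + 1)
    have h4 : ∑ z ∈ F ×ˢ Finset.range T, (Ginf (i, m, z.1.1, z.1.2) (z.2 + 1)).indicator
        (fun _ => (1 / 2 : ℝ≥0∞) ^ (z.1.2.length + 2 * m + i + 3)) Y =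
        ∑ z ∈ G, (1 / 2 : ℝ≥0∞) ^ (z.1.2.length + 2 * m + i + 3) := by
      rw [Finset.sum_filter]
      refine Finset.sum_congr rfl fun z _ => ?_
      by_cases h : Y ∈ Ginf (i, m, z.1.1, z.1.2) (z.2 + 1)
      · rw [if_pos h, Set.indicator_of_mem h]
      · rw [if_neg h, Set.indicator_of_notMem h]
    rw [h4]
    let φ : (List Bool × List Bool) × ℕ → Tok := fun z => (m, z.1.1, z.1.2, z.2)
    have hφ : Function.Injective φ := by
      intro z z' h
      simp only [φ, Prod.mk.injEq] at h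
      exact Prod.ext (Prod.ext h.2.1 h.2.2.1) h.2.2.2
    have h5 := RMY_weight (i := i) (m := m) (Y := Y) (G.image φ) (by
      intro x hx
      obtain ⟨z, hz, rfl⟩ := Finset.mem_image.1 hx
      exact RMY_of_Run (p := (i, m, z.1.1, z.1.2)) (Finset.mem_filter.1 hz).2)
    rw [Finset.sum_image (fun x _ y _ h => hφ h)] at h5
    exact h5
  refine le_trans (lintegral_mono h3) ?_
  rw [lintegral_const, measure_univ, mul_one]

end Pool.Agent.Helper227
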