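import Pool.Agent.Helper227.Game7
import Pool.Agent.Helper227.KC2

set_option autoImplicit false

namespace Pool.Agent.Helper227

open MeasureTheory Encodable
open scoped ENNReal
open Nat.Partrec (Code)

variable {U : List Bool →. List Bool}

/-- From the covering lemma: an index `m` such that the trimmed operator `RM i m` with oracle `B`
enumerates all tokens asked with oracles `A`, `B`. -/
theorem exists_index (hU : IsMachine U) {A B : ℕ → Bool}
    (hLR : ∀ X, MLR B X → MLR (join A B) X) {i : ℕ} (hi : B ∉ UE (EV U) A i) :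
    ∃ m, ∀ x, SA U i A B x → RMY i m B x := by
  classical
  obtain ⟨R, hR, hsub, b, hb⟩ := cover hLR (g := gw i)
    (primrec_gw.comp (Primrec.const i) Primrec.id) (s1_ES hU.1 i) (fun F hF =>
      SA_weight hU hi F fun x hx => (ES_iff i A B x).1 (hF x hx))
  obtain ⟨c, hc⟩ := exists_codeT hR
  have hcm : cOf (Nat.pair (encode c) b) = c := by
    unfold cOf
    rw [Nat.unpair_pair, Denumerable.ofNat_encode]
  refine ⟨Nat.pair (encode c) b, fun x hx => ?_⟩
  obtain ⟨s, hs⟩ := hsub x ((ES_iff i A B x).2 hx)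
  obtain ⟨r, hr⟩ := (hc _).1 hs
  obtain ⟨T, hT⟩ : ∃ T, T = max (max s r) (encode x + 1) := ⟨_, rfl⟩
  refine ⟨T, T, by simp, ?_, ?_⟩
  · rw [hcm, take_pre _ _ _ le_rfl, mem_LT, length_pre]
    refine ⟨by omega, s, by omega, ?_⟩
    rw [take_pre _ _ _ (by omega)]
    exact stT_mono (by omega) hr
  · rw [hcm, take_pre _ _ _ le_rfl, wok_iff, ← List.sum_toFinset _ (nodup_LT _ _),
      Nat.unpair_pair]
    have h1 := hb (LT c (pre B T)).toFinset (by
      intro y hy
      rw [List.mem_toFinset, mem_LT] at hy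
      obtain ⟨_, k, hk, h2⟩ := hy
      rw [length_pre] at hk h2
      rw [take_pre _ _ _ (by omega)] at h2
      exact ⟨k, (hc _).2 ⟨_, h2⟩⟩)
    rw [ofReal_sum_gw, ENNReal.ofReal_le_iff_le_toReal (ENNReal.natCast_ne_top _),
      ENNReal.toReal_natCast] at h1
    exact h1

theorem exists_released {A B : ℕ → Bool} {i m : ℕ} (hi : B ∉ UE (EV U) A i)
    (hm : ∀ x, SA U i A B x → RMY i m B x) {n : ℕ} {σ : List Bool} (hσ : Out U σ n) :
    ∃ t, ¬ NR (i, m, pre A n, σ) t := by
  classical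
  by_contra hcon
  push Not at hcon
  have hall : ∀ j, B ∈ Gs (i, m, pre A n, σ) j := by
    intro j
    induction j with
    | zero => exact ⟨0, hcon 0, Nat.zero_le _, fun j' hj => absurd hj (Nat.not_lt_zero _)⟩
    | succ j ih =>
      have hSA : SA U i A B (m, pre A n, σ, j) := by
        refine ⟨?_, ?_, ih⟩
        · simpa using hσ
        · simp
      obtain ⟨t1, ht1⟩ := hm _ hSA
      obtain ⟨t, _, ht2⟩ := ih
      refine ⟨max (max t t1) (j + 1), hcon _, by simp, fun j' hj => ?_⟩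
      rcases Nat.lt_succ_iff_lt_or_eq.1 hj with h | h
      · exact RM_mono (pre_prefix B (by omega)) (ht2.2 j' h)
      · subst h
        exact RM_mono (pre_prefix B (by omega)) ht1
  apply hi
  rw [UE_EV_iff]
  refine ⟨m, ?_⟩
  obtain ⟨J, hJ⟩ : ∃ J : ℕ, J = 2 ^ (σ.length + 2 * m + i + 3) := ⟨_, rfl⟩
  let e : ℕ → List Bool × ℕ := fun j => (σ, j)
  have he : Function.Injective e := fun a b h => by simpa [e] using h
  have h1 : ∑ q ∈ (Finset.range J).image e, aw U i A m q.1 (q.2 + 1) B ≤ fm U i A m B :=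
    ENNReal.sum_le_tsum _
  rw [Finset.sum_image (fun x _ y _ h => he h)] at h1
  have h2 : ∀ j, aw U i A m σ (j + 1) B = (1 / 2 : ℝ≥0∞) ^ (σ.length + 2 * m + i + 3) :=
    fun j => aw_of_mem ⟨n, hσ, hall _⟩
  simp only [e, h2, Finset.sum_const, Finset.card_range, nsmul_eq_mul] at h1
  have h3 : (J : ℝ≥0∞) * (1 / 2) ^ (σ.length + 2 * m + i + 3) = 1 := by
    rw [hJ]
    push_cast
    rw [← mul_pow, one_div, ENNReal.mul_inv_cancel (by norm_num) (by norm_num), one_pow]
  rw [h3] at h1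
  refine lt_of_lt_of_le ?_ h1
  rw [one_div]
  exact pow_lt_one₀ bot_le (ENNReal.inv_lt_one.2 (by norm_num)) (by omega)

/-- released before or at stage `t` -/
def rel (q : List Bool × ℕ → ℕ → Prop) (i m : ℕ) (z : (List Bool × List Bool) × ℕ) : Prop :=
  q (z.1.2, z.1.1.length) z.2 ∧ ∃ t' < z.2 + 1, ¬ NR (i, m, z.1.1, z.1.2) t'

/-- released exactly at stage `t` -/
def fst' (q : List Bool × ℕ → ℕ → Prop) (i m : ℕ) (z : (List Bool × List Bool) × ℕ) : Prop :=
  rel q i m z ∧ ∀ t' < z.2, ¬ rel q i m (z.1, t')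

theorem primrec_rel {q : List Bool × ℕ → ℕ → Prop} (hq : PrimrecRel q) (i m : ℕ) :
    PrimrecPred (rel q i m) := by
  have h1 : PrimrecPred fun z : (List Bool × List Bool) × ℕ => q (z.1.2, z.1.1.length) z.2 :=
    hq.comp ((Primrec.snd.comp Primrec.fst).pair (Primrec.list_length.comp
      (Primrec.fst.comp Primrec.fst))) Primrec.snd
  have h2 : PrimrecPred fun z : (List Bool × List Bool) × ℕ =>
      ∃ t' < z.2 + 1, ¬ NR (i, m, z.1.1, z.1.2) t' := by
    refine PP.ex_lt (α := (List Bool × List Bool) × ℕ) (f := fun z => z.2 + 1)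
      (p := fun z t' => ¬ NR (i, m, z.1.1, z.1.2) t') ?_ (Primrec.succ.comp Primrec.snd)
    refine PrimrecPred.not (PrimrecPred.comp (f := fun y : ((List Bool × List Bool) × ℕ) × ℕ =>
      (((i, m, y.1.1.1, y.1.1.2) : Par), y.2)) primrec_NR ?_)
    exact Primrec.pair (Primrec.pair (Primrec.const i) (Primrec.pair (Primrec.const m)
      (Primrec.pair (Primrec.fst.comp (Primrec.fst.comp Primrec.fst))
        (Primrec.snd.comp (Primrec.fst.comp Primrec.fst))))) Primrec.snd
  exact (h1.and h2).of_eq fun z => Iff.rfl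

theorem primrec_fst' {q : List Bool × ℕ → ℕ → Prop} (hq : PrimrecRel q) (i m : ℕ) :
    PrimrecPred (fst' q i m) := by
  have h2 : PrimrecPred fun z : (List Bool × List Bool) × ℕ =>
      ∀ t' < z.2, ¬ rel q i m (z.1, t') := by
    refine PP.all_lt (α := (List Bool × List Bool) × ℕ) (f := fun z => z.2)
      (p := fun z t' => ¬ rel q i m (z.1, t')) ?_ Primrec.snd
    exact PrimrecPred.not (PrimrecPred.comp (f := fun y : ((List Bool × List Bool) × ℕ) × ℕ =>
      (y.1.1, y.2)) (primrec_rel hq i m) ((Primrec.fst.comp Primrec.fst).pair Primrec.snd))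
  exact ((primrec_rel hq i m).and h2).of_eq fun z => Iff.rfl

end Pool.Agent.Helper227
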