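import Pool.Agent.Helper227.Game8

set_option autoImplicit false

namespace Pool.Agent.Helper227

open MeasureTheory Encodable
open scoped ENNReal
open Nat.Partrec (Code)

variable {U : List Bool →. List Bool}

open Classical in
/-- the requests -/
noncomputable def rq (q : List Bool × ℕ → ℕ → Prop) (i m d : ℕ) (N : ℕ) :
    Option (ℕ × List Bool) :=
  (decode₂ ((List Bool × List Bool) × ℕ) N).bind fun z =>
    if fst' q i m z then some (z.1.2.length + d, z.1.1) else none

theorem primrec_rq {q : List Bool × ℕ → ℕ → Prop} (hq : PrimrecRel q) (i m d : ℕ) :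
    Primrec (rq q i m d) := by
  classical
  unfold rq
  refine Primrec.option_bind Primrec.decode₂ ?_
  refine Primrec.ite ((primrec_fst' hq i m).comp Primrec.snd) ?_ (Primrec.const none)
  exact Primrec.option_some.comp (Primrec.pair (Primrec.nat_add.comp (Primrec.list_length.comp
    (Primrec.snd.comp (Primrec.fst.comp Primrec.snd))) (Primrec.const d))
    (Primrec.fst.comp (Primrec.fst.comp Primrec.snd)))

theorem rq_eq_some {q : List Bool × ℕ → ℕ → Prop} {i m d N : ℕ} {p : ℕ × List Bool}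
    (h : rq q i m d N = some p) : ∃ z : (List Bool × List Bool) × ℕ, encode z = N ∧
      fst' q i m z ∧ p = (z.1.2.length + d, z.1.1) := by
  classical
  unfold rq at h
  rw [Option.bind_eq_some_iff] at h
  obtain ⟨z, h1, h2⟩ := h
  rw [decode₂_eq_some] at h1
  split_ifs at h2 with h3
  refine ⟨z, h1, h3, ?_⟩
  simp only [Option.some.injEq] at h2
  exact h2.symm

theorem rq_encode {q : List Bool × ℕ → ℕ → Prop} {i m d : ℕ} {z : (List Bool × List Bool) × ℕ}
    (h : fst' q i m z) : rq q i m d (encode z) = some (z.1.2.length + d, z.1.1) := by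
  classical
  unfold rq
  rw [decode₂_encode, Option.bind_some, if_pos h]

theorem fst'_unique {q : List Bool × ℕ → ℕ → Prop} {i m : ℕ} {z z' : (List Bool × List Bool) × ℕ}
    (h : fst' q i m z) (h' : fst' q i m z') (he : z.1 = z'.1) : z = z' := by
  obtain ⟨a, t⟩ := z
  obtain ⟨a', t'⟩ := z'
  simp only at he
  subst he
  rcases Nat.lt_trichotomy t t' with hlt | he | hlt
  · exact absurd h.1 (h'.2 t hlt)
  · rw [he]
  · exact absurd h'.1 (h.2 t' hlt)

theorem rq_budget {q : List Bool × ℕ → ℕ → Prop} {i m d : ℕ}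
    (hd : 2 ^ (2 * m + i + 3) * (Nat.unpair m).2 ≤ 2 ^ d) (n : ℕ) :
    ∑ N ∈ Finset.range n, KC.wr (rq q i m d) N ≤ 1 := by
  classical
  have hchoose : ∀ N, (rq q i m d N).isSome → ∃ z : (List Bool × List Bool) × ℕ, encode z = N ∧
      fst' q i m z ∧ rq q i m d N = some (z.1.2.length + d, z.1.1) := by
    intro N hN
    obtain ⟨p, hp⟩ := Option.isSome_iff_exists.1 hN
    obtain ⟨z, h1, h2, h3⟩ := rq_eq_some hp
    exact ⟨z, h1, h2, by rw [hp, h3]⟩
  choose! z hz using hchoose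
  let S := (Finset.range n).filter fun N => (rq q i m d N).isSome
  have h1 : ∑ N ∈ Finset.range n, KC.wr (rq q i m d) N =
      ∑ N ∈ S, (1 / 2 : ℝ) ^ ((z N).1.2.length + d) := by
    rw [Finset.sum_filter]
    refine Finset.sum_congr rfl fun N _ => ?_
    by_cases h : (rq q i m d N).isSome
    · rw [if_pos h, KC.wr, (hz N h).2.2]
      rfl
    · rw [if_neg h]
      have : rq q i m d N = none := by simpa using h
      simp [KC.wr, this]
  have hinj : Set.InjOn (fun N => (z N).1) (S : Set ℕ) := by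
    intro N hN N' hN' he
    have a := hz N (Finset.mem_filter.1 hN).2
    have b := hz N' (Finset.mem_filter.1 hN').2
    have := fst'_unique a.2.1 b.2.1 he
    rw [← a.1, ← b.1, this]
  have h2 : ∑ N ∈ S, (1 / 2 : ℝ) ^ ((z N).1.2.length + d) =
      (1 / 2) ^ d * ∑ a ∈ S.image (fun N => (z N).1), (1 / 2 : ℝ) ^ a.2.length := by
    rw [Finset.sum_image hinj, Finset.mul_sum]
    refine Finset.sum_congr rfl fun N _ => ?_
    rw [pow_add, mul_comm]
  have h3 := released_weight i m (S.image (fun N => (z N).1)) (by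
    intro a ha
    obtain ⟨N, hN, rfl⟩ := Finset.mem_image.1 ha
    obtain ⟨t', _, ht⟩ := (hz N (Finset.mem_filter.1 hN).2).2.1.1.2
    exact ⟨t', ht⟩)
  have h4 : ∑ a ∈ S.image (fun N => (z N).1), (1 / 2 : ℝ) ^ a.2.length ≤
      2 ^ (2 * m + i + 3) * (Nat.unpair m).2 := by
    have h5 : ∑ a ∈ S.image (fun N => (z N).1), (1 / 2 : ℝ≥0∞) ^ a.2.length =
        ENNReal.ofReal (∑ a ∈ S.image (fun N => (z N).1), (1 / 2 : ℝ) ^ a.2.length) := by
      rw [ENNReal.ofReal_sum_of_nonneg (fun x _ => by positivity)]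
      exact Finset.sum_congr rfl fun x _ => half_pow_ofReal _
    have h6 : (2 : ℝ≥0∞) ^ (2 * m + i + 3) * (Nat.unpair m).2 =
        ((2 ^ (2 * m + i + 3) * (Nat.unpair m).2 : ℕ) : ℝ≥0∞) := by push_cast; rfl
    rw [h5, h6, ENNReal.ofReal_le_iff_le_toReal (ENNReal.natCast_ne_top _),
      ENNReal.toReal_natCast] at h3
    push_cast at h3
    exact h3
  have h7 : ((2 : ℝ) ^ (2 * m + i + 3) * (Nat.unpair m).2) ≤ 2 ^ d := by exact_mod_cast hd
  rw [h1, h2]
  calc (1 / 2 : ℝ) ^ d * ∑ a ∈ S.image (fun N => (z N).1), (1 / 2 : ℝ) ^ a.2.length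
      ≤ (1 / 2) ^ d * 2 ^ d := mul_le_mul_of_nonneg_left (h4.trans h7) (by positivity)
    _ = 1 := by rw [← mul_pow]; norm_num

/-- Main theorem. -/
theorem lr_base (hU : IsUniversal U) {A B : ℕ → Bool}
    (hLR : ∀ X, MLR B X → MLR (join A B) X) (hB : MLR A B) : KTrivial U A := by
  classical
  have h1 := hB _ (isMLTest_EV hU.1 A)
  rw [Set.mem_iInter, not_forall] at h1
  obtain ⟨i, hi⟩ := h1
  obtain ⟨m, hm⟩ := exists_index hU.1 hLR hi
  obtain ⟨q, hq, hqm, hqe⟩ := s1_output hU.1.1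
  obtain ⟨d, hd⟩ : ∃ d, 2 ^ (2 * m + i + 3) * (Nat.unpair m).2 ≤ 2 ^ d := by
    refine ⟨2 * m + i + 3 + (Nat.unpair m).2, ?_⟩
    rw [pow_add _ (2 * m + i + 3)]
    exact Nat.mul_le_mul_left _ (Nat.lt_two_pow_self).le
  obtain ⟨M, hM1, hM2, hM3⟩ := KC.kraft_chaitin (primrec_rq hq i m d) (rq_budget hd)
  obtain ⟨c, hc⟩ := hU.2 M ⟨hM1, hM2⟩
  refine ⟨d + c, fun n => ?_⟩
  obtain ⟨σ, hσ1, hσ2⟩ := hU.exists_min (List.replicate n false)
  obtain ⟨t1, ht1⟩ := exists_released hi hm (show Out U σ n from hσ2)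
  obtain ⟨t2, ht2⟩ := (hqe (σ, n)).1 hσ2
  have hex : ∃ t, rel q i m ((pre A n, σ), t) := by
    refine ⟨max t1 t2, ?_, t1, by simp, ht1⟩
    simp only [length_pre]
    exact hqm _ _ _ (le_max_right _ _) ht2
  have hf : fst' q i m ((pre A n, σ), Nat.find hex) :=
    ⟨Nat.find_spec hex, fun t' ht' => Nat.find_min hex ht'⟩
  obtain ⟨τ, hτ1, hτ2⟩ := hM3 _ _ _ (rq_encode (d := d) hf)
  obtain ⟨τ', hτ3, hτ4⟩ := hc τ _ hτ2
  have h5 : KU U (pre A n) ≤ τ'.length := KU_le hτ4
  have h6 : KU U ((List.range n).map A) = KU U (pre A n) := rfl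
  rw [h6, ← hσ1]
  simp only at hτ1
  omega

end Pool.Agent.Helper227
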