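import Mathlib

set_option autoImplicit false

namespace Pool.Agent.Helper227

namespace KC

/-- weight of a string -/
noncomputable def wt (τ : List Bool) : ℝ := (1 / 2 : ℝ) ^ τ.length

/-- total weight -/
noncomputable def tot (L : List (List Bool)) : ℝ := (L.map wt).sum

@[simp] theorem tot_nil : tot [] = 0 := by simp [tot]
@[simp] theorem tot_cons (τ : List Bool) (L : List (List Bool)) :
    tot (τ :: L) = wt τ + tot L := by simp [tot]
theorem tot_append (L L' : List (List Bool)) : tot (L ++ L') = tot L + tot L' := by
  simp [tot]

/-- incomparable strings -/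
def Inc (a b : List Bool) : Prop := ¬ a <+: b ∧ ¬ b <+: a

theorem Inc.symm {a b : List Bool} (h : Inc a b) : Inc b a := ⟨h.2, h.1⟩

theorem Inc.ext_left {a a' b : List Bool} (h : Inc a b) (ha : a <+: a') : Inc a' b := by
  refine ⟨fun h1 => h.1 (ha.trans h1), fun h1 => ?_⟩
  rcases List.prefix_or_prefix_of_prefix ha h1 with h2 | h2
  · exact h.1 h2
  · exact h.2 h2

theorem Inc.ext_right {a b b' : List Bool} (h : Inc a b) (hb : b <+: b') : Inc a b' :=
  (h.symm.ext_left hb).symm

/-- Split off the leftmost extension of length `|s| + d`; the second component lists the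
remaining free strings. -/
def split (s : List Bool) : ℕ → List Bool × List (List Bool)
  | 0 => (s, [])
  | d + 1 => ((split s d).1 ++ [false], ((split s d).1 ++ [true]) :: (split s d).2)

theorem split_length (s : List Bool) (d : ℕ) : (split s d).1.length = s.length + d := by
  induction d with
  | zero => rfl
  | succ d ih => simp [split, ih]; omega

theorem split_prefix (s : List Bool) (d : ℕ) : s <+: (split s d).1 := by
  induction d with
  | zero => exact List.prefix_refl _
  | succ d ih => exact ih.trans (List.prefix_append _ _)

theorem sib_prefix (s : List Bool) (d : ℕ) : ∀ x ∈ (split s d).2, s <+: x := by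
  induction d with
  | zero => intro x hx; simp [split] at hx
  | succ d ih =>
    intro x hx
    rcases List.mem_cons.1 hx with rfl | hx
    · exact (split_prefix s d).trans (List.prefix_append _ _)
    · exact ih x hx

theorem sib_length (s : List Bool) (d : ℕ) :
    ∀ x ∈ (split s d).2, s.length < x.length ∧ x.length ≤ s.length + d := by
  induction d with
  | zero => intro x hx; simp [split] at hx
  | succ d ih =>
    intro x hx
    rcases List.mem_cons.1 hx with rfl | hx
    · rw [List.length_append, split_length, List.length_singleton]; omega
    · have := ih x hx; omega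

theorem inc_ft (w : List Bool) : Inc (w ++ [false]) (w ++ [true]) := by
  constructor
  · intro h
    have := h.eq_of_length (by simp)
    simp at this
  · intro h
    have := h.eq_of_length (by simp)
    simp at this

theorem sib_inc (s : List Bool) (d : ℕ) : (∀ x ∈ (split s d).2, Inc (split s d).1 x) ∧
    (split s d).2.Pairwise Inc := by
  induction d with
  | zero => exact ⟨by intro x hx; simp [split] at hx, List.Pairwise.nil⟩
  | succ d ih =>
    constructor
    · intro x hx
      rcases List.mem_cons.1 hx with rfl | hx
      · exact inc_ft _
      · exact (ih.1 x hx).ext_left (List.prefix_append _ _)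
    · refine List.Pairwise.cons ?_ ih.2
      intro x hx
      exact (ih.1 x hx).ext_left (List.prefix_append _ _)

theorem sib_decr (s : List Bool) (d : ℕ) :
    (split s d).2.Pairwise (fun a b => b.length < a.length) := by
  induction d with
  | zero => exact List.Pairwise.nil
  | succ d ih =>
    refine List.Pairwise.cons ?_ ih
    intro x hx
    have := sib_length s d x hx
    simp [split_length]; omega

theorem split_tot (s : List Bool) (d : ℕ) : wt (split s d).1 + tot (split s d).2 = wt s := by
  induction d with
  | zero => simp [split]
  | succ d ih =>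
    have h : wt ((split s d).1 ++ [false]) + wt ((split s d).1 ++ [true]) = wt (split s d).1 := by
      simp only [wt, List.length_append, List.length_singleton, pow_succ]
      ring
    simp only [split, tot_cons]
    linarith

/-- first free string of length at most `r` -/
def idx (L : List (List Bool)) (r : ℕ) : ℕ := L.findIdx fun s => decide (s.length ≤ r)

/-- allocate a string of length `r` -/
def alloc (L : List (List Bool)) (r : ℕ) : List Bool × List (List Bool) :=
  ((split (L.getD (idx L r) []) (r - (L.getD (idx L r) []).length)).1,
    L.take (idx L r) ++ ((split (L.getD (idx L r) []) (r - (L.getD (idx L r) []).length)).2 ++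
      L.drop (idx L r + 1)))

theorem alloc_spec {L : List (List Bool)} {r : ℕ} (h : ∃ s ∈ L, s.length ≤ r) :
    ∃ L1 s L2, L = L1 ++ s :: L2 ∧ s.length ≤ r ∧ (∀ x ∈ L1, r < x.length) ∧
      alloc L r = ((split s (r - s.length)).1, L1 ++ ((split s (r - s.length)).2 ++ L2)) := by
  have hi : idx L r < L.length := by
    unfold idx
    rw [List.findIdx_lt_length]
    obtain ⟨s, h1, h2⟩ := h
    exact ⟨s, h1, by simpa using h2⟩
  have hg : L.getD (idx L r) [] = L[idx L r] := by simp [List.getD, hi]
  refine ⟨L.take (idx L r), L[idx L r], L.drop (idx L r + 1), ?_, ?_, ?_, ?_⟩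
  · rw [← List.drop_eq_getElem_cons hi, List.take_append_drop]
  · have := List.findIdx_getElem (w := hi)
    exact of_decide_eq_true this
  · intro x hx
    obtain ⟨j, hj, rfl⟩ := List.mem_iff_getElem.1 hx
    rw [List.length_take] at hj
    rw [List.getElem_take]
    have := List.not_of_lt_findIdx (p := fun s : List Bool => decide (s.length ≤ r)) (xs := L)
      (i := j) (by unfold idx at hj; omega)
    simpa using this
  · unfold alloc
    rw [hg]

theorem tot_le {L : List (List Bool)} {r : ℕ} (h1 : L.Pairwise (fun a b => b.length < a.length))
    (h2 : ∀ x ∈ L, r < x.length) : ∀ m, r ≤ m → (∀ x ∈ L, x.length ≤ m) →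
      tot L ≤ (1 / 2) ^ r - (1 / 2) ^ m := by
  induction L with
  | nil =>
    intro m hm _
    have : (1 / 2 : ℝ) ^ m ≤ (1 / 2) ^ r := pow_le_pow_of_le_one (by norm_num) (by norm_num) hm
    simp only [tot_nil]
    linarith
  | cons s L ih =>
    intro m hm h3
    rw [List.pairwise_cons] at h1
    have hs : r < s.length := h2 s (List.mem_cons_self)
    have hsm : s.length ≤ m := h3 s (List.mem_cons_self)
    have := ih h1.2 (fun x hx => h2 x (List.mem_cons_of_mem _ hx)) (s.length - 1) (by omega)
      (fun x hx => by have := h1.1 x hx; omega)
    rw [tot_cons]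
    have e : (1 / 2 : ℝ) ^ (s.length - 1) = 2 * (1 / 2) ^ s.length := by
      obtain ⟨k, hk⟩ : ∃ k, s.length = k + 1 := ⟨s.length - 1, by omega⟩
      rw [hk, Nat.add_sub_cancel, pow_succ]; ring
    have e2 : (1 / 2 : ℝ) ^ m ≤ (1 / 2) ^ s.length :=
      pow_le_pow_of_le_one (by norm_num) (by norm_num) hsm
    rw [e] at this
    unfold wt
    linarith

end KC

end Pool.Agent.Helper227
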