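import Pool.Agent.Helper227.VL

set_option autoImplicit false

namespace Pool.Agent.Helper227

open Encodable MeasureTheory
open scoped ENNReal
open Nat.Partrec (Code)

/-- cost comparison: the measure of `L` exceeds that of `L'` by at most `2 ^ (-e)` -/
def COK (L L' : List (List Bool)) (e : ℕ) : Prop :=
  cnt L (mlen L) * 2 ^ e ≤ cnt L' (mlen L) * 2 ^ e + 2 ^ (mlen L)

theorem cok_iff {L L' : List (List Bool)} (e : ℕ) (h : mlen L' ≤ mlen L) :
    COK L L' e ↔ lam {X | ∃ ζ ∈ L, X ∈ cyl ζ} ≤ lam {X | ∃ ζ ∈ L', X ∈ cyl ζ} + (1 / 2) ^ e := by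
  rw [lam_list L le_rfl, lam_list L' h, COK]
  generalize cnt L (mlen L) = a
  generalize cnt L' (mlen L) = b
  generalize mlen L = N
  have h2 : (2 : ℝ≥0∞) ≠ 0 := by norm_num
  have h3 : (2 : ℝ≥0∞) ≠ ⊤ := by norm_num
  have hk : (1 / 2 : ℝ≥0∞) * 2 = 1 := by
    rw [one_div]; exact ENNReal.inv_mul_cancel h2 h3
  have hc0 : (2 : ℝ≥0∞) ^ (N + e) ≠ 0 := pow_ne_zero _ h2
  have hct : (2 : ℝ≥0∞) ^ (N + e) ≠ ⊤ := ENNReal.pow_ne_top h3
  rw [← ENNReal.mul_le_mul_iff_left hc0 hct (a := (a : ℝ≥0∞) * (1 / 2) ^ N)]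
  have e1 : (a : ℝ≥0∞) * (1 / 2) ^ N * 2 ^ (N + e) = a * 2 ^ e := by
    rw [pow_add, mul_assoc, ← mul_assoc ((1 / 2 : ℝ≥0∞) ^ N), ← mul_pow, hk, one_pow, one_mul]
  have e2 : ((b : ℝ≥0∞) * (1 / 2) ^ N + (1 / 2) ^ e) * 2 ^ (N + e) = b * 2 ^ e + 2 ^ N := by
    rw [add_mul]
    congr 1
    · rw [pow_add, mul_assoc, ← mul_assoc ((1 / 2 : ℝ≥0∞) ^ N), ← mul_pow, hk, one_pow, one_mul]
    · rw [pow_add, mul_comm ((2 : ℝ≥0∞) ^ N), ← mul_assoc, ← mul_pow, hk, one_pow, one_mul]
  rw [e1, e2]
  norm_cast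

theorem mlen_le_of_subset {L L' : List (List Bool)} (h : ∀ ζ ∈ L', ζ ∈ L) : mlen L' ≤ mlen L := by
  induction L' with
  | nil => simp [mlen]
  | cons a L' ih =>
    have h1 := ih (fun ζ hζ => h ζ (List.mem_cons_of_mem _ hζ))
    simp only [mlen, List.foldr_cons] at h1 ⊢
    exact max_le (le_mlen (h a (List.mem_cons_self))) h1

theorem primrec_cok : PrimrecPred fun x : List (List Bool) × List (List Bool) × ℕ =>
    COK x.1 x.2.1 x.2.2 := by
  unfold COK
  have e1 : Primrec fun x : List (List Bool) × List (List Bool) × ℕ => mlen x.1 :=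
    primrec_mlen.comp Primrec.fst
  have e2 : Primrec fun x : List (List Bool) × List (List Bool) × ℕ => 2 ^ x.2.2 :=
    primrec_pow.comp (Primrec.const 2) (Primrec.snd.comp Primrec.snd)
  refine Primrec.nat_le.comp ?_ ?_
  · exact Primrec.nat_mul.comp (primrec_cnt.comp Primrec.fst e1) e2
  · exact Primrec.nat_add.comp (Primrec.nat_mul.comp (primrec_cnt.comp
      (Primrec.fst.comp Primrec.snd) e1) e2) (primrec_pow.comp (Primrec.const 2) e1)

/-- the string of length `s` given by the list `W` of elements -/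
def ts (W : List ℕ) (s : ℕ) : List Bool := pre (fun i => decide (i ∈ W)) s

theorem primrec_ts : Primrec₂ ts := by
  have h : Primrec₂ fun (W : List ℕ) (s : ℕ) => (List.range s).map fun i => decide (∃ y ∈ W, y = i) := by
    refine Primrec.list_map (Primrec.list_range.comp Primrec.snd) ?_
    have := PP.ex_mem (α := (List ℕ × ℕ) × ℕ) (f := fun x => x.1.1) (p := fun x y => y = x.2)
      (Primrec.eq.comp Primrec.snd (Primrec.snd.comp Primrec.fst)) (Primrec.fst.comp Primrec.fst)
    exact this.decide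
  refine h.of_eq fun W s => ?_
  unfold ts pre
  refine List.map_congr_left fun i _ => ?_
  simp

/-- strings enumerated before stage `k` along the history `h` -/
noncomputable def VL (c : Code) (h : List (List ℕ)) (n k : ℕ) : List (List Bool) :=
  (List.range k).flatMap fun t => Lst c (ts (h.getD t []) t) n

theorem mem_VL {c : Code} {h : List (List ℕ)} {n k : ℕ} {ζ : List Bool} :
    ζ ∈ VL c h n k ↔ ∃ t < k, ζ ∈ Lst c (ts (h.getD t []) t) n := by
  simp [VL]

theorem primrec_VL (c : Code) : Primrec fun x : List (List ℕ) × ℕ × ℕ => VL c x.1 x.2.1 x.2.2 := by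
  unfold VL
  refine Primrec.list_flatMap (Primrec.list_range.comp (Primrec.snd.comp Primrec.snd)) ?_
  refine primrec_Lst.comp (g := fun y : (List (List ℕ) × ℕ × ℕ) × ℕ =>
    (c, ts (y.1.1.getD y.2 []) y.2, y.1.2.1)) ?_
  exact (Primrec.const c).pair ((primrec_ts.comp ((Primrec.list_getD []).comp
    (Primrec.fst.comp Primrec.fst) Primrec.snd) Primrec.snd).pair
    (Primrec.fst.comp (Primrec.snd.comp Primrec.fst)))

/-- the candidate `x` is ready to be enumerated, given the history `h` -/
def ready (c : Code) (h : List (List ℕ)) (x : ℕ) : Prop :=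
  (x + 1 < h.length ∧ ∀ y ∈ h.getD (h.length - 1) [], (Nat.unpair y).1 ≠ (Nat.unpair x).1) ∧
  Code.evaln h.length (Denumerable.ofNat Code (Nat.unpair x).1) x = some 0 ∧
  ∀ n < (Nat.unpair x).1 + 1, COK (VL c h n h.length) (VL c h n (x + 1)) ((Nat.unpair x).1 + 1)

theorem primrec_ready (c : Code) : PrimrecRel (ready c) := by
  have ex : Primrec fun p : List (List ℕ) × ℕ => (Nat.unpair p.2).1 :=
    Primrec.fst.comp (Primrec.unpair.comp Primrec.snd)
  have el : Primrec fun p : List (List ℕ) × ℕ => p.1.length := Primrec.list_length.comp Primrec.fst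
  refine PrimrecPred.and (PrimrecPred.and ?_ ?_) (PrimrecPred.and ?_ ?_)
  · exact Primrec.nat_lt.comp (Primrec.succ.comp Primrec.snd) el
  · refine PP.all_mem (α := List (List ℕ) × ℕ) (f := fun p => p.1.getD (p.1.length - 1) [])
      (p := fun p y => (Nat.unpair y).1 ≠ (Nat.unpair p.2).1) ?_ ?_
    · exact PrimrecPred.not (Primrec.eq.comp (Primrec.fst.comp (Primrec.unpair.comp Primrec.snd))
        (ex.comp Primrec.fst))
    · exact (Primrec.list_getD []).comp Primrec.fst (Primrec.pred.comp el)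
  · refine Primrec.eq.comp (Code.primrec_evaln.comp ((el.pair ((Primrec.ofNat Code).comp ex)).pair
      Primrec.snd)) (Primrec.const (some 0))
  · refine PP.all_lt (α := List (List ℕ) × ℕ) (f := fun p => (Nat.unpair p.2).1 + 1)
      (p := fun p n => COK (VL c p.1 n p.1.length) (VL c p.1 n (p.2 + 1)) ((Nat.unpair p.2).1 + 1))
      ?_ (Primrec.succ.comp ex)
    refine PrimrecPred.comp (f := fun q : (List (List ℕ) × ℕ) × ℕ =>
      (VL c q.1.1 q.2 q.1.1.length, VL c q.1.1 q.2 (q.1.2 + 1), (Nat.unpair q.1.2).1 + 1))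
      primrec_cok ?_
    refine Primrec.pair ?_ (Primrec.pair ?_ (Primrec.succ.comp (ex.comp Primrec.fst)))
    · exact (primrec_VL c).comp ((Primrec.fst.comp Primrec.fst).pair (Primrec.snd.pair
        (el.comp Primrec.fst)))
    · exact (primrec_VL c).comp ((Primrec.fst.comp Primrec.fst).pair (Primrec.snd.pair
        (Primrec.succ.comp (Primrec.snd.comp Primrec.fst))))

/-- `x` acts: it is the least ready candidate of its column -/
def act (c : Code) (h : List (List ℕ)) (x : ℕ) : Prop :=
  ready c h x ∧ ∀ x' < x, ¬ ((Nat.unpair x').1 = (Nat.unpair x).1 ∧ ready c h x')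

theorem primrec_act (c : Code) : PrimrecRel (act c) := by
  refine PrimrecPred.and (primrec_ready c) ?_
  refine PP.all_lt (α := List (List ℕ) × ℕ) (f := fun p => p.2)
    (p := fun p x' => ¬ ((Nat.unpair x').1 = (Nat.unpair p.2).1 ∧ ready c p.1 x')) ?_ Primrec.snd
  refine PrimrecPred.not (PrimrecPred.and ?_ ?_)
  · exact Primrec.eq.comp (Primrec.fst.comp (Primrec.unpair.comp Primrec.snd))
      (Primrec.fst.comp (Primrec.unpair.comp (Primrec.snd.comp Primrec.fst)))
  · exact (primrec_ready c).comp (Primrec.fst.comp Primrec.fst) Primrec.snd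

open Classical in
/-- next state -/
noncomputable def nextW (c : Code) (h : List (List ℕ)) : List ℕ :=
  h.getD (h.length - 1) [] ++ (List.range h.length).filter fun x => act c h x

theorem primrec_nextW (c : Code) : Primrec (nextW c) := by
  classical
  unfold nextW
  refine Primrec.list_append.comp ((Primrec.list_getD []).comp Primrec.id (Primrec.pred.comp
    Primrec.list_length)) ?_
  have h1 : PrimrecRel fun (x : ℕ) (h : List (List ℕ)) => act c h x :=
    (primrec_act c).comp Primrec.snd Primrec.fst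
  exact h1.listFilter.comp (Primrec.list_range.comp Primrec.list_length) Primrec.id

/-- history of the construction -/
noncomputable def hist (c : Code) : ℕ → List (List ℕ)
  | 0 => [[]]
  | s + 1 => hist c s ++ [nextW c (hist c s)]

theorem primrec_hist (c : Code) : Primrec (hist c) := by
  have h : Primrec fun n : ℕ => (Nat.rec [[]] (fun _ IH => IH ++ [nextW c IH]) n : List (List ℕ)) := by
    refine Primrec.nat_rec' (f := fun n : ℕ => n) (g := fun _ => ([[]] : List (List ℕ)))
      (h := fun _ p => p.2 ++ [nextW c p.2]) Primrec.id (Primrec.const _) ?_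
    exact Primrec.list_append.comp (Primrec.snd.comp Primrec.snd) (Primrec.list_cons.comp
      ((primrec_nextW c).comp (Primrec.snd.comp Primrec.snd)) (Primrec.const []))
  refine h.of_eq fun n => ?_
  induction n with
  | zero => rfl
  | succ n ih => simp only [ih, hist]

theorem length_hist (c : Code) (s : ℕ) : (hist c s).length = s + 1 := by
  induction s with
  | zero => rfl
  | succ s ih => simp [hist, ih]

/-- state at stage `s` -/
noncomputable def WW (c : Code) (s : ℕ) : List ℕ := (hist c s).getD s []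

theorem hist_getD (c : Code) {s t : ℕ} (h : t ≤ s) : (hist c s).getD t [] = WW c t := by
  induction s with
  | zero =>
    have : t = 0 := by omega
    subst this
    rfl
  | succ s ih =>
    rcases Nat.lt_or_ge t (s + 1) with h' | h'
    · rw [hist, List.getD_append _ _ _ _ (by rw [length_hist]; exact h')]
      exact ih (by omega)
    · have : t = s + 1 := by omega
      subst this
      rfl

theorem mem_WW_succ (c : Code) (s x : ℕ) :
    x ∈ WW c (s + 1) ↔ x ∈ WW c s ∨ act c (hist c s) x := by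
  have h1 : WW c (s + 1) = nextW c (hist c s) := by
    unfold WW
    rw [hist, List.getD_append_right _ _ _ _ (by rw [length_hist]), length_hist]
    simp
  rw [h1, nextW, length_hist, Nat.add_sub_cancel, List.mem_append, List.mem_filter, List.mem_range]
  refine or_congr Iff.rfl ?_
  simp only [decide_eq_true_eq]
  constructor
  · exact fun h => h.2
  · intro h
    refine ⟨?_, h⟩
    have := h.1.1.1
    rw [length_hist] at this
    omega

theorem WW_mono (c : Code) {s t : ℕ} (h : s ≤ t) {x : ℕ} (hx : x ∈ WW c s) : x ∈ WW c t := by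
  induction h with
  | refl => exact hx
  | step _ ih => exact (mem_WW_succ c _ x).2 (Or.inl ih)

open Classical in
/-- the constructed set -/
noncomputable def TT (c : Code) (x : ℕ) : Bool := decide (∃ s, x ∈ WW c s)

theorem TT_iff (c : Code) (x : ℕ) : TT c x = true ↔ ∃ s, x ∈ WW c s := by simp [TT]

theorem exists_agree (c : Code) (k : ℕ) : ∃ s₀, ∀ s ≥ s₀, ∀ i < k, (i ∈ WW c s ↔ TT c i = true) := by
  induction k with
  | zero => exact ⟨0, by simp⟩
  | succ k ih =>
    obtain ⟨a, ha⟩ := ih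
    by_cases h : ∃ s, k ∈ WW c s
    · obtain ⟨b, hb⟩ := h
      refine ⟨max a b, fun s hs i hi => ?_⟩
      rcases Nat.lt_succ_iff_lt_or_eq.1 hi with hi' | rfl
      · exact ha s (le_trans (le_max_left _ _) hs) i hi'
      · exact ⟨fun h => (TT_iff c i).2 ⟨s, h⟩, fun _ => WW_mono c (le_trans (le_max_right _ _) hs) hb⟩
    · refine ⟨a, fun s hs i hi => ?_⟩
      rcases Nat.lt_succ_iff_lt_or_eq.1 hi with hi' | rfl
      · exact ha s hs i hi'
      · rw [TT_iff]
        exact ⟨fun h' => ⟨s, h'⟩, fun h' => absurd h' h⟩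

theorem exists_act_of_mem (c : Code) {x s : ℕ} (h : x ∈ WW c s) :
    ∃ t < s, act c (hist c t) x ∧ x ∈ WW c (t + 1) := by
  induction s with
  | zero => simp [WW, hist] at h
  | succ s ih =>
    rcases (mem_WW_succ c s x).1 h with h' | h'
    · obtain ⟨t, ht, h2⟩ := ih h'
      exact ⟨t, by omega, h2⟩
    · exact ⟨s, by omega, h', h⟩

/-- the stage part of the covering class -/
def Sg (c : Code) (n s : ℕ) : Set (ℕ → Bool) := {Z | ∃ ζ ∈ Lst c (ts (WW c s) s) n, Z ∈ cyl ζ}

/-- the covering class -/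
def VV (c : Code) (n : ℕ) : Set (ℕ → Bool) := {Z | ∃ s, Z ∈ Sg c n s}

theorem mem_VLset (c : Code) (n s k : ℕ) (hk : k ≤ s + 1) (Z : ℕ → Bool) :
    (∃ ζ ∈ VL c (hist c s) n k, Z ∈ cyl ζ) ↔ ∃ t < k, Z ∈ Sg c n t := by
  constructor
  · rintro ⟨ζ, h1, h2⟩
    obtain ⟨t, ht, h3⟩ := mem_VL.1 h1
    rw [hist_getD c (by omega)] at h3
    exact ⟨t, ht, ζ, h3, h2⟩
  · rintro ⟨t, ht, ζ, h1, h2⟩
    refine ⟨ζ, mem_VL.2 ⟨t, ht, ?_⟩, h2⟩
    rw [hist_getD c (by omega)]
    exact h1

theorem act_unique {c : Code} {s s' x x' : ℕ} (h : act c (hist c s) x) (h' : act c (hist c s') x')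
    (he : (Nat.unpair x).1 = (Nat.unpair x').1) : s = s' ∧ x = x' := by
  have key : ∀ {s s' x x' : ℕ}, act c (hist c s) x → act c (hist c s') x' →
      (Nat.unpair x).1 = (Nat.unpair x').1 → ¬ s < s' := by
    intro s s' x x' h h' he hlt
    have h1 : x ∈ WW c s' := WW_mono c hlt ((mem_WW_succ c s x).2 (Or.inr h))
    have h2 := h'.1.1.2
    rw [length_hist, Nat.add_sub_cancel] at h2
    exact h2 x h1 he
  have hs : s = s' := by
    have h1 := key h h' he
    have h2 := key h' h he.symm
    omega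
  subst hs
  refine ⟨rfl, ?_⟩
  rcases lt_trichotomy x x' with hlt | heq | hlt
  · exact absurd ⟨he, h.1⟩ (h'.2 x hlt)
  · exact heq
  · exact absurd ⟨he.symm, h'.1⟩ (h.2 x' hlt)

end Pool.Agent.Helper227
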