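import Pool.Agent.Helper227.KT

set_option autoImplicit false

namespace Pool.Agent.Helper227

open Encodable MeasureTheory
open scoped ENNReal
open Nat.Partrec (Code)

section
variable {E : List Bool × ℕ × List Bool → Prop} {c : Code}

theorem Lst_sub (hc : ∀ x, E x ↔ ∃ r, stp c r x) (A : ℕ → Bool) (s n : ℕ) :
    {Z | ∃ ζ ∈ Lst c (pre A s) n, Z ∈ cyl ζ} ⊆ UE E A n := by
  rintro Z ⟨ζ, h, hZ⟩
  rw [mem_Lst] at h
  obtain ⟨_, k, hk, h2⟩ := h
  rw [length_pre] at hk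
  rw [take_pre _ _ _ (by omega)] at h2
  rw [mem_cyl_iff] at hZ
  refine ⟨k, ζ.length, (hc _).2 ⟨(pre A s).length, ?_⟩⟩
  rw [hZ]; exact h2

theorem UE_sub (hc : ∀ x, E x ↔ ∃ r, stp c r x) {A : ℕ → Bool} {n : ℕ} {Z : ℕ → Bool}
    (hZ : Z ∈ UE E A n) : ∃ s₀, ∀ s ≥ s₀, ∃ ζ ∈ Lst c (pre A s) n, Z ∈ cyl ζ := by
  obtain ⟨s, t, h⟩ := hZ
  obtain ⟨r, hr⟩ := (hc _).1 h
  refine ⟨s + r + encode (pre Z t) + 1, fun S hS => ⟨pre Z t, ?_, mem_cyl_pre _ _⟩⟩
  rw [mem_Lst]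
  refine ⟨by simp; omega, s, by simp; omega, ?_⟩
  rw [take_pre _ _ _ (by omega)]
  exact stp_mono (by simp; omega) hr

theorem measurableSet_list (L : List (List Bool)) :
    MeasurableSet {X : ℕ → Bool | ∃ ζ ∈ L, X ∈ cyl ζ} := by
  have : {X : ℕ → Bool | ∃ ζ ∈ L, X ∈ cyl ζ} = ⋃ ζ ∈ {ζ | ζ ∈ L}, cyl ζ := by
    ext X; simp
  rw [this]
  exact MeasurableSet.biUnion (Set.to_countable _) fun σ _ => measurableSet_cyl σ

theorem lam_Sg_le (hc : ∀ x, E x ↔ ∃ r, stp c r x) (hEm : ∀ A n, lam (UE E A n) ≤ (1 / 2) ^ n)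
    (n s : ℕ) : lam (Sg c n s) ≤ (1 / 2) ^ n :=
  le_trans (measure_mono (Lst_sub hc (fun i => decide (i ∈ WW c s)) s n)) (hEm _ _)

theorem lam_AA_le (hc : ∀ x, E x ↔ ∃ r, stp c r x) (hEm : ∀ A n, lam (UE E A n) ≤ (1 / 2) ^ n)
    (n e : ℕ) : lam {Z | ∃ s x, act c (hist c s) x ∧ (Nat.unpair x).1 = e ∧ Z ∈ Sg c n s} ≤
      (1 / 2) ^ n := by
  by_cases h : ∃ s x, act c (hist c s) x ∧ (Nat.unpair x).1 = e
  · obtain ⟨s, x, h1, h2⟩ := h
    refine le_trans (measure_mono ?_) (lam_Sg_le hc hEm n s)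
    rintro Z ⟨s', x', h1', h2', h3⟩
    obtain ⟨rfl, -⟩ := act_unique h1 h1' (h2.trans h2'.symm)
    exact h3
  · have : {Z | ∃ s x, act c (hist c s) x ∧ (Nat.unpair x).1 = e ∧ Z ∈ Sg c n s} = ∅ := by
      ext Z
      simp only [Set.mem_ofPred_eq, Set.mem_empty_iff_false, iff_false]
      rintro ⟨s, x, h1, h2, _⟩
      exact h ⟨s, x, h1, h2⟩
    rw [this]; simp

theorem lam_BB_le (c : Code) (n e : ℕ) (hne : n ≤ e) :
    lam {Z | ∃ s x, (act c (hist c s) x ∧ (Nat.unpair x).1 = e) ∧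
      (∃ t < s + 1, Z ∈ Sg c n t) ∧ ¬ ∃ t < x + 1, Z ∈ Sg c n t} ≤ (1 / 2) ^ (e + 1) := by
  by_cases h : ∃ s x, act c (hist c s) x ∧ (Nat.unpair x).1 = e
  · obtain ⟨s, x, h1, h2⟩ := h
    have hx : x + 1 < s + 1 := by
      have := h1.1.1.1
      rwa [length_hist] at this
    have hcok := h1.1.2.2 n (by omega)
    rw [length_hist, h2] at hcok
    have hsub : ∀ ζ ∈ VL c (hist c s) n (x + 1), ζ ∈ VL c (hist c s) n (s + 1) := by
      intro ζ hζ
      obtain ⟨t, ht, h3⟩ := mem_VL.1 hζ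
      exact mem_VL.2 ⟨t, by omega, h3⟩
    rw [cok_iff _ (mlen_le_of_subset hsub)] at hcok
    have hset : {Z | ∃ s x, (act c (hist c s) x ∧ (Nat.unpair x).1 = e) ∧
      (∃ t < s + 1, Z ∈ Sg c n t) ∧ ¬ ∃ t < x + 1, Z ∈ Sg c n t} ⊆
      {X | ∃ ζ ∈ VL c (hist c s) n (s + 1), X ∈ cyl ζ} \
      {X | ∃ ζ ∈ VL c (hist c s) n (x + 1), X ∈ cyl ζ} := by
      rintro Z ⟨s', x', ⟨h1', h2'⟩, h3, h4⟩
      obtain ⟨rfl, rfl⟩ := act_unique h1 h1' (h2.trans h2'.symm)
      refine ⟨(mem_VLset c n s (s + 1) le_rfl Z).2 h3, fun h5 => h4 ?_⟩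
      exact (mem_VLset c n s (x + 1) (le_of_lt hx) Z).1 h5
    refine le_trans (measure_mono hset) ?_
    rw [measure_sdiff (fun Z hZ => by
      obtain ⟨ζ, h5, h6⟩ := hZ
      exact ⟨ζ, hsub ζ h5, h6⟩) (measurableSet_list _).nullMeasurableSet (measure_ne_top _ _)]
    exact tsub_le_iff_left.2 hcok
  · have : {Z | ∃ s x, (act c (hist c s) x ∧ (Nat.unpair x).1 = e) ∧
      (∃ t < s + 1, Z ∈ Sg c n t) ∧ ¬ ∃ t < x + 1, Z ∈ Sg c n t} = ∅ := by
      ext Z
      simp only [Set.mem_ofPred_eq, Set.mem_empty_iff_false, iff_false]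
      rintro ⟨s, x, h1, _⟩
      exact h ⟨s, x, h1⟩
    rw [this]; simp

theorem ts_agree {W W' : List ℕ} {t : ℕ} (h : ∀ i < t, (i ∈ W ↔ i ∈ W')) {s : ℕ} (hs : t ≤ s) :
    ts W t <+: ts W' s := by
  have : ts W t = ts W' t := by
    unfold ts pre
    refine List.map_congr_left fun i hi => ?_
    rw [List.mem_range] at hi
    simp [h i hi]
  rw [this]
  exact pre_prefix _ hs

theorem VV_cover (hc : ∀ x, E x ↔ ∃ r, stp c r x) (n : ℕ) :
    VV c n ⊆ UE E (TT c) n ∪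
      ((⋃ e ∈ Finset.range n, {Z | ∃ s x, act c (hist c s) x ∧ (Nat.unpair x).1 = e ∧
        Z ∈ Sg c n s}) ∪
      ⋃ k : ℕ, {Z | ∃ s x, (act c (hist c s) x ∧ (Nat.unpair x).1 = n + k) ∧
      (∃ t < s + 1, Z ∈ Sg c n t) ∧ ¬ ∃ t < x + 1, Z ∈ Sg c n t}) := by
  classical
  intro Z hZ
  have hZ' : ∃ s, Z ∈ Sg c n s := hZ
  obtain ⟨t, ht, htmin⟩ : ∃ t, Z ∈ Sg c n t ∧ ∀ t' < t, Z ∉ Sg c n t' :=
    ⟨Nat.find hZ', Nat.find_spec hZ', fun t' h => Nat.find_min hZ' h⟩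
  by_cases hag : ∀ i < t, (i ∈ WW c t ↔ TT c i = true)
  · left
    obtain ⟨ζ, h1, h2⟩ := ht
    refine Lst_sub hc (TT c) t n ⟨ζ, ?_, h2⟩
    have : ts (WW c t) t = pre (TT c) t := by
      unfold ts pre
      refine List.map_congr_left fun i hi => ?_
      rw [List.mem_range] at hi
      have := hag i hi
      by_cases h : i ∈ WW c t
      · simp [h, this.1 h]
      · have h' : TT c i = false := by
          rw [← Bool.not_eq_true]
          exact fun h2 => h (this.2 h2)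
        simp [h, h']
    rwa [← this]
  · right
    push Not at hag
    obtain ⟨i, hi, hne⟩ := hag
    have hiT : TT c i = true ∧ i ∉ WW c t := by
      rcases hne with ⟨h1, h2⟩ | ⟨h1, h2⟩
      · exact absurd ((TT_iff c i).2 ⟨t, h1⟩) h2
      · exact ⟨h2, h1⟩
    obtain ⟨s', hs'⟩ := (TT_iff c i).1 hiT.1
    obtain ⟨s1, _, hact1, hmem1⟩ := exists_act_of_mem c hs'
    have hs1t : t ≤ s1 := by
      by_contra hlt
      exact hiT.2 (WW_mono c (by omega) hmem1)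
    -- first stage at which something below `t` is enumerated
    have hex : ∃ s, t ≤ s ∧ ∃ x < t, act c (hist c s) x := ⟨s1, hs1t, i, hi, hact1⟩
    obtain ⟨s, ⟨hts, x, hx, hact⟩, hsmin⟩ : ∃ s, (t ≤ s ∧ ∃ x < t, act c (hist c s) x) ∧
        ∀ s'' < s, ¬ (t ≤ s'' ∧ ∃ x < t, act c (hist c s'') x) :=
      ⟨Nat.find hex, Nat.find_spec hex, fun s'' h => Nat.find_min hex h⟩
    have hsame : ∀ j < t, (j ∈ WW c t ↔ j ∈ WW c s) := by
      intro j hj
      refine ⟨WW_mono c hts, fun h => ?_⟩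
      by_contra hnot
      obtain ⟨s2, h2, h3, h4⟩ := exists_act_of_mem c h
      refine hsmin s2 h2 ⟨?_, j, hj, h3⟩
      by_contra hlt
      exact hnot (WW_mono c (by omega) h4)
    have hZs : Z ∈ Sg c n s := by
      obtain ⟨ζ, h1, h2⟩ := ht
      exact ⟨ζ, Lst_mono (ts_agree hsame hts) h1, h2⟩
    by_cases hen : (Nat.unpair x).1 < n
    · left
      simp only [Set.mem_iUnion, Finset.mem_range]
      exact ⟨(Nat.unpair x).1, hen, s, x, hact, rfl, hZs⟩
    · right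
      simp only [Set.mem_iUnion]
      refine ⟨(Nat.unpair x).1 - n, s, x, ⟨hact, by omega⟩, ⟨t, by omega, ht⟩, ?_⟩
      rintro ⟨t', h1, h2⟩
      exact htmin t' (by omega) h2

theorem lam_VV_le (hc : ∀ x, E x ↔ ∃ r, stp c r x) (hEm : ∀ A n, lam (UE E A n) ≤ (1 / 2) ^ n)
    (n : ℕ) : lam (VV c n) ≤ (n + 2 : ℕ) * (1 / 2) ^ n := by
  refine le_trans (measure_mono (VV_cover hc n)) ?_
  refine le_trans (measure_union_le _ _) ?_
  refine le_trans (add_le_add (hEm _ _) (measure_union_le _ _)) ?_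
  have h1 : lam (⋃ e ∈ Finset.range n, {Z | ∃ s x, act c (hist c s) x ∧ (Nat.unpair x).1 = e ∧
        Z ∈ Sg c n s}) ≤ n * (1 / 2) ^ n := by
    refine le_trans (measure_biUnion_finset_le _ _) ?_
    refine le_trans (Finset.sum_le_sum fun e _ => lam_AA_le hc hEm n e) ?_
    simp
  have h2 : lam (⋃ k : ℕ, {Z | ∃ s x, (act c (hist c s) x ∧ (Nat.unpair x).1 = n + k) ∧
      (∃ t < s + 1, Z ∈ Sg c n t) ∧ ¬ ∃ t < x + 1, Z ∈ Sg c n t}) ≤ (1 / 2) ^ n := by
    refine le_trans (measure_iUnion_le _) ?_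
    rw [← tsum_half_pow n]
    exact ENNReal.tsum_le_tsum fun k => lam_BB_le c n (n + k) (by omega)
  refine le_trans (add_le_add le_rfl (add_le_add h1 h2)) (le_of_eq ?_)
  push_cast
  ring

theorem UE_sub_VV (hc : ∀ x, E x ↔ ∃ r, stp c r x) (n : ℕ) : UE E (TT c) n ⊆ VV c n := by
  intro Z hZ
  obtain ⟨k, hk⟩ := UE_sub hc hZ
  obtain ⟨ζ, h1, h2⟩ := hk k le_rfl
  obtain ⟨s₀, hs₀⟩ := exists_agree c k
  refine ⟨max k s₀, ζ, Lst_mono ?_ h1, h2⟩
  have : pre (TT c) k = ts (WW c (max k s₀)) k := by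
    unfold ts pre
    refine List.map_congr_left fun i hi => ?_
    rw [List.mem_range] at hi
    have := hs₀ (max k s₀) (le_max_right _ _) i hi
    by_cases h : i ∈ WW c (max k s₀)
    · simp [h, this.1 h]
    · have h' : TT c i = false := by
        rw [← Bool.not_eq_true]
        exact fun h2 => h (this.2 h2)
      simp [h, h']
  rw [this]
  exact pre_prefix _ (le_max_left _ _)

theorem two_n_aux (n : ℕ) : 2 * n + 4 + 2 ≤ 2 ^ (n + 4) := by
  induction n with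
  | zero => norm_num
  | succ n ih =>
    rw [show n + 1 + 4 = (n + 4) + 1 by ring, pow_succ]
    omega

theorem lowForRandom_TT (hc : ∀ x, E x ↔ ∃ r, stp c r x)
    (hEm : ∀ A n, lam (UE E A n) ≤ (1 / 2) ^ n)
    (hEU : ∀ A X, MLR A X ↔ ∃ n, X ∉ UE E A n) {X : ℕ → Bool} (hX : MLR (fun _ => false) X) :
    MLR (TT c) X := by
  have hS : S1 fun x : List Bool × ℕ × List Bool => ∃ s : ℕ,
      x.2.2 ∈ Lst c (ts ((hist c s).getD s []) s) (2 * x.2.1 + 4) := by
    refine S1.ex (S1.of_prim ?_)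
    refine (PP.ex_mem (α := (List Bool × ℕ × List Bool) × ℕ)
      (f := fun y => Lst c (ts ((hist c y.2).getD y.2 []) y.2) (2 * y.1.2.1 + 4))
      (p := fun y ζ => ζ = y.1.2.2) ?_ ?_).of_eq fun y => by simp
    · exact Primrec.eq.comp Primrec.snd (Primrec.snd.comp (Primrec.snd.comp (Primrec.fst.comp
        Primrec.fst)))
    · refine primrec_Lst.comp (g := fun y : (List Bool × ℕ × List Bool) × ℕ =>
        (c, ts ((hist c y.2).getD y.2 []) y.2, 2 * y.1.2.1 + 4)) ?_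
      exact (Primrec.const c).pair ((primrec_ts.comp ((Primrec.list_getD []).comp
        ((primrec_hist c).comp Primrec.snd) Primrec.snd) Primrec.snd).pair
        (Primrec.nat_add.comp (Primrec.nat_mul.comp (Primrec.const 2) (Primrec.fst.comp
          (Primrec.snd.comp Primrec.fst))) (Primrec.const 4)))
  obtain ⟨E', hE', hEE'⟩ : ∃ E' : List Bool × ℕ × List Bool → Prop, S1 E' ∧ ∀ x, E' x ↔
      ∃ s : ℕ, x.2.2 ∈ Lst c (ts ((hist c s).getD s []) s) (2 * x.2.1 + 4) :=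
    ⟨_, hS, fun _ => Iff.rfl⟩
  have hset : ∀ A n, UE E' A n = VV c (2 * n + 4) := by
    intro A n
    ext Z
    simp only [UE, VV, Sg, Set.mem_ofPred_eq, hEE']
    constructor
    · rintro ⟨_, t, s, h⟩
      exact ⟨s, pre Z t, h, mem_cyl_pre _ _⟩
    · rintro ⟨s, ζ, h1, h2⟩
      rw [mem_cyl_iff] at h2
      refine ⟨0, ζ.length, s, ?_⟩
      rw [h2]
      exact h1
  have hT : IsMLTest (fun _ => false) (UE E' (fun _ => false)) := by
    refine isMLTest_of_E hE' fun n => ?_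
    rw [hset]
    refine le_trans (lam_VV_le hc hEm _) ?_
    rw [ennreal_aux]
    calc (2 * n + 4 + 2) * 2 ^ n ≤ 2 ^ (n + 4) * 2 ^ n := Nat.mul_le_mul_right _ (two_n_aux n)
      _ = 2 ^ (2 * n + 4) := by rw [← pow_add]; congr 1; ring
  have h := hX _ hT
  rw [Set.mem_iInter] at h
  push Not at h
  obtain ⟨n, hn⟩ := h
  rw [hset] at hn
  rw [hEU]
  exact ⟨2 * n + 4, fun h => hn (UE_sub_VV hc _ h)⟩

theorem lam_VV_tail (c : Code) (n e : ℕ) : ∃ x₀, ∀ x ≥ x₀, ∀ s,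
    lam {Z | ∃ t < s, Z ∈ Sg c n t} ≤ lam {Z | ∃ t < x, Z ∈ Sg c n t} + (1 / 2) ^ e := by
  obtain ⟨G, hG⟩ : ∃ G : ℕ → Set (ℕ → Bool), G = fun s => {Z | ∃ t < s, Z ∈ Sg c n t} := ⟨_, rfl⟩
  have hmono : Monotone G := by
    rw [hG]
    rintro s s' h Z ⟨t, ht, h2⟩
    exact ⟨t, by omega, h2⟩
  have hlim : lam (⋃ s, G s) = ⨆ s, lam (G s) := hmono.measure_iUnion
  have hle : ∃ x₀, lam (⋃ s, G s) ≤ lam (G x₀) + (1 / 2) ^ e := by
    by_contra hcon
    push Not at hcon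
    have h1 : (⨆ s, lam (G s)) + (1 / 2) ^ e ≤ lam (⋃ s, G s) := by
      rw [ENNReal.iSup_add]
      exact iSup_le fun s => le_of_lt (hcon s)
    rw [← hlim] at h1
    have h2 : lam (⋃ s, G s) < lam (⋃ s, G s) + (1 / 2) ^ e :=
      ENNReal.lt_add_right (measure_ne_top _ _) (pow_ne_zero _ (by simp))
    exact absurd (lt_of_lt_of_le h2 h1) (lt_irrefl _)
  obtain ⟨x₀, hx₀⟩ := hle
  refine ⟨x₀, fun x hx s => ?_⟩
  have h1 : lam (G s) ≤ lam (⋃ s, G s) := measure_mono (Set.subset_iUnion G s)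
  have h2 : lam (G x₀) ≤ lam (G x) := measure_mono (hmono hx)
  have h3 := le_trans h1 (le_trans hx₀ (add_le_add h2 le_rfl))
  rw [hG] at h3
  exact h3

theorem not_computable_TT (c : Code) : ¬ Computable (TT c) := by
  intro hcomp
  have h1 : Computable (fun n => (TT c n).toNat) := (Primrec.dom_bool Bool.toNat).to_comp.comp hcomp
  have h2 : Nat.Partrec (fun n => Part.some (TT c n).toNat) := Partrec.nat_iff.1 h1.partrec
  obtain ⟨d, hd⟩ := Code.exists_code.1 h2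
  set e := encode d with he
  have hev : ∀ x, (TT c x).toNat ∈ d.eval x := by
    intro x; rw [hd]; exact Part.mem_some _
  -- no element of column `e` is in `TT`
  have hcol : ∀ x, (Nat.unpair x).1 = e → TT c x = false := by
    intro x hx
    by_contra hT
    rw [Bool.not_eq_false] at hT
    obtain ⟨s, hs⟩ := (TT_iff c x).1 hT
    obtain ⟨t, _, hact, _⟩ := exists_act_of_mem c hs
    have h3 := hact.1.2.1
    rw [hx, he, Denumerable.ofNat_encode] at h3
    have h4 := Code.evaln_sound (show 0 ∈ d.evaln _ x from h3)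
    have h5 := Part.mem_unique h4 (hev x)
    rw [hT] at h5
    cases h5
  have hcolW : ∀ s, ∀ y ∈ WW c s, (Nat.unpair y).1 ≠ e := by
    intro s y hy h
    have := hcol y h
    have h2 := (TT_iff c y).2 ⟨s, hy⟩
    rw [this] at h2
    cases h2
  -- choose a good candidate
  have hx₀ : ∃ x₀, ∀ x ≥ x₀, ∀ n < e + 1, ∀ s,
      lam {Z | ∃ t < s, Z ∈ Sg c n t} ≤ lam {Z | ∃ t < x, Z ∈ Sg c n t} + (1 / 2) ^ (e + 1) := by
    have : ∀ N, ∃ x₀, ∀ x ≥ x₀, ∀ n < N, ∀ s,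
      lam {Z | ∃ t < s, Z ∈ Sg c n t} ≤ lam {Z | ∃ t < x, Z ∈ Sg c n t} + (1 / 2) ^ (e + 1) := by
      intro N
      induction N with
      | zero => exact ⟨0, by simp⟩
      | succ N ih =>
        obtain ⟨a, ha⟩ := ih
        obtain ⟨b, hb⟩ := lam_VV_tail c N (e + 1)
        refine ⟨max a b, fun x hx n hn s => ?_⟩
        rcases Nat.lt_succ_iff_lt_or_eq.1 hn with hn' | rfl
        · exact ha x (le_trans (le_max_left _ _) hx) n hn' s
        · exact hb x (le_trans (le_max_right _ _) hx) s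
    exact this (e + 1)
  obtain ⟨x₀, hx₀⟩ := hx₀
  set x := Nat.pair e x₀ with hx
  have hxe : (Nat.unpair x).1 = e := by rw [hx, Nat.unpair_pair]
  have hxx₀ : x₀ ≤ x := Nat.right_le_pair _ _
  have hTx : TT c x = false := hcol x hxe
  have h0 : 0 ∈ d.eval x := by
    have := hev x
    rw [hTx] at this
    exact this
  obtain ⟨k, hk⟩ := Code.evaln_complete.1 h0
  -- stage
  set s := x + k + 1 with hs
  have hready : ready c (hist c s) x := by
    refine ⟨⟨by rw [length_hist]; omega, ?_⟩, ?_, ?_⟩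
    · intro y hy
      rw [length_hist, Nat.add_sub_cancel] at hy
      rw [hxe]
      exact hcolW s y hy
    · rw [hxe, he, Denumerable.ofNat_encode, length_hist]
      exact Code.evaln_mono (by omega) hk
    · intro n hn
      rw [hxe] at hn ⊢
      rw [length_hist]
      have hsub : ∀ ζ ∈ VL c (hist c s) n (x + 1), ζ ∈ VL c (hist c s) n (s + 1) := by
        intro ζ hζ
        obtain ⟨t, ht, h3⟩ := mem_VL.1 hζ
        exact mem_VL.2 ⟨t, by omega, h3⟩
      rw [cok_iff _ (mlen_le_of_subset hsub)]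
      have e1 : {X | ∃ ζ ∈ VL c (hist c s) n (s + 1), X ∈ cyl ζ} =
          {Z | ∃ t < s + 1, Z ∈ Sg c n t} := by
        ext Z; exact mem_VLset c n s (s + 1) le_rfl Z
      have e2 : {X | ∃ ζ ∈ VL c (hist c s) n (x + 1), X ∈ cyl ζ} =
          {Z | ∃ t < x + 1, Z ∈ Sg c n t} := by
        ext Z; exact mem_VLset c n s (x + 1) (by omega) Z
      rw [e1, e2]
      exact hx₀ (x + 1) (by omega) n hn (s + 1)
  -- the least ready candidate of the column acts
  classical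
  have hex : ∃ x', (Nat.unpair x').1 = e ∧ ready c (hist c s) x' := ⟨x, hxe, hready⟩
  have hspec := Nat.find_spec hex
  have hact : act c (hist c s) (Nat.find hex) := by
    refine ⟨hspec.2, fun x' hx' h => ?_⟩
    rw [hspec.1] at h
    exact Nat.find_min hex hx' h
  have hmem : Nat.find hex ∈ WW c (s + 1) := (mem_WW_succ c s _).2 (Or.inr hact)
  exact hcolW _ _ hmem hspec.1

end

/-- There is a noncomputable set that is low for Martin-Löf randomness (Kučera and Terwijn). -/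
theorem exists_lowForRandom : ∃ T : ℕ → Bool, ¬ Computable T ∧
    ∀ X, MLR (fun _ => false) X → MLR T X := by
  obtain ⟨E, hE, _, hEm, hEU⟩ := exists_universal
  obtain ⟨c, hc⟩ := exists_code hE
  exact ⟨TT c, not_computable_TT c, fun X hX => lowForRandom_TT hc hEm hEU hX⟩

end Pool.Agent.Helper227
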