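import Pool.Agent.Helper227.Cover

set_option autoImplicit false

namespace Pool.Agent.Helper227

open MeasureTheory Encodable
open scoped ENNReal

/-- `M` is a prefix-free machine: a partial computable function from strings to strings whose
domain is prefix-free. -/
def IsMachine (M : List Bool →. List Bool) : Prop :=
  Partrec M ∧ ∀ σ τ : List Bool, (M σ).Dom → (M τ).Dom → σ <+: τ → σ = τ

/-- `U` is a universal (optimal) prefix-free machine. -/
def IsUniversal (U : List Bool →. List Bool) : Prop :=
  IsMachine U ∧ ∀ M : List Bool →. List Bool, IsMachine M → ∃ c : ℕ, ∀ τ y : List Bool,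
    y ∈ M τ → ∃ τ' : List Bool, τ'.length ≤ τ.length + c ∧ y ∈ U τ'

/-- Prefix-free Kolmogorov complexity with respect to `U`. -/
noncomputable def KU (U : List Bool →. List Bool) (y : List Bool) : ℕ :=
  sInf {n | ∃ τ : List Bool, τ.length = n ∧ y ∈ U τ}

/-- `A` is K-trivial: `K(A ↾ n) ≤ K(n) + c` for some constant `c` and all `n`; here the number
`n` is represented by the string `0^n`. -/
def KTrivial (U : List Bool →. List Bool) (A : ℕ → Bool) : Prop :=
  ∃ c : ℕ, ∀ n : ℕ, KU U ((List.range n).map A) ≤ KU U (List.replicate n false) + c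

theorem kraft {P : List Bool → Prop} (hP : ∀ σ τ, P σ → P τ → σ <+: τ → σ = τ)
    (F : Finset (List Bool)) (hF : ∀ σ ∈ F, P σ) : ∑ σ ∈ F, (1 / 2 : ℝ≥0∞) ^ σ.length ≤ 1 := by
  have h1 : ∀ σ ∈ F, (1 / 2 : ℝ≥0∞) ^ σ.length = lam (cyl σ) := fun σ _ => (lam_cyl σ).symm
  rw [Finset.sum_congr rfl h1, ← measure_biUnion_finset]
  · exact prob_le_one
  · intro σ hσ τ hτ hne
    rw [Function.onFun, Set.disjoint_left]
    intro X h3 h4
    rw [mem_cyl_iff] at h3 h4
    apply hne
    rcases Nat.le_total σ.length τ.length with h | h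
    · refine hP σ τ (hF σ hσ) (hF τ hτ) ?_
      rw [← h3, ← h4]
      exact pre_prefix X h
    · refine (hP τ σ (hF τ hτ) (hF σ hσ) ?_).symm
      rw [← h3, ← h4]
      exact pre_prefix X h
  · exact fun σ _ => measurableSet_cyl σ

theorem s1_output {U : List Bool →. List Bool} (hU : Partrec U) :
    S1 fun x : List Bool × ℕ => List.replicate x.2 false ∈ U x.1 := by
  have h1 : Partrec fun x : List Bool × ℕ => (U x.1).bind fun y =>
      (if y = (List.range x.2).map (fun _ => false) then Part.some () else Part.none) := by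
    refine Partrec.bind (hU.comp Computable.fst) ?_
    have h2 : PrimrecPred fun z : (List Bool × ℕ) × List Bool =>
        z.2 = (List.range z.1.2).map (fun _ => false) :=
      Primrec.eq.comp Primrec.snd (Primrec.list_map (Primrec.list_range.comp
        (Primrec.snd.comp Primrec.fst)) (Primrec.const false))
    have h3 : Partrec fun z : (List Bool × ℕ) × List Bool =>
        (cond (decide (z.2 = (List.range z.1.2).map (fun _ => false))) (Part.some ())
          Part.none : Part Unit) :=
      Partrec.cond h2.decide.to_comp (Computable.const ()).partrec Partrec.none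
    refine h3.of_eq fun z => ?_
    by_cases h : z.2 = (List.range z.1.2).map (fun _ => false) <;> simp [h]
  refine (S1.of_re h1.dom_re).of_eq fun x => ?_
  have hrep : (List.range x.2).map (fun _ => false) = List.replicate x.2 false := by
    refine List.ext_getElem (by simp) fun i h1 h2 => by simp
  simp only [Part.bind_dom, hrep]
  constructor
  · rintro ⟨h, h2⟩
    by_cases h3 : (U x.1).get h = List.replicate x.2 false
    · rw [← h3]; exact Part.get_mem h
    · rw [if_neg h3] at h2
      exact h2.elim
  · intro h
    refine ⟨Part.dom_iff_mem.2 ⟨_, h⟩, ?_⟩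
    have h3 : (U x.1).get (Part.dom_iff_mem.2 ⟨_, h⟩) = List.replicate x.2 false :=
      Part.get_eq_of_mem h _
    rw [h3, if_pos rfl]
    trivial

theorem IsUniversal.exists_program {U : List Bool →. List Bool} (hU : IsUniversal U)
    (y : List Bool) : ∃ τ : List Bool, y ∈ U τ := by
  let M : List Bool →. List Bool := fun τ => cond (decide (τ = [])) (Part.some y) Part.none
  have hM : IsMachine M := by
    refine ⟨?_, ?_⟩
    · have h2 : PrimrecPred fun z : List Bool => z = [] :=
        Primrec.eq.comp Primrec.id (Primrec.const [])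
      exact Partrec.cond h2.decide.to_comp (Computable.const y).partrec Partrec.none
    · intro σ τ hσ hτ _
      have key : ∀ ρ : List Bool, (M ρ).Dom → ρ = [] := by
        intro ρ hρ
        by_contra hne
        simp only [M, decide_eq_false hne, cond_false] at hρ
        exact hρ.elim
      rw [key σ hσ, key τ hτ]
  obtain ⟨c, hc⟩ := hU.2 M hM
  obtain ⟨τ', _, h⟩ := hc [] y (by simp [M])
  exact ⟨τ', h⟩

theorem IsUniversal.exists_min {U : List Bool →. List Bool} (hU : IsUniversal U)
    (y : List Bool) : ∃ τ : List Bool, τ.length = KU U y ∧ y ∈ U τ := by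
  have hne : {n | ∃ τ : List Bool, τ.length = n ∧ y ∈ U τ}.Nonempty := by
    obtain ⟨τ, hτ⟩ := hU.exists_program y
    exact ⟨τ.length, τ, rfl, hτ⟩
  exact Nat.sInf_mem hne

theorem KU_le {U : List Bool →. List Bool} {y τ : List Bool} (h : y ∈ U τ) :
    KU U y ≤ τ.length := Nat.sInf_le ⟨τ, rfl, h⟩

end Pool.Agent.Helper227
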