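import Pool.Agent.Helper227.Test

set_option autoImplicit false

namespace Pool.Agent.Helper227

open Encodable MeasureTheory
open scoped ENNReal

instance : IsProbabilityMeasure lam := by unfold lam; infer_instance

theorem unif_singleton (b : Bool) : (PMF.uniformOfFintype Bool).toMeasure {b} = 1 / 2 := by
  rw [PMF.toMeasure_apply_singleton _ _ (measurableSet_singleton _)]
  simp

theorem lam_coord (F : Finset ℕ) (f : ℕ → Bool) :
    lam {X | ∀ i ∈ F, X i = f i} = (1 / 2) ^ F.card := by
  have h : {X : ℕ → Bool | ∀ i ∈ F, X i = f i} = Set.pi (F : Set ℕ) (fun i => {f i}) := by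
    ext X; simp [Set.mem_pi]
  rw [h, lam, Measure.infinitePi_pi _ (fun i _ => measurableSet_singleton _)]
  simp

theorem cyl_eq (σ : List Bool) :
    cyl σ = {X | ∀ i ∈ Finset.range σ.length, X i = σ.getD i false} := by
  ext X
  simp only [cyl, Set.mem_ofPred_eq, Finset.mem_range]
  refine forall_congr' fun i => forall_congr' fun h => ?_
  simp [List.getD, h]

theorem lam_cyl (σ : List Bool) : lam (cyl σ) = (1 / 2) ^ σ.length := by
  rw [cyl_eq, lam_coord, Finset.card_range]

theorem measurableSet_cyl (σ : List Bool) : MeasurableSet (cyl σ) := by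
  have : cyl σ = ⋂ i : Fin σ.length, {X : ℕ → Bool | X i = σ[i]} := by
    ext X
    simp only [cyl, Set.mem_ofPred_eq, Set.mem_iInter]
    exact ⟨fun h i => h i i.2, fun h i hi => h ⟨i, hi⟩⟩
  rw [this]
  refine MeasurableSet.iInter fun i => ?_
  exact (measurable_pi_apply (i : ℕ)) (measurableSet_singleton _)

theorem measurableSet_pre (n : ℕ) (P : List Bool → Prop) :
    MeasurableSet {X : ℕ → Bool | P (pre X n)} := by
  classical
  have : {X : ℕ → Bool | P (pre X n)} =
      ⋃ σ ∈ {σ : List Bool | P σ ∧ σ.length = n}, cyl σ := by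
    ext X
    simp only [Set.mem_ofPred_eq, Set.mem_iUnion, exists_prop]
    constructor
    · intro h
      exact ⟨_, ⟨h, by simp⟩, mem_cyl_pre X n⟩
    · rintro ⟨σ, ⟨h1, h2⟩, h3⟩
      rw [mem_cyl_iff, h2] at h3
      rwa [h3]
  rw [this]
  exact MeasurableSet.biUnion (Set.to_countable _) fun σ _ => measurableSet_cyl σ

theorem measurableSet_open (P : ℕ → List Bool → Prop) :
    MeasurableSet {X : ℕ → Bool | ∃ t, P t (pre X t)} := by
  have : {X : ℕ → Bool | ∃ t, P t (pre X t)} = ⋃ t, {X | P t (pre X t)} := by ext; simp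
  rw [this]
  exact MeasurableSet.iUnion fun t => measurableSet_pre t _

theorem measurableSet_UE (E : List Bool × ℕ × List Bool → Prop) (A : ℕ → Bool) (n : ℕ) :
    MeasurableSet (UE E A n) := by
  have : UE E A n = {X : ℕ → Bool | ∃ t, (fun _ ζ => ∃ s, E (pre A s, n, ζ)) t (pre X t)} := by
    ext X
    simp only [UE, Set.mem_ofPred_eq]
    exact exists_comm
  rw [this]
  exact measurableSet_open (fun _ ζ => ∃ s, E (pre A s, n, ζ))

theorem cyl_disjoint {σ τ : List Bool} (hl : σ.length = τ.length) (h : σ ≠ τ) :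
    Disjoint (cyl σ) (cyl τ) := by
  rw [Set.disjoint_left]
  intro X h1 h2
  rw [mem_cyl_iff] at h1 h2
  rw [hl, h2] at h1
  exact h h1.symm

theorem lam_finset (G : Finset (List Bool)) (N : ℕ) (hG : ∀ σ ∈ G, σ.length = N) :
    lam {X | pre X N ∈ G} = G.card * (1 / 2) ^ N := by
  have : {X : ℕ → Bool | pre X N ∈ G} = ⋃ σ ∈ G, cyl σ := by
    ext X
    simp only [Set.mem_ofPred_eq, Set.mem_iUnion, exists_prop]
    constructor
    · intro h
      exact ⟨_, h, mem_cyl_pre _ _⟩
    · rintro ⟨σ, h1, h2⟩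
      rw [mem_cyl_iff, hG σ h1] at h2
      rwa [h2]
  rw [this, measure_biUnion_finset]
  · rw [Finset.sum_congr rfl (fun σ hσ => by rw [lam_cyl, hG σ hσ])]
    simp
  · intro σ hσ τ hτ h
    exact cyl_disjoint (by rw [hG σ hσ, hG τ hτ]) h
  · intro σ _
    exact measurableSet_cyl σ

/-- all strings of length `n` -/
def allStr : ℕ → List (List Bool)
  | 0 => [[]]
  | n + 1 => (allStr n).flatMap fun τ => [false :: τ, true :: τ]

theorem mem_allStr {n : ℕ} {τ : List Bool} : τ ∈ allStr n ↔ τ.length = n := by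
  induction n generalizing τ with
  | zero => simp [allStr]
  | succ n ih =>
    simp only [allStr, List.mem_flatMap, ih, List.mem_cons, List.not_mem_nil, or_false]
    constructor
    · rintro ⟨ρ, h1, rfl | rfl⟩ <;> simp [h1]
    · intro h
      cases τ with
      | nil => simp at h
      | cons b τ =>
        refine ⟨τ, by simpa using h, ?_⟩
        cases b <;> simp

theorem nodup_allStr (n : ℕ) : (allStr n).Nodup := by
  induction n with
  | zero => simp [allStr]
  | succ n ih =>
    simp only [allStr]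
    rw [List.nodup_flatMap]
    refine ⟨fun τ _ => by simp, ?_⟩
    refine List.Nodup.pairwise_of_forall_ne ih ?_
    intro a _ b _ hab
    simp only [Function.onFun, List.disjoint_left]
    intro c hc hc2
    simp only [List.mem_cons, List.not_mem_nil, or_false] at hc hc2
    rcases hc with rfl | rfl <;> rcases hc2 with h | h <;> simp_all

theorem length_allStr (n : ℕ) : (allStr n).length = 2 ^ n := by
  induction n with
  | zero => simp [allStr]
  | succ n ih => simp [allStr, ih, pow_succ]

theorem primrec_allStr : Primrec allStr := by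
  have : Primrec fun n : ℕ => (Nat.rec [[]] (fun _ IH => IH.flatMap fun τ : List Bool =>
      [false :: τ, true :: τ]) n : List (List Bool)) := by
    refine Primrec.nat_rec' (f := fun n : ℕ => n) (g := fun _ => ([[]] : List (List Bool)))
      (h := fun _ p => p.2.flatMap fun τ => [false :: τ, true :: τ]) Primrec.id (Primrec.const _) ?_
    refine Primrec.list_flatMap (Primrec.snd.comp Primrec.snd) ?_
    refine Primrec.list_cons.comp (Primrec.list_cons.comp (Primrec.const false) Primrec.snd) ?_
    exact Primrec.list_cons.comp (Primrec.list_cons.comp (Primrec.const true) Primrec.snd)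
      (Primrec.const [])
  refine this.of_eq fun n => ?_
  induction n with
  | zero => rfl
  | succ n ih => simp only [ih, allStr]

/-- count of strings of length `N` extending a member of `L` -/
def cnt (L : List (List Bool)) (N : ℕ) : ℕ :=
  ((allStr N).filter fun τ => ∃ ζ ∈ L, ζ = τ.take ζ.length).length

/-- maximal length -/
def mlen (L : List (List Bool)) : ℕ := L.foldr (fun ζ m => max ζ.length m) 0

theorem le_mlen {L : List (List Bool)} {ζ : List Bool} (h : ζ ∈ L) : ζ.length ≤ mlen L := by
  induction L with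
  | nil => simp at h
  | cons a L ih =>
    simp only [mlen, List.foldr_cons] at ih ⊢
    rcases List.mem_cons.1 h with rfl | h
    · exact le_max_left _ _
    · exact le_trans (ih h) (le_max_right _ _)

theorem lam_list (L : List (List Bool)) {N : ℕ} (hN : mlen L ≤ N) :
    lam {X | ∃ ζ ∈ L, X ∈ cyl ζ} = cnt L N * (1 / 2) ^ N := by
  classical
  have h := lam_finset (((allStr N).filter fun τ => ∃ ζ ∈ L, ζ = τ.take ζ.length).toFinset) N
    (by intro σ hσ; simp only [List.mem_toFinset, List.mem_filter, mem_allStr] at hσ; exact hσ.1)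
  rw [List.toFinset_card_of_nodup ((nodup_allStr N).filter _)] at h
  rw [cnt, ← h]
  congr 1
  ext X
  simp only [Set.mem_ofPred_eq, List.mem_toFinset, List.mem_filter, mem_allStr, length_pre,
    true_and, decide_eq_true_eq]
  refine exists_congr fun ζ => and_congr_right fun hζ => ?_
  rw [take_pre _ _ _ (le_trans (le_mlen hζ) hN), mem_cyl_iff]
  exact eq_comm

/-- the measure of the open set given by a finite list is at most `2 ^ (-n)` -/
def MOK (L : List (List Bool)) (n : ℕ) : Prop := cnt L (mlen L) * 2 ^ n ≤ 2 ^ mlen L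

theorem ennreal_aux (c N n : ℕ) : (c : ℝ≥0∞) * (1 / 2) ^ N ≤ (1 / 2) ^ n ↔ c * 2 ^ n ≤ 2 ^ N := by
  have h2 : (2 : ℝ≥0∞) ≠ 0 := by norm_num
  have h3 : (2 : ℝ≥0∞) ≠ ⊤ := by norm_num
  rw [one_div, ← ENNReal.inv_pow, ← ENNReal.inv_pow, ← div_eq_mul_inv,
    ENNReal.div_le_iff (by positivity) (ENNReal.pow_ne_top h3), mul_comm, ← div_eq_mul_inv,
    ENNReal.le_div_iff_mul_le (Or.inl (by positivity)) (Or.inl (ENNReal.pow_ne_top h3))]
  norm_cast

theorem mok_iff (L : List (List Bool)) (n : ℕ) :
    MOK L n ↔ lam {X | ∃ ζ ∈ L, X ∈ cyl ζ} ≤ (1 / 2) ^ n := by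
  rw [lam_list L le_rfl, ennreal_aux, MOK]

theorem primrec_mlen : Primrec mlen := by
  unfold mlen
  exact Primrec.list_foldr (h := fun (_ : List (List Bool)) (p : List Bool × ℕ) =>
    max p.1.length p.2) Primrec.id (Primrec.const 0)
    (Primrec.nat_max.comp (Primrec.list_length.comp (Primrec.fst.comp Primrec.snd))
      (Primrec.snd.comp Primrec.snd))

theorem primrec_cnt : Primrec₂ cnt := by
  have h1 : PrimrecRel (fun (τ : List Bool) (L : List (List Bool)) =>
      ∃ ζ ∈ L, ζ = τ.take ζ.length) := by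
    refine PP.ex_mem (α := List Bool × List (List Bool)) (f := fun x => x.2)
      (p := fun x ζ => ζ = x.1.take ζ.length) ?_ Primrec.snd
    exact Primrec.eq.comp Primrec.snd (Primrec.list_take.comp
      (Primrec.list_length.comp Primrec.snd) (Primrec.fst.comp Primrec.fst))
  have h2 := h1.listFilter
  refine (Primrec.list_length.comp (h2.comp (primrec_allStr.comp Primrec.snd)
    (Primrec.fst (α := List (List Bool)) (β := ℕ)))).of_eq fun x => ?_
  rfl

theorem primrec_pow : Primrec₂ (fun a b : ℕ => a ^ b) := by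
  exact Primrec₂.unpaired'.1 Nat.Primrec.pow

theorem primrec_mok : PrimrecRel MOK := by
  unfold MOK
  refine Primrec.nat_le.comp ?_ ?_
  · exact Primrec.nat_mul.comp (primrec_cnt.comp Primrec.fst (primrec_mlen.comp Primrec.fst))
      (primrec_pow.comp (Primrec.const 2) Primrec.snd)
  · exact primrec_pow.comp (Primrec.const 2) (primrec_mlen.comp Primrec.fst)

/-- Lemma M: the measure of a uniformly c.e. open set exceeding a rational is c.e. -/
theorem s1_measure_gt {α : Type*} [Primcodable α] {P : α → List Bool → Prop}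
    (hP : S1 fun x : α × List Bool => P x.1 x.2) {a b : α → ℕ} (ha : Primrec a) (hb : Primrec b)
    (hb0 : ∀ x, b x ≠ 0) :
    S1 fun x => (a x : ℝ≥0∞) / (b x : ℝ≥0∞) < lam {X | ∃ t, P x (pre X t)} := by
  classical
  have hS : S1 fun x : α => ∃ N : ℕ, ∃ F : List (List Bool),
      ((∀ i < F.length, ∀ j < i, F.getD i [] ≠ F.getD j []) ∧ a x * 2 ^ N < F.length * b x) ∧
      ∀ ζ ∈ F, (ζ.length = N ∧ ∃ t : ℕ, t ≤ ζ.length ∧ P x (ζ.take t)) := by
    refine S1.ex (S1.ex (S1.and (S1.of_prim (PrimrecPred.and ?_ ?_))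
      (S1.all_mem (f := fun x : (α × ℕ) × List (List Bool) => x.2)
        (p := fun x ζ => ζ.length = x.1.2 ∧ ∃ t : ℕ, t ≤ ζ.length ∧ P x.1.1 (ζ.take t)) ?_
        Primrec.snd)))
    · refine PP.all_lt (α := (α × ℕ) × List (List Bool)) (f := fun x => x.2.length)
        (p := fun x i => ∀ j < i, x.2.getD i [] ≠ x.2.getD j []) ?_
        (Primrec.list_length.comp Primrec.snd)
      refine PP.all_lt (α := ((α × ℕ) × List (List Bool)) × ℕ) (f := fun x => x.2)
        (p := fun x j => x.1.2.getD x.2 [] ≠ x.1.2.getD j []) ?_ Primrec.snd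
      refine PrimrecPred.not (Primrec.eq.comp ?_ ?_)
      · exact (Primrec.list_getD []).comp (Primrec.snd.comp (Primrec.fst.comp Primrec.fst))
          (Primrec.snd.comp Primrec.fst)
      · exact (Primrec.list_getD []).comp (Primrec.snd.comp (Primrec.fst.comp Primrec.fst))
          Primrec.snd
    · refine Primrec.nat_lt.comp (Primrec.nat_mul.comp (ha.comp (Primrec.fst.comp Primrec.fst))
        (primrec_pow.comp (Primrec.const 2) (Primrec.snd.comp Primrec.fst)))
        (Primrec.nat_mul.comp (Primrec.list_length.comp Primrec.snd)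
          (hb.comp (Primrec.fst.comp Primrec.fst)))
    · refine S1.and (S1.of_prim ?_) (S1.ex (S1.and (S1.of_prim ?_) (S1.comp
        (f := fun x : (((α × ℕ) × List (List Bool)) × List Bool) × ℕ =>
          (x.1.1.1.1, List.take x.2 x.1.2)) hP ?_)))
      · exact Primrec.eq.comp (Primrec.list_length.comp Primrec.snd)
          (Primrec.snd.comp (Primrec.fst.comp Primrec.fst))
      · exact Primrec.nat_le.comp Primrec.snd (Primrec.list_length.comp
          (Primrec.snd.comp Primrec.fst))
      · exact (Primrec.fst.comp (Primrec.fst.comp (Primrec.fst.comp Primrec.fst))).pair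
          (Primrec.list_take.comp Primrec.snd (Primrec.snd.comp Primrec.fst))
  refine hS.of_eq fun x => ?_
  obtain ⟨W, hW⟩ : ∃ W : ℕ → Set (ℕ → Bool), W = fun N => {X | ∃ t ≤ N, P x (pre X t)} :=
    ⟨_, rfl⟩
  have hWm : Monotone W := by
    rw [hW]
    intro m n h X hX
    obtain ⟨t, ht, hX⟩ := hX
    exact ⟨t, le_trans ht h, hX⟩
  have hWU : {X | ∃ t, P x (pre X t)} = ⋃ N, W N := by
    ext X
    simp only [Set.mem_ofPred_eq, Set.mem_iUnion, hW]
    exact ⟨fun ⟨t, h⟩ => ⟨t, t, le_rfl, h⟩, fun ⟨_, t, _, h⟩ => ⟨t, h⟩⟩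
  have hb1 : (b x : ℝ≥0∞) ≠ 0 := by exact_mod_cast hb0 x
  have hb2 : (b x : ℝ≥0∞) ≠ ⊤ := ENNReal.natCast_ne_top _
  have key : ∀ c N : ℕ, ((a x : ℝ≥0∞) / (b x : ℝ≥0∞) < c * (1 / 2) ^ N) ↔
      a x * 2 ^ N < c * b x := by
    intro c N
    have h2 : (2 : ℝ≥0∞) ^ N ≠ 0 := by positivity
    have h3 : (2 : ℝ≥0∞) ^ N ≠ ⊤ := ENNReal.pow_ne_top (by norm_num)
    rw [one_div, ← ENNReal.inv_pow, ENNReal.div_lt_iff (Or.inl hb1) (Or.inl hb2), mul_right_comm,
      ← div_eq_mul_inv, ENNReal.lt_div_iff_mul_lt (Or.inl h2) (Or.inl h3)]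
    norm_cast
  constructor
  · rintro ⟨N, F, ⟨h1, h2⟩, h3⟩
    have hnd : F.Nodup := by
      rw [List.nodup_iff_getElem?_ne_getElem?]
      intro i j hij hj hc
      refine h1 j hj i hij ?_
      simp only [List.getD]
      rw [hc]
    have hle : lam {X | pre X N ∈ F.toFinset} ≤ lam {X | ∃ t, P x (pre X t)} := by
      refine measure_mono fun X hX => ?_
      simp only [Set.mem_ofPred_eq, List.mem_toFinset] at hX ⊢
      obtain ⟨_, t, ht, hP'⟩ := h3 _ hX
      rw [length_pre] at ht
      rw [take_pre _ _ _ ht] at hP'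
      exact ⟨t, hP'⟩
    refine lt_of_lt_of_le ?_ hle
    rw [lam_finset F.toFinset N (fun σ hσ => (h3 σ (by simpa using hσ)).1),
      List.toFinset_card_of_nodup hnd]
    exact (key _ _).2 h2
  · intro h
    rw [hWU, hWm.measure_iUnion] at h
    obtain ⟨N, hN⟩ := lt_iSup_iff.1 h
    set F := (allStr N).filter fun ζ => ∃ t ≤ ζ.length, P x (ζ.take t) with hF
    have hWN : W N = {X | pre X N ∈ F.toFinset} := by
      ext X
      simp only [hW, hF, Set.mem_ofPred_eq, List.mem_toFinset, List.mem_filter, mem_allStr,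
        length_pre, true_and, decide_eq_true_eq]
      refine exists_congr fun t => and_congr_right fun ht => ?_
      rw [take_pre _ _ _ ht]
    have hnd : F.Nodup := (nodup_allStr N).filter _
    rw [hWN, lam_finset F.toFinset N (fun σ hσ => by
      simp only [hF, List.mem_toFinset, List.mem_filter, mem_allStr] at hσ; exact hσ.1),
      List.toFinset_card_of_nodup hnd, key] at hN
    refine ⟨N, F, ⟨?_, hN⟩, ?_⟩
    · intro i hi j hj hc
      have hj' : j < F.length := by omega
      simp only [List.getD, List.getElem?_eq_getElem hi, List.getElem?_eq_getElem hj',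
        Option.getD_some] at hc
      have := (List.Nodup.getElem_inj_iff hnd).1 hc
      omega
    · intro ζ hζ
      simp only [hF, List.mem_filter, mem_allStr, decide_eq_true_eq] at hζ
      obtain ⟨h1, t, ht, hp⟩ := hζ
      exact ⟨h1, t, ht, hp⟩

end Pool.Agent.Helper227
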