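import Pool.Agent.Helper227.VL

set_option autoImplicit false

namespace Pool.Agent.Helper227

open Encodable MeasureTheory
open scoped ENNReal
open Nat.Partrec (Code)

theorem isOpen_cyl (σ : List Bool) : IsOpen (cyl σ) := by
  have : cyl σ = ⋂ i : Fin σ.length, {X : ℕ → Bool | X i = σ[i]} := by
    ext X
    simp only [cyl, Set.mem_ofPred_eq, Set.mem_iInter]
    exact ⟨fun h i => h i i.2, fun h i hi => h ⟨i, hi⟩⟩
  rw [this]
  refine isOpen_iInter_of_finite fun i => ?_
  have h : IsOpen ((fun X : ℕ → Bool => X (i : ℕ)) ⁻¹' {σ[i]}) :=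
    (isOpen_discrete _).preimage (continuous_apply _)
  exact h

/-- a neighbourhood contains a cylinder -/
theorem exists_cyl_subset {G : Set (ℕ → Bool)} (hG : IsOpen G) {X : ℕ → Bool} (hX : X ∈ G) :
    ∃ n, cyl (pre X n) ⊆ G := by
  obtain ⟨I, u, h1, h2⟩ := isOpen_pi_iff.1 hG X hX
  refine ⟨I.sup id + 1, fun Y hY => h2 ?_⟩
  rw [Set.mem_pi]
  intro i hi
  have hlt : i < I.sup id + 1 := Nat.lt_succ_of_le (Finset.le_sup (f := id) hi)
  have : Y i = X i := by
    have := hY i (by simpa using hlt)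
    rw [getElem_pre] at this
    exact this
  rw [this]
  exact (h1 i hi).2

/-- density lemma: a measurable set of positive measure has a cylinder in which it has relative
measure greater than one half. -/
theorem exists_dense_cyl {S : Set (ℕ → Bool)} (hS : MeasurableSet S) (hpos : lam S ≠ 0) :
    ∃ σ, lam (cyl σ) < 2 * lam (S ∩ cyl σ) := by
  by_contra hc
  push Not at hc
  have hfin : lam S ≠ ⊤ := measure_ne_top _ _
  have h1 : lam S < 2 * lam S := by
    rw [two_mul]
    exact ENNReal.lt_add_right hfin hpos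
  obtain ⟨G, hSG, hGo, hG⟩ := Set.exists_isOpen_lt_of_lt S _ h1
  -- minimal strings
  set M : Set (List Bool) := {σ | cyl σ ⊆ G ∧ ∀ n < σ.length, ¬ cyl (σ.take n) ⊆ G} with hM
  have hGU : G = ⋃ σ ∈ M, cyl σ := by
    classical
    ext X
    simp only [Set.mem_iUnion, exists_prop]
    constructor
    · intro hX
      have hex := exists_cyl_subset hGo hX
      refine ⟨pre X (Nat.find hex), ⟨Nat.find_spec hex, fun n hn => ?_⟩, mem_cyl_pre _ _⟩
      rw [length_pre] at hn
      rw [take_pre _ _ _ (le_of_lt hn)]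
      exact Nat.find_min hex hn
    · rintro ⟨σ, h1, h2⟩
      exact h1.1 h2
  have hdisj : M.PairwiseDisjoint cyl := by
    intro σ hσ τ hτ hne
    simp only [Function.onFun]
    rw [Set.disjoint_left]
    intro X h1 h2
    rw [mem_cyl_iff] at h1 h2
    rcases lt_trichotomy σ.length τ.length with h | h | h
    · refine hτ.2 _ h ?_
      rw [← h2, take_pre _ _ _ (le_of_lt h), h1]
      exact hσ.1
    · apply hne
      rw [← h1, ← h2, h]
    · refine hσ.2 _ h ?_
      rw [← h1, take_pre _ _ _ (le_of_lt h), h2]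
      exact hτ.1
  have hGm : lam G = ∑' σ : M, lam (cyl σ) := by
    rw [hGU]
    exact measure_biUnion M.to_countable hdisj (fun σ _ => measurableSet_cyl σ)
  have hSm : lam S = ∑' σ : M, lam (S ∩ cyl σ) := by
    have : S = ⋃ σ ∈ M, (S ∩ cyl σ) := by
      ext X
      simp only [Set.mem_iUnion, Set.mem_inter_iff, exists_prop]
      constructor
      · intro hX
        have := hSG hX
        rw [hGU] at this
        simp only [Set.mem_iUnion, exists_prop] at this
        obtain ⟨σ, h1, h2⟩ := this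
        exact ⟨σ, h1, hX, h2⟩
      · rintro ⟨σ, h1, h2, h3⟩
        exact h2
    conv_lhs => rw [this]
    refine measure_biUnion M.to_countable ?_ (fun σ _ => hS.inter (measurableSet_cyl σ))
    intro σ hσ τ hτ hne
    exact (hdisj hσ hτ hne).mono Set.inter_subset_right Set.inter_subset_right
  have : 2 * lam S ≤ lam G := by
    rw [hSm, hGm, ← ENNReal.tsum_mul_left]
    exact ENNReal.tsum_le_tsum fun σ => hc σ
  exact absurd (lt_of_lt_of_le hG this) (lt_irrefl _)

/-- the `c`-th partial functional decides `C` correctly on oracle `X` -/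
def cpt (c : Code) (C X : ℕ → Bool) : Prop :=
  ∀ n b, C n = b ↔ ∃ s, ∃ r, (c.evaln r (encode (pre X s, n, b))).isSome = true

theorem exists_cpt {C X : ℕ → Bool} (h : TLe C X) : ∃ c, cpt c C X := by
  obtain ⟨E, hE, _, eE⟩ := tLe_iff.1 h
  obtain ⟨c, hc⟩ := Nat.Partrec.Code.exists_code.1 hE.re
  refine ⟨c, fun n b => ?_⟩
  rw [eE]
  refine exists_congr fun s => ?_
  have h1 : (c.eval (encode (pre X s, n, b))).Dom ↔ E (pre X s, n, b) := by
    rw [hc]
    simp [Part.assert]
  rw [← h1]
  constructor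
  · intro h
    obtain ⟨y, hy⟩ := Part.dom_iff_mem.1 h
    obtain ⟨k, hk⟩ := Nat.Partrec.Code.evaln_complete.1 hy
    exact ⟨k, Option.isSome_iff_exists.2 ⟨y, hk⟩⟩
  · rintro ⟨n, hn⟩
    obtain ⟨y, hy⟩ := Option.isSome_iff_exists.1 hn
    exact Part.dom_iff_mem.2 ⟨y, Nat.Partrec.Code.evaln_sound hy⟩

theorem measurable_cpt (c : Code) (C : ℕ → Bool) : MeasurableSet {X | cpt c C X} := by
  have : {X | cpt c C X} = ⋂ n, ⋂ b, {X : ℕ → Bool | C n = b ↔ ∃ s, ∃ r,
      (c.evaln r (encode (pre X s, n, b))).isSome = true} := by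
    ext X; simp [cpt]
  rw [this]
  refine MeasurableSet.iInter fun n => MeasurableSet.iInter fun b => ?_
  have ho := measurableSet_open (fun _ ζ => ∃ r, (c.evaln r (encode (ζ, n, b))).isSome = true)
  by_cases h : C n = b
  · simpa only [h, true_iff] using ho
  · simp only [h, false_iff]
    exact ho.compl

/-- Sacks: the upper cone of a noncomputable set has measure zero. -/
theorem lam_cpt_eq_zero {C : ℕ → Bool} (hC : ¬ Computable C) (c : Code) :
    lam {X | cpt c C X} = 0 := by
  by_contra hpos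
  obtain ⟨σ, hσ⟩ := exists_dense_cyl (measurable_cpt c C) hpos
  apply hC
  apply computable_of_graph
  -- the majority vote
  have hP : S1 fun x : (ℕ × Bool) × List Bool => (σ.length ≤ x.2.length ∧
      x.2.take σ.length = σ) ∧ ∃ s : ℕ, ∃ r : ℕ, s ≤ x.2.length ∧
        (c.evaln r (encode (x.2.take s, x.1.1, x.1.2))).isSome = true := by
    refine S1.and (S1.of_prim (PrimrecPred.and ?_ ?_)) (S1.ex (S1.ex (S1.of_prim
      (PrimrecPred.and ?_ ?_))))
    · exact Primrec.nat_le.comp (Primrec.const _) (Primrec.list_length.comp Primrec.snd)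
    · exact Primrec.eq.comp (Primrec.list_take.comp (Primrec.const _) Primrec.snd) (Primrec.const _)
    · exact Primrec.nat_le.comp (Primrec.snd.comp Primrec.fst) (Primrec.list_length.comp
        (Primrec.snd.comp (Primrec.fst.comp Primrec.fst)))
    · refine Primrec.eq.comp (Primrec.option_isSome.comp (Nat.Partrec.Code.primrec_evaln.comp
        ((Primrec.snd.pair (Primrec.const c)).pair (Primrec.encode.comp ?_)))) (Primrec.const true)
      refine (Primrec.list_take.comp (Primrec.snd.comp Primrec.fst) (Primrec.snd.comp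
        (Primrec.fst.comp Primrec.fst))).pair ?_
      exact (Primrec.fst.comp (Primrec.fst.comp (Primrec.fst.comp Primrec.fst))).pair
        (Primrec.snd.comp (Primrec.fst.comp (Primrec.fst.comp Primrec.fst)))
  have hQ := s1_measure_gt (P := fun (x : ℕ × Bool) (ζ : List Bool) => (σ.length ≤ ζ.length ∧
      ζ.take σ.length = σ) ∧ ∃ s : ℕ, ∃ r : ℕ, s ≤ ζ.length ∧
        (c.evaln r (encode (ζ.take s, x.1, x.2))).isSome = true) hP
    (a := fun _ => 1) (b := fun _ => 2 ^ (σ.length + 1)) (Primrec.const _) (Primrec.const _)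
    (fun _ => by positivity)
  refine hQ.of_eq fun x => ?_
  obtain ⟨n, b⟩ := x
  have hset : {X : ℕ → Bool | ∃ t, (σ.length ≤ (pre X t).length ∧
      (pre X t).take σ.length = σ) ∧ ∃ s : ℕ, ∃ r : ℕ, s ≤ (pre X t).length ∧
        (c.evaln r (encode ((pre X t).take s, n, b))).isSome = true} =
      cyl σ ∩ {X | ∃ s, ∃ r, (c.evaln r (encode (pre X s, n, b))).isSome = true} := by
    ext X
    simp only [Set.mem_ofPred_eq, length_pre, Set.mem_inter_iff, mem_cyl_iff]
    constructor
    · rintro ⟨t, ⟨h1, h2⟩, s, r, h3, h4⟩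
      rw [take_pre _ _ _ h1] at h2
      rw [take_pre _ _ _ h3] at h4
      exact ⟨h2, s, r, h4⟩
    · rintro ⟨h1, s, r, h2⟩
      refine ⟨σ.length + s, ⟨by omega, by rw [take_pre _ _ _ (by omega)]; exact h1⟩, s, r,
        by omega, by rw [take_pre _ _ _ (by omega)]; exact h2⟩
  simp only
  rw [hset]
  have hhalf : ((1 : ℕ) : ℝ≥0∞) / ((2 ^ (σ.length + 1) : ℕ) : ℝ≥0∞) = (1 / 2) * lam (cyl σ) := by
    rw [lam_cyl]
    push_cast
    rw [← pow_succ', one_div, one_div, ENNReal.inv_pow]
  rw [hhalf]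
  have hfc : lam (cyl σ) ≠ ⊤ := measure_ne_top _ _
  have hhalf2 : (1 / 2 : ℝ≥0∞) * lam (cyl σ) < lam ({X | cpt c C X} ∩ cyl σ) := by
    rw [one_div, mul_comm, ← div_eq_mul_inv]
    exact ENNReal.div_lt_of_lt_mul' hσ
  constructor
  · intro h
    by_contra hne
    -- disjointness
    have hdis : Disjoint ({X | cpt c C X} ∩ cyl σ)
        (cyl σ ∩ {X | ∃ s, ∃ r, (c.evaln r (encode (pre X s, n, b))).isSome = true}) := by
      rw [Set.disjoint_left]
      rintro X ⟨h1, _⟩ ⟨_, h2⟩
      exact hne ((h1 n b).2 h2)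
    have hm2 : MeasurableSet (cyl σ ∩ {X | ∃ s, ∃ r,
        (c.evaln r (encode (pre X s, n, b))).isSome = true}) :=
      (measurableSet_cyl σ).inter
        (measurableSet_open (fun _ ζ => ∃ r, (c.evaln r (encode (ζ, n, b))).isSome = true))
    have hle : lam (({X | cpt c C X} ∩ cyl σ) ∪
        (cyl σ ∩ {X | ∃ s, ∃ r, (c.evaln r (encode (pre X s, n, b))).isSome = true})) ≤
        lam (cyl σ) := by
      refine measure_mono ?_
      rintro X (⟨_, h⟩ | ⟨h, _⟩) <;> exact h
    rw [measure_union hdis hm2] at hle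
    have h3 := ENNReal.add_lt_add hhalf2 h
    have h4 : (1 / 2 : ℝ≥0∞) * lam (cyl σ) + (1 / 2) * lam (cyl σ) = lam (cyl σ) := by
      rw [← add_mul, one_div, ENNReal.inv_two_add_inv_two, one_mul]
    rw [h4] at h3
    exact absurd (lt_of_lt_of_le h3 hle) (lt_irrefl _)
  · intro h
    refine lt_of_lt_of_le hhalf2 (measure_mono ?_)
    rintro X ⟨h1, h2⟩
    exact ⟨h2, (h1 n b).1 h⟩

/-- almost every set fails to compute the noncomputable set `C` -/
theorem ae_not_tLe {C : ℕ → Bool} (hC : ¬ Computable C) : ∀ᵐ X ∂lam, ¬ TLe C X := by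
  have h : ∀ᵐ X ∂lam, ∀ c : Code, ¬ cpt c C X := by
    rw [ae_all_iff]
    intro c
    have := lam_cpt_eq_zero hC c
    rw [ae_iff]
    simpa using this
  filter_upwards [h] with X hX hT
  obtain ⟨c, hc⟩ := exists_cpt hT
  exact hX c hc

end Pool.Agent.Helper227
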