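import Pool.Agent.Helper227.Use

set_option autoImplicit false

namespace Pool.Agent.Helper227

open Encodable MeasureTheory

theorem ceIn_iff {A : ℕ → Bool} {W : Set ℕ} :
    CEIn A W ↔ ∃ E : List Bool × ℕ → Prop, S1 E ∧
      (∀ σ τ n, σ <+: τ → E (σ, n) → E (τ, n)) ∧ ∀ n, n ∈ W ↔ ∃ s, E (pre A s, n) := by
  constructor
  · rintro ⟨f, hf, hW⟩
    obtain ⟨G, hG, mG, eG⟩ := recIn_graph (RecursiveIn.iff_nat.1 hf)
    refine ⟨fun x => ∃ m, G (x.1, x.2, m), S1.ex (hG.comp ?_), ?_, ?_⟩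
    · exact (Primrec.fst.comp Primrec.fst).pair ((Primrec.snd.comp Primrec.fst).pair Primrec.snd)
    · rintro σ τ n h ⟨m, hm⟩
      exact ⟨m, mG _ _ _ _ h hm⟩
    · intro n
      rw [hW, Part.dom_iff_mem]
      simp only [eG]
      exact exists_comm
  · rintro ⟨E, hE, -, eE⟩
    refine ⟨fun n => Part.assert (∃ s, E (pre A s, n)) fun _ => Part.some 0, ?_, ?_⟩
    · refine RecursiveIn.iff_nat.2 (recIn_of_graph (G := fun x => E (x.1, x.2.1) ∧ x.2.2 = 0) ?_ ?_)
      · refine S1.and (hE.comp ?_) (S1.of_prim ?_)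
        · exact Primrec.fst.pair (Primrec.fst.comp Primrec.snd)
        · exact Primrec.eq.comp (Primrec.snd.comp Primrec.snd) (Primrec.const 0)
      · intro n m
        refine Part.mem_assert_iff.trans ?_
        simp
    · intro n
      rw [eE]
      simp [Part.assert]

/-- The `E`-enumerated open set with oracle `A` and index `n`. -/
def UE (E : List Bool × ℕ × List Bool → Prop) (A : ℕ → Bool) (n : ℕ) : Set (ℕ → Bool) :=
  {X | ∃ s t, E (pre A s, n, pre X t)}

/-- monotone in both string arguments -/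
def Mono3 (E : List Bool × ℕ × List Bool → Prop) : Prop :=
  ∀ α α' n ζ ζ', α <+: α' → ζ <+: ζ' → E (α, n, ζ) → E (α', n, ζ')

theorem mem_cyl_iff {X : ℕ → Bool} {σ : List Bool} : X ∈ cyl σ ↔ pre X σ.length = σ := by
  constructor
  · intro h
    refine List.ext_getElem (by simp) fun i h1 h2 => ?_
    rw [getElem_pre]
    exact h i h2
  · intro h i hi
    have : (pre X σ.length)[i]'(by simpa using hi) = X i := getElem_pre _ _ _ _
    rw [← this]
    congr 1

theorem mem_cyl_pre (X : ℕ → Bool) (n : ℕ) : X ∈ cyl (pre X n) := by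
  rw [mem_cyl_iff]; simp

theorem cyl_subset {σ τ : List Bool} (h : σ <+: τ) : cyl τ ⊆ cyl σ := by
  intro X hX
  rw [mem_cyl_iff] at hX ⊢
  have h2 : σ <+: pre X τ.length := by rw [hX]; exact h
  exact (pre_eq_of_prefix h2).symm

theorem exists_mono3 {E : List Bool × ℕ × List Bool → Prop} (hE : S1 E) :
    ∃ E' : List Bool × ℕ × List Bool → Prop, S1 E' ∧ Mono3 E' ∧ ∀ A n, UE E' A n = UE E A n := by
  refine ⟨fun x => ∃ s : ℕ, ∃ t : ℕ, (s ≤ x.1.length ∧ t ≤ x.2.2.length) ∧
    E (x.1.take s, x.2.1, x.2.2.take t), ?_, ?_, ?_⟩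
  · refine S1.ex (S1.ex (S1.and (S1.of_prim ?_) (hE.comp ?_)))
    · refine PrimrecPred.and ?_ ?_
      · exact Primrec.nat_le.comp (Primrec.snd.comp Primrec.fst)
          (Primrec.list_length.comp (Primrec.fst.comp (Primrec.fst.comp Primrec.fst)))
      · exact Primrec.nat_le.comp Primrec.snd
          (Primrec.list_length.comp (Primrec.snd.comp (Primrec.snd.comp (Primrec.fst.comp Primrec.fst))))
    · exact (Primrec.list_take.comp (Primrec.snd.comp Primrec.fst)
        (Primrec.fst.comp (Primrec.fst.comp Primrec.fst))).pair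
        ((Primrec.fst.comp (Primrec.snd.comp (Primrec.fst.comp Primrec.fst))).pair
          (Primrec.list_take.comp Primrec.snd
            (Primrec.snd.comp (Primrec.snd.comp (Primrec.fst.comp Primrec.fst)))))
  · rintro α α' n ζ ζ' hα hζ ⟨s, t, ⟨hs, ht⟩, h⟩
    refine ⟨s, t, ⟨le_trans hs hα.length_le, le_trans ht hζ.length_le⟩, ?_⟩
    simp only at hs ht h ⊢
    rw [List.prefix_iff_eq_take] at hα hζ
    rw [hα, hζ, List.take_take, List.take_take, min_eq_left hs, min_eq_left ht] at h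
    exact h
  · intro A n
    ext X
    constructor
    · rintro ⟨s', t', s, t, ⟨hs, ht⟩, h⟩
      simp only [length_pre] at hs ht h
      rw [take_pre _ _ _ hs, take_pre _ _ _ ht] at h
      exact ⟨s, t, h⟩
    · rintro ⟨s, t, h⟩
      refine ⟨s, t, s, t, ⟨by simp, by simp⟩, ?_⟩
      simpa [take_pre _ _ _ le_rfl] using h

theorem isMLTest_of_E {A : ℕ → Bool} {E : List Bool × ℕ × List Bool → Prop} (hE : S1 E)
    (hm : ∀ n, lam (UE E A n) ≤ (1 / 2) ^ n) : IsMLTest A (UE E A) := by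
  refine ⟨⟨{m | ∃ s, ∃ ζ : List Bool, E (pre A s, (Nat.unpair m).1, ζ) ∧ encode ζ = (Nat.unpair m).2},
    ?_, ?_⟩, hm⟩
  · rw [ceIn_iff]
    refine ⟨fun x => ∃ s : ℕ, ∃ ζ : List Bool, (s ≤ x.1.length ∧
      encode ζ = (Nat.unpair x.2).2) ∧ E (x.1.take s, (Nat.unpair x.2).1, ζ), ?_, ?_, ?_⟩
    · refine S1.ex (S1.ex (S1.and (S1.of_prim (PrimrecPred.and ?_ ?_)) (hE.comp ?_)))
      · exact Primrec.nat_le.comp (Primrec.snd.comp Primrec.fst)
          (Primrec.list_length.comp (Primrec.fst.comp (Primrec.fst.comp Primrec.fst)))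
      · exact Primrec.eq.comp (Primrec.encode.comp Primrec.snd)
          (Primrec.snd.comp (Primrec.unpair.comp (Primrec.snd.comp (Primrec.fst.comp Primrec.fst))))
      · exact (Primrec.list_take.comp (Primrec.snd.comp Primrec.fst)
          (Primrec.fst.comp (Primrec.fst.comp Primrec.fst))).pair
          ((Primrec.fst.comp (Primrec.unpair.comp
            (Primrec.snd.comp (Primrec.fst.comp Primrec.fst)))).pair Primrec.snd)
    · rintro σ τ n h ⟨s, ζ, ⟨hs, h1⟩, h2⟩
      refine ⟨s, ζ, ⟨le_trans hs h.length_le, h1⟩, ?_⟩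
      simp only at hs h2 ⊢
      rw [List.prefix_iff_eq_take] at h
      rw [h, List.take_take, min_eq_left hs] at h2
      exact h2
    · intro n
      simp only [Set.mem_ofPred_eq, length_pre]
      constructor
      · rintro ⟨s, ζ, h1, h2⟩
        exact ⟨s, s, ζ, ⟨le_rfl, h2⟩, by rwa [take_pre _ _ _ le_rfl]⟩
      · rintro ⟨s', s, ζ, ⟨hs, h2⟩, h1⟩
        rw [take_pre _ _ _ hs] at h1
        exact ⟨s, ζ, h1, h2⟩
  · intro n
    ext X
    simp only [UE, Set.mem_ofPred_eq, Set.mem_iUnion, Nat.unpair_pair, exists_prop]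
    constructor
    · rintro ⟨s, t, h⟩
      exact ⟨pre X t, ⟨s, pre X t, h, rfl⟩, mem_cyl_pre _ _⟩
    · rintro ⟨σ, ⟨s, ζ, h, h2⟩, hX⟩
      have := encode_injective h2
      subst this
      rw [mem_cyl_iff] at hX
      exact ⟨s, ζ.length, by rw [hX]; exact h⟩

theorem IsMLTest.exists_E {A : ℕ → Bool} {U : ℕ → Set (ℕ → Bool)} (h : IsMLTest A U) :
    ∃ E : List Bool × ℕ × List Bool → Prop, S1 E ∧ Mono3 E ∧ ∀ n, U n = UE E A n := by
  obtain ⟨⟨W, hW, hU⟩, -⟩ := h
  obtain ⟨E0, hE0, -, eE0⟩ := ceIn_iff.1 hW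
  obtain ⟨E, hE, mE, eE⟩ := exists_mono3 (E := fun x => E0 (x.1, Nat.pair x.2.1 (encode x.2.2)))
    (hE0.comp (Primrec.fst.pair (Primrec₂.natPair.comp (Primrec.fst.comp Primrec.snd)
      (Primrec.encode.comp (Primrec.snd.comp Primrec.snd)))))
  refine ⟨E, hE, mE, fun n => ?_⟩
  rw [hU, eE]
  ext X
  simp only [UE, Set.mem_ofPred_eq, Set.mem_iUnion, exists_prop, eE0]
  constructor
  · rintro ⟨σ, ⟨s, hs⟩, hX⟩
    rw [mem_cyl_iff] at hX
    exact ⟨s, σ.length, by rw [hX]; exact hs⟩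
  · rintro ⟨s, t, h⟩
    exact ⟨pre X t, ⟨s, h⟩, mem_cyl_pre _ _⟩

theorem tLe_iff {A B : ℕ → Bool} :
    TLe A B ↔ ∃ E : List Bool × ℕ × Bool → Prop, S1 E ∧
      (∀ σ τ n b, σ <+: τ → E (σ, n, b) → E (τ, n, b)) ∧ ∀ n b, A n = b ↔ ∃ s, E (pre B s, n, b) := by
  constructor
  · intro h
    obtain ⟨G, hG, mG, eG⟩ := recIn_graph (RecursiveIn.iff_nat.1 h)
    refine ⟨fun x => G (x.1, x.2.1, x.2.2.toNat), hG.comp ?_, ?_, ?_⟩
    · exact Primrec.fst.pair ((Primrec.fst.comp Primrec.snd).pair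
        ((Primrec.dom_bool Bool.toNat).comp (Primrec.snd.comp Primrec.snd)))
    · intro σ τ n b h h2
      exact mG _ _ _ _ h h2
    · intro n b
      have := eG n b.toNat
      simp only [chi, Part.mem_some_iff] at this
      rw [← this]
      cases b <;> cases A n <;> simp
  · rintro ⟨E, hE, -, eE⟩
    refine RecursiveIn.iff_nat.2 (recIn_of_graph
      (G := fun x => ∃ b : Bool, E (x.1, x.2.1, b) ∧ x.2.2 = b.toNat) ?_ ?_)
    · refine S1.ex (S1.and (hE.comp ?_) (S1.of_prim ?_))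
      · exact (Primrec.fst.comp Primrec.fst).pair
          ((Primrec.fst.comp (Primrec.snd.comp Primrec.fst)).pair Primrec.snd)
      · exact Primrec.eq.comp (Primrec.snd.comp (Primrec.snd.comp Primrec.fst))
          ((Primrec.dom_bool Bool.toNat).comp Primrec.snd)
    · intro n m
      simp only [chi, Part.mem_some_iff]
      constructor
      · rintro rfl
        obtain ⟨s, hs⟩ := (eE n _).1 rfl
        exact ⟨s, _, hs, rfl⟩
      · rintro ⟨s, b, hs, rfl⟩
        rw [(eE n b).2 ⟨s, hs⟩]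

theorem TLe.refl (A : ℕ → Bool) : TLe A A := TuringReducible.refl _

theorem TLe.trans {A B C : ℕ → Bool} (h : TLe A B) (h' : TLe B C) : TLe A C :=
  TuringReducible.trans h h'

theorem CEIn.mono {A B : ℕ → Bool} {W : Set ℕ} (h : TLe A B) (hW : CEIn A W) : CEIn B W := by
  obtain ⟨f, hf, h2⟩ := hW
  exact ⟨f, TuringReducible.trans hf h, h2⟩

theorem IsMLTest.mono {A B : ℕ → Bool} {U : ℕ → Set (ℕ → Bool)} (h : TLe A B)
    (hU : IsMLTest A U) : IsMLTest B U := by
  obtain ⟨⟨W, hW, h2⟩, h3⟩ := hU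
  exact ⟨⟨W, hW.mono h, h2⟩, h3⟩

theorem MLR.mono {A B X : ℕ → Bool} (h : TLe A B) (hX : MLR B X) : MLR A X :=
  fun U hU => hX U (hU.mono h)

theorem computable_iff_tLe {A : ℕ → Bool} : Computable A ↔ TLe A (fun _ => false) := by
  constructor
  · intro h
    have h1 : Computable (fun n => (A n).toNat) := (Primrec.dom_bool Bool.toNat).to_comp.comp h
    exact (Partrec.turingReducible (f := chi A) h1.partrec)
  · intro h
    have h1 : Partrec (chi A) := TuringReducible.partrec_of_const (s := Part.some 0) h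
    have h2 : Computable (fun n => (A n).toNat) := h1
    have h3 : Computable (fun n => decide ((A n).toNat = 1)) :=
      (Primrec.eq.comp Primrec.id (Primrec.const 1)).decide.to_comp.comp h2
    refine h3.of_eq fun n => ?_
    cases A n <;> rfl

end Pool.Agent.Helper227
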