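import Pool.Agent.Helper227.Maps

set_option autoImplicit false

namespace Pool.Agent.Helper227

open Encodable MeasureTheory
open scoped ENNReal

/-- even part -/
def evn (Z : ℕ → Bool) : ℕ → Bool := fun k => Z (2 * k)
/-- odd part -/
def odd' (Z : ℕ → Bool) : ℕ → Bool := fun k => Z (2 * k + 1)

theorem evn_join (X Y : ℕ → Bool) : evn (join X Y) = X := funext fun k => join_even X Y k
theorem odd_join (X Y : ℕ → Bool) : odd' (join X Y) = Y := funext fun k => join_odd X Y k

theorem join_evn_odd (Z : ℕ → Bool) : join (evn Z) (odd' Z) = Z := by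
  funext n
  rcases Nat.even_or_odd' n with ⟨k, rfl | rfl⟩
  · rw [join_even]; rfl
  · rw [join_odd]; rfl

theorem tLe_join_left (X Y : ℕ → Bool) : TLe X (join X Y) := by
  rw [tLe_iff]
  refine ⟨fun x => x.1[2 * x.2.1]? = some x.2.2, S1.of_prim ?_, ?_, ?_⟩
  · exact Primrec.eq.comp (Primrec.list_getElem?.comp Primrec.fst
      (Primrec.nat_mul.comp (Primrec.const 2) (Primrec.fst.comp Primrec.snd)))
      (Primrec.option_some.comp (Primrec.snd.comp Primrec.snd))
  · rintro σ τ n b ⟨ρ, rfl⟩ h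
    simp only at h ⊢
    have : 2 * n < σ.length := by
      by_contra hc
      rw [List.getElem?_eq_none (by omega)] at h
      cases h
    rw [List.getElem?_append_left this]
    exact h
  · intro n b
    constructor
    · intro h
      refine ⟨2 * n + 1, ?_⟩
      simp only
      rw [pre_getElem? _ _ _ (by omega), join_even, h]
    · rintro ⟨s, hs⟩
      simp only at hs
      by_cases h : 2 * n < s
      · rw [pre_getElem? _ _ _ h, join_even] at hs
        simpa using hs
      · rw [pre_getElem?_none _ _ _ (by omega)] at hs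
        cases hs

theorem tLe_join_right (X Y : ℕ → Bool) : TLe Y (join X Y) := by
  rw [tLe_iff]
  refine ⟨fun x => x.1[2 * x.2.1 + 1]? = some x.2.2, S1.of_prim ?_, ?_, ?_⟩
  · exact Primrec.eq.comp (Primrec.list_getElem?.comp Primrec.fst
      (Primrec.succ.comp (Primrec.nat_mul.comp (Primrec.const 2) (Primrec.fst.comp Primrec.snd))))
      (Primrec.option_some.comp (Primrec.snd.comp Primrec.snd))
  · rintro σ τ n b ⟨ρ, rfl⟩ h
    simp only at h ⊢
    have : 2 * n + 1 < σ.length := by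
      by_contra hc
      rw [List.getElem?_eq_none (by omega)] at h
      cases h
    rw [List.getElem?_append_left this]
    exact h
  · intro n b
    constructor
    · intro h
      refine ⟨2 * n + 2, ?_⟩
      simp only
      rw [pre_getElem? _ _ _ (by omega), join_odd, h]
    · rintro ⟨s, hs⟩
      simp only at hs
      by_cases h : 2 * n + 1 < s
      · rw [pre_getElem? _ _ _ h, join_odd] at hs
        simpa using hs
      · rw [pre_getElem?_none _ _ _ (by omega)] at hs
        cases hs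

theorem join_tLe {X Y Z : ℕ → Bool} (h1 : TLe X Z) (h2 : TLe Y Z) : TLe (join X Y) Z := by
  rw [tLe_iff] at h1 h2 ⊢
  obtain ⟨E1, hE1, m1, e1⟩ := h1
  obtain ⟨E2, hE2, m2, e2⟩ := h2
  refine ⟨fun x => (x.2.1 % 2 = 0 ∧ E1 (x.1, x.2.1 / 2, x.2.2)) ∨
    (¬ x.2.1 % 2 = 0 ∧ E2 (x.1, x.2.1 / 2, x.2.2)), ?_, ?_, ?_⟩
  · have hd : PrimrecPred fun x : List Bool × ℕ × Bool => x.2.1 % 2 = 0 :=
      Primrec.eq.comp (Primrec.nat_mod.comp (Primrec.fst.comp Primrec.snd) (Primrec.const 2))
        (Primrec.const 0)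
    have hc : Primrec fun x : List Bool × ℕ × Bool => (x.1, x.2.1 / 2, x.2.2) :=
      Primrec.fst.pair ((Primrec.nat_div.comp (Primrec.fst.comp Primrec.snd)
        (Primrec.const 2)).pair (Primrec.snd.comp Primrec.snd))
    exact S1.or (S1.and (S1.of_prim hd) (hE1.comp hc)) (S1.and (S1.of_prim hd.not) (hE2.comp hc))
  · rintro σ τ n b h (⟨h1, h2⟩ | ⟨h1, h2⟩)
    · exact Or.inl ⟨h1, m1 _ _ _ _ h h2⟩
    · exact Or.inr ⟨h1, m2 _ _ _ _ h h2⟩
  · intro n b
    by_cases hn : n % 2 = 0
    · simp only [hn, true_and, not_true_eq_false, false_and, or_false]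
      rw [← e1]
      unfold join
      rw [if_pos hn]
    · simp only [hn, false_and, not_false_eq_true, true_and, false_or]
      rw [← e2]
      unfold join
      rw [if_neg hn]

theorem xor_tLe {X Y Z : ℕ → Bool} (h1 : TLe X Z) (h2 : TLe Y Z) :
    TLe (fun n => xor (X n) (Y n)) Z := by
  rw [tLe_iff] at h1 h2 ⊢
  obtain ⟨E1, hE1, m1, e1⟩ := h1
  obtain ⟨E2, hE2, m2, e2⟩ := h2
  refine ⟨fun x => ∃ b1 : Bool, ∃ b2 : Bool, (E1 (x.1, x.2.1, b1) ∧ E2 (x.1, x.2.1, b2)) ∧
    x.2.2 = xor b1 b2, ?_, ?_, ?_⟩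
  · refine S1.ex (S1.ex (S1.and (S1.and (hE1.comp ?_) (hE2.comp ?_)) (S1.of_prim ?_)))
    · exact (Primrec.fst.comp (Primrec.fst.comp Primrec.fst)).pair
        ((Primrec.fst.comp (Primrec.snd.comp (Primrec.fst.comp Primrec.fst))).pair
          (Primrec.snd.comp Primrec.fst))
    · exact (Primrec.fst.comp (Primrec.fst.comp Primrec.fst)).pair
        ((Primrec.fst.comp (Primrec.snd.comp (Primrec.fst.comp Primrec.fst))).pair
          Primrec.snd)
    · exact Primrec.eq.comp (Primrec.snd.comp (Primrec.snd.comp (Primrec.fst.comp Primrec.fst)))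
        ((Primrec.dom_bool₂ xor).comp (Primrec.snd.comp Primrec.fst) Primrec.snd)
  · rintro σ τ n b h ⟨b1, b2, ⟨h1, h2⟩, h3⟩
    exact ⟨b1, b2, ⟨m1 _ _ _ _ h h1, m2 _ _ _ _ h h2⟩, h3⟩
  · intro n b
    constructor
    · rintro rfl
      obtain ⟨s, hs⟩ := (e1 n _).1 rfl
      obtain ⟨t, ht⟩ := (e2 n _).1 rfl
      exact ⟨max s t, _, _, ⟨m1 _ _ _ _ (pre_prefix Z (le_max_left _ _)) hs,
        m2 _ _ _ _ (pre_prefix Z (le_max_right _ _)) ht⟩, rfl⟩
    · rintro ⟨s, b1, b2, ⟨h1, h2⟩, h3⟩
      simp only at h3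
      rw [(e1 n b1).2 ⟨s, h1⟩, (e2 n b2).2 ⟨s, h2⟩, h3]

/-- a list obtained by reading positions -/
def rd (ζ : List Bool) (g : ℕ → ℕ) (t : ℕ) : List Bool :=
  (List.range t).map fun i => ζ.getD (g i) false

/-- General preservation of relative randomness under injective selections of bits, computable
in the oracle. -/
theorem MLR.select {A X : ℕ → Bool} (hX : MLR A X) {j : ℕ → ℕ} (hj : Function.Injective j)
    (jl : List Bool → ℕ → ℕ) (v : List Bool → ℕ → Prop) (hjl : Primrec₂ jl) (hv : PrimrecRel v)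
    (h1 : ∀ s i, v (pre A s) i → jl (pre A s) i = j i) (h2 : ∀ i, ∃ s₀, ∀ s ≥ s₀, v (pre A s) i) :
    MLR A (fun n => X (j n)) := by
  intro U hU hXU
  obtain ⟨E, hE, mE, hUE⟩ := hU.exists_E
  have hS : S1 fun x : List Bool × ℕ × List Bool => ∃ t : ℕ,
      (∀ i < t, v x.1 i ∧ jl x.1 i < x.2.2.length) ∧ E (x.1, x.2.1, rd x.2.2 (jl x.1) t) := by
    refine S1.ex (S1.and (S1.of_prim ?_) (hE.comp ?_))
    · refine PP.all_lt (α := (List Bool × ℕ × List Bool) × ℕ) (f := fun x => x.2)
        (p := fun x i => v x.1.1 i ∧ jl x.1.1 i < x.1.2.2.length) ?_ Primrec.snd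
      refine PrimrecPred.and ?_ ?_
      · exact hv.comp (Primrec.fst.comp (Primrec.fst.comp Primrec.fst)) Primrec.snd
      · exact Primrec.nat_lt.comp (hjl.comp (Primrec.fst.comp (Primrec.fst.comp Primrec.fst))
          Primrec.snd) (Primrec.list_length.comp (Primrec.snd.comp (Primrec.snd.comp
            (Primrec.fst.comp Primrec.fst))))
    · refine (Primrec.fst.comp Primrec.fst).pair ((Primrec.fst.comp (Primrec.snd.comp
        Primrec.fst)).pair ?_)
      unfold rd
      refine Primrec.list_map (Primrec.list_range.comp Primrec.snd) ?_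
      exact (Primrec.list_getD false).comp (Primrec.snd.comp (Primrec.snd.comp (Primrec.fst.comp
        Primrec.fst))) (hjl.comp (Primrec.fst.comp (Primrec.fst.comp Primrec.fst)) Primrec.snd)
  obtain ⟨E', hE', hEE'⟩ : ∃ E' : List Bool × ℕ × List Bool → Prop, S1 E' ∧ ∀ x, E' x ↔ ∃ t : ℕ,
      (∀ i < t, v x.1 i ∧ jl x.1 i < x.2.2.length) ∧ E (x.1, x.2.1, rd x.2.2 (jl x.1) t) :=
    ⟨_, hS, fun _ => Iff.rfl⟩
  have hset : ∀ n, UE E' A n = (fun (Z : ℕ → Bool) n => Z (j n)) ⁻¹' (U n) := by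
    intro n
    rw [hUE]
    ext Z
    simp only [UE, Set.mem_ofPred_eq, Set.mem_preimage, hEE']
    constructor
    · rintro ⟨s, m, t, ht, h⟩
      refine ⟨s, t, ?_⟩
      have : rd (pre Z m) (jl (pre A s)) t = pre (fun n => Z (j n)) t := by
        unfold rd pre
        refine List.map_congr_left fun i hi => ?_
        rw [List.mem_range] at hi
        obtain ⟨hv1, hv2⟩ := ht i hi
        rw [length_pre] at hv2
        have := pre_getD Z m (jl (pre A s) i) false hv2
        unfold pre at this hv1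
        rw [this]
        congr 1
        exact h1 s i hv1
      rw [← this]
      exact h
    · rintro ⟨s, t, h⟩
      -- choose `s'` large
      have key : ∀ t, ∃ s₀, ∀ s' ≥ s₀, ∀ i < t, v (pre A s') i := by
        intro t
        induction t with
        | zero => exact ⟨0, by simp⟩
        | succ t ih =>
          obtain ⟨a, ha⟩ := ih
          obtain ⟨b, hb⟩ := h2 t
          refine ⟨max a b, fun s' hs' i hi => ?_⟩
          rcases Nat.lt_succ_iff_lt_or_eq.1 hi with hi' | rfl
          · exact ha s' (le_trans (le_max_left _ _) hs') i hi'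
          · exact hb s' (le_trans (le_max_right _ _) hs')
      obtain ⟨s₀, hs₀⟩ := key t
      obtain ⟨M, hM⟩ : ∃ M, ∀ i < t, j i < M := by
        refine ⟨(Finset.range t).sup j + 1, fun i hi => Nat.lt_succ_of_le
          (Finset.le_sup (f := j) (Finset.mem_range.2 hi))⟩
      refine ⟨max s s₀, M, t, fun i hi => ?_, ?_⟩
      · have hvi := hs₀ (max s s₀) (le_max_right _ _) i hi
        refine ⟨hvi, ?_⟩
        rw [h1 _ _ hvi, length_pre]
        exact hM i hi
      · have : rd (pre Z M) (jl (pre A (max s s₀))) t = pre (fun n => Z (j n)) t := by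
          unfold rd
          conv_rhs => unfold pre
          refine List.map_congr_left fun i hi => ?_
          rw [List.mem_range] at hi
          have hvi := hs₀ (max s s₀) (le_max_right _ _) i hi
          rw [h1 _ _ hvi, pre_getD _ _ _ _ (hM i hi)]
        rw [this]
        exact mE _ _ _ _ _ (pre_prefix A (le_max_left _ _)) (List.prefix_rfl) h
  have hm : Measurable (fun (X : ℕ → Bool) n => X (j n)) :=
    measurable_pi_iff.2 fun n => measurable_pi_apply (j n)
  have hT : IsMLTest A (UE E' A) := by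
    refine isMLTest_of_E hE' fun n => ?_
    rw [hset, ← Measure.map_apply hm (by rw [hUE]; exact measurableSet_UE _ _ _), lam_comp hj]
    exact hU.2 n
  refine hX _ hT ?_
  rw [Set.mem_iInter] at hXU ⊢
  intro n
  rw [hset]
  exact hXU n

theorem MLR.comp {A X : ℕ → Bool} (hX : MLR A X) {j : ℕ → ℕ} (hj : Function.Injective j)
    (hjp : Primrec j) : MLR A (fun n => X (j n)) :=
  hX.select hj (fun _ i => j i) (fun _ _ => True) (hjp.comp Primrec.snd) (PP.const True)
    (fun _ _ _ => rfl) (fun _ => ⟨0, fun _ _ => trivial⟩)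

theorem MLR.left {A X Y : ℕ → Bool} (h : MLR A (join X Y)) : MLR A X := by
  have h1 := h.comp (j := fun k => 2 * k) (fun a b h => by simpa using h)
    (Primrec.nat_mul.comp (Primrec.const 2) Primrec.id)
  have h2 : (fun n => join X Y (2 * n)) = X := funext fun k => join_even X Y k
  rwa [h2] at h1

theorem MLR.symm {A X Y : ℕ → Bool} (h : MLR A (join X Y)) : MLR A (join Y X) := by
  have h1 := h.comp (j := fun k => if k % 2 = 0 then k + 1 else k - 1) (by
    intro a b hab
    simp only at hab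
    split_ifs at hab <;> omega)
    (Primrec.ite (Primrec.eq.comp (Primrec.nat_mod.comp Primrec.id (Primrec.const 2))
      (Primrec.const 0)) Primrec.succ Primrec.pred)
  have h2 : (fun n => join X Y (if n % 2 = 0 then n + 1 else n - 1)) = join Y X := by
    funext n
    rcases Nat.even_or_odd' n with ⟨k, rfl | rfl⟩
    · rw [if_pos (by omega), join_odd, join_even]
    · rw [if_neg (by omega), join_odd]
      exact join_even X Y k
  rwa [h2] at h1

theorem MLR.right {A X Y : ℕ → Bool} (h : MLR A (join X Y)) : MLR A Y := h.symm.left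

theorem lam_fubini {S : Set (ℕ → Bool)} (hS : MeasurableSet S) :
    lam S = ∫⁻ X, lam {Y | join X Y ∈ S} ∂lam := by
  conv_lhs => rw [← lam_join]
  rw [Measure.map_apply measurable_join hS, Measure.prod_apply (measurable_join hS)]
  rfl

theorem primrec_rd {α : Type*} [Primcodable α] {f : α → List Bool} {g : α → ℕ → ℕ} {t : α → ℕ}
    (hf : Primrec f) (hg : Primrec₂ g) (ht : Primrec t) : Primrec fun a => rd (f a) (g a) (t a) := by
  unfold rd
  exact Primrec.list_map (Primrec.list_range.comp ht)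
    ((Primrec.list_getD false).comp (hf.comp Primrec.fst) hg)

theorem rd_pre {X : ℕ → Bool} {m t : ℕ} {g : ℕ → ℕ} (h : ∀ i < t, g i < m) :
    rd (pre X m) g t = pre (fun i => X (g i)) t := by
  unfold rd
  conv_rhs => unfold pre
  refine List.map_congr_left fun i hi => ?_
  rw [List.mem_range] at hi
  rw [pre_getD _ _ _ _ (h i hi)]

/-- interleaving of finite pieces of two strings -/
def jz (ξ η : List Bool) (t : ℕ) : List Bool :=
  (List.range t).map fun i => if i % 2 = 0 then ξ.getD (i / 2) false else η.getD (i / 2) false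

theorem primrec_jz {α : Type*} [Primcodable α] {f g : α → List Bool} {t : α → ℕ}
    (hf : Primrec f) (hg : Primrec g) (ht : Primrec t) : Primrec fun a => jz (f a) (g a) (t a) := by
  unfold jz
  refine Primrec.list_map (Primrec.list_range.comp ht) ?_
  refine Primrec.ite (Primrec.eq.comp (Primrec.nat_mod.comp Primrec.snd (Primrec.const 2))
    (Primrec.const 0)) ?_ ?_
  · exact (Primrec.list_getD false).comp (hf.comp Primrec.fst)
      (Primrec.nat_div.comp Primrec.snd (Primrec.const 2))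
  · exact (Primrec.list_getD false).comp (hg.comp Primrec.fst)
      (Primrec.nat_div.comp Primrec.snd (Primrec.const 2))

theorem jz_pre {X Y : ℕ → Bool} {a b t : ℕ} (ha : t ≤ a) (hb : t ≤ b) :
    jz (pre X a) (pre Y b) t = pre (join X Y) t := by
  unfold jz
  conv_rhs => unfold pre join
  refine List.map_congr_left fun i hi => ?_
  rw [List.mem_range] at hi
  rw [pre_getD _ _ _ _ (by omega), pre_getD _ _ _ _ (by omega)]

/-- van Lambalgen, easy direction. -/
theorem MLR.right_rel {A X Y : ℕ → Bool} (h : MLR A (join X Y)) : MLR (join A X) Y := by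
  obtain ⟨E, hE, mE, hEm, hEU⟩ := exists_universal
  by_contra hY
  rw [hEU] at hY
  push Not at hY
  have hS : S1 fun x : List Bool × ℕ × List Bool => ∃ s : ℕ, ∃ t : ℕ,
      ((s ≤ x.1.length ∧ 2 * s ≤ x.2.2.length) ∧ 2 * t ≤ x.2.2.length) ∧
      E (jz x.1 (rd x.2.2 (fun i => 2 * i) s) s, x.2.1, rd x.2.2 (fun i => 2 * i + 1) t) := by
    refine S1.ex (S1.ex (S1.and (S1.of_prim (PrimrecPred.and (PrimrecPred.and ?_ ?_) ?_))
      (hE.comp ?_)))
    · exact Primrec.nat_le.comp (Primrec.snd.comp Primrec.fst)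
        (Primrec.list_length.comp (Primrec.fst.comp (Primrec.fst.comp Primrec.fst)))
    · exact Primrec.nat_le.comp (Primrec.nat_mul.comp (Primrec.const 2)
        (Primrec.snd.comp Primrec.fst)) (Primrec.list_length.comp (Primrec.snd.comp
          (Primrec.snd.comp (Primrec.fst.comp Primrec.fst))))
    · exact Primrec.nat_le.comp (Primrec.nat_mul.comp (Primrec.const 2) Primrec.snd)
        (Primrec.list_length.comp (Primrec.snd.comp (Primrec.snd.comp (Primrec.fst.comp
          Primrec.fst))))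
    · refine (primrec_jz (Primrec.fst.comp (Primrec.fst.comp Primrec.fst)) (primrec_rd ?_ ?_ ?_)
        (Primrec.snd.comp Primrec.fst)).pair ((Primrec.fst.comp (Primrec.snd.comp
          (Primrec.fst.comp Primrec.fst))).pair (primrec_rd ?_ ?_ Primrec.snd))
      · exact Primrec.snd.comp (Primrec.snd.comp (Primrec.fst.comp Primrec.fst))
      · exact Primrec.nat_mul.comp (Primrec.const 2) Primrec.snd
      · exact Primrec.snd.comp Primrec.fst
      · exact Primrec.snd.comp (Primrec.snd.comp (Primrec.fst.comp Primrec.fst))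
      · exact Primrec.succ.comp (Primrec.nat_mul.comp (Primrec.const 2) Primrec.snd)
  obtain ⟨E', hE', hEE'⟩ : ∃ E' : List Bool × ℕ × List Bool → Prop, S1 E' ∧ ∀ x, E' x ↔
      ∃ s : ℕ, ∃ t : ℕ,
      ((s ≤ x.1.length ∧ 2 * s ≤ x.2.2.length) ∧ 2 * t ≤ x.2.2.length) ∧
      E (jz x.1 (rd x.2.2 (fun i => 2 * i) s) s, x.2.1, rd x.2.2 (fun i => 2 * i + 1) t) :=
    ⟨_, hS, fun _ => Iff.rfl⟩
  have hset : ∀ n, UE E' A n = {Z | odd' Z ∈ UE E (join A (evn Z)) n} := by
    intro n
    ext Z
    simp only [UE, Set.mem_ofPred_eq, hEE', length_pre]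
    constructor
    · rintro ⟨S, T, s, t, ⟨⟨h1, h2⟩, h3⟩, h4⟩
      rw [rd_pre (by intro i hi; omega), rd_pre (by intro i hi; omega)] at h4
      have h5 := jz_pre (X := A) (Y := fun i => Z (2 * i)) (a := S) (b := s) (t := s) h1 le_rfl
      rw [h5] at h4
      exact ⟨s, t, h4⟩
    · rintro ⟨s, t, h⟩
      refine ⟨s, 2 * s + 2 * t, s, t, ⟨⟨by omega, by omega⟩, by omega⟩, ?_⟩
      rw [rd_pre (by intro i hi; omega), rd_pre (by intro i hi; omega)]
      have h5 := jz_pre (X := A) (Y := fun i => Z (2 * i)) (a := s) (b := s) (t := s) le_rfl le_rfl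
      rw [h5]
      exact h
  have hT : IsMLTest A (UE E' A) := by
    refine isMLTest_of_E hE' fun n => ?_
    rw [lam_fubini (measurableSet_UE _ _ _)]
    have : ∀ X', lam {Y | join X' Y ∈ UE E' A n} ≤ (1 / 2) ^ n := by
      intro X'
      rw [hset]
      simp only [Set.mem_ofPred_eq, evn_join, odd_join]
      exact hEm _ _
    refine le_trans (lintegral_mono this) ?_
    simp
  refine h _ hT ?_
  rw [Set.mem_iInter]
  intro n
  rw [hset]
  simp only [Set.mem_ofPred_eq, evn_join, odd_join]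
  exact hY n

/-- van Lambalgen, hard direction. -/
theorem MLR.join_of {A X Y : ℕ → Bool} (hX : MLR A X) (hY : MLR (join A X) Y) :
    MLR A (join X Y) := by
  intro U hU hXY
  obtain ⟨F, hF, mF, hUF⟩ := hU.exists_E
  -- the finite-information version of the sections
  have hP : S1 fun x : (List Bool × ℕ × List Bool) × List Bool => ∃ t : ℕ,
      (t ≤ x.1.2.2.length ∧ t ≤ x.2.length) ∧ F (x.1.1, 2 * x.1.2.1, jz x.1.2.2 x.2 t) := by
    refine S1.ex (S1.and (S1.of_prim (PrimrecPred.and ?_ ?_)) (hF.comp ?_))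
    · exact Primrec.nat_le.comp Primrec.snd (Primrec.list_length.comp (Primrec.snd.comp
        (Primrec.snd.comp (Primrec.fst.comp Primrec.fst))))
    · exact Primrec.nat_le.comp Primrec.snd (Primrec.list_length.comp (Primrec.snd.comp
        Primrec.fst))
    · exact (Primrec.fst.comp (Primrec.fst.comp Primrec.fst)).pair
        ((Primrec.nat_mul.comp (Primrec.const 2) (Primrec.fst.comp (Primrec.snd.comp
          (Primrec.fst.comp Primrec.fst)))).pair
        (primrec_jz (Primrec.snd.comp (Primrec.snd.comp (Primrec.fst.comp Primrec.fst)))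
          (Primrec.snd.comp Primrec.fst) Primrec.snd))
  obtain ⟨P, hP, hPP⟩ : ∃ P : (List Bool × ℕ × List Bool) → List Bool → Prop,
      (S1 fun x : (List Bool × ℕ × List Bool) × List Bool => P x.1 x.2) ∧
      ∀ x η, P x η ↔ ∃ t : ℕ, (t ≤ x.2.2.length ∧ t ≤ η.length) ∧
        F (x.1, 2 * x.2.1, jz x.2.2 η t) := ⟨fun x η => ∃ t : ℕ, (t ≤ x.2.2.length ∧
        t ≤ η.length) ∧ F (x.1, 2 * x.2.1, jz x.2.2 η t), hP, fun _ _ => Iff.rfl⟩
  have hE' : S1 fun x : List Bool × ℕ × List Bool =>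
      ((1 : ℕ) : ℝ≥0∞) / ((2 ^ x.2.1 : ℕ) : ℝ≥0∞) < lam {Y | ∃ t, P x (pre Y t)} :=
    s1_measure_gt hP (Primrec.const 1) (primrec_pow.comp (Primrec.const 2)
      (Primrec.fst.comp Primrec.snd)) (fun x => by positivity)
  obtain ⟨E', hE', hEE'⟩ : ∃ E' : List Bool × ℕ × List Bool → Prop, S1 E' ∧ ∀ x, E' x ↔
      (1 / 2 : ℝ≥0∞) ^ x.2.1 < lam {Y | ∃ t, P x (pre Y t)} := by
    refine ⟨_, hE', fun x => ?_⟩
    simp [ENNReal.inv_pow]
  -- the sections
  obtain ⟨S, hSdef⟩ : ∃ S : (ℕ → Bool) → ℕ → Set (ℕ → Bool),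
      ∀ X' n, S X' n = {Y | join X' Y ∈ U (2 * n)} := ⟨_, fun _ _ => rfl⟩
  have hsec : ∀ X' n, S X' n = ⋃ m, {Y | ∃ t, P (pre A m, n, pre X' m) (pre Y t)} := by
    intro X' n
    rw [hSdef, hUF]
    ext Y
    simp only [UE, Set.mem_ofPred_eq, Set.mem_iUnion, hPP, length_pre]
    constructor
    · rintro ⟨s, t, h⟩
      refine ⟨max s t, t, t, ⟨le_max_right _ _, le_rfl⟩, ?_⟩
      rw [jz_pre (le_max_right _ _) le_rfl]
      exact mF _ _ _ _ _ (pre_prefix A (le_max_left _ _)) List.prefix_rfl h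
    · rintro ⟨m, t', t, ⟨h1, h2⟩, h3⟩
      rw [jz_pre h1 h2] at h3
      exact ⟨m, t, h3⟩
  have hmono : ∀ X' n, Monotone fun m => {Y | ∃ t, P (pre A m, n, pre X' m) (pre Y t)} := by
    intro X' n m m' hmm Y
    simp only [Set.mem_ofPred_eq, hPP, length_pre]
    rintro ⟨t', t, ⟨h1, h2⟩, h3⟩
    refine ⟨t', t, ⟨le_trans h1 hmm, h2⟩, ?_⟩
    rw [jz_pre (le_trans h1 hmm) h2]
    rw [jz_pre h1 h2] at h3
    exact mF _ _ _ _ _ (pre_prefix A hmm) List.prefix_rfl h3
  have hVset : ∀ n, {X' | (1 / 2 : ℝ≥0∞) ^ n < lam (S X' n)} ⊆ UE E' A n := by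
    intro n X' hX'
    rw [Set.mem_ofPred_eq, hsec, (hmono X' n).measure_iUnion] at hX'
    obtain ⟨m, hm⟩ := lt_iSup_iff.1 hX'
    exact ⟨m, m, (hEE' _).2 hm⟩
  have hVset2 : ∀ n, UE E' A n ⊆ {X' | (1 / 2 : ℝ≥0∞) ^ n ≤ lam (S X' n)} := by
    rintro n X' ⟨s, t, h⟩
    rw [hEE'] at h
    refine le_trans (le_of_lt h) ?_
    rw [hsec]
    refine measure_mono fun Y hY => ?_
    simp only [Set.mem_ofPred_eq, hPP, length_pre, Set.mem_iUnion] at hY ⊢
    obtain ⟨t', t'', ⟨h1, h2⟩, h3⟩ := hY
    refine ⟨max s t, t', t'', ⟨le_trans h1 (le_max_right _ _), h2⟩, ?_⟩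
    rw [jz_pre (le_trans h1 (le_max_right _ _)) h2]
    rw [jz_pre h1 h2] at h3
    exact mF _ _ _ _ _ (pre_prefix A (le_max_left _ _)) List.prefix_rfl h3
  have hVm : ∀ n, lam (UE E' A n) ≤ (1 / 2) ^ n := by
    intro n
    have hmU : MeasurableSet (U (2 * n)) := by rw [hUF]; exact measurableSet_UE _ _ _
    have hint : ∫⁻ X', lam (S X' n) ∂lam ≤ (1 / 2) ^ (2 * n) := by
      have := hU.2 (2 * n)
      rw [lam_fubini hmU] at this
      simpa only [hSdef] using this
    have hmeas : Measurable fun X' => lam (S X' n) := by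
      simp only [hSdef]
      exact measurable_measure_prodMk_left (measurable_join hmU)
    have hmk := mul_meas_ge_le_lintegral (μ := lam) hmeas ((1 / 2 : ℝ≥0∞) ^ n)
    have h3 : (1 / 2 : ℝ≥0∞) ^ n * lam (UE E' A n) ≤ (1 / 2) ^ n * (1 / 2) ^ n := by
      calc (1 / 2 : ℝ≥0∞) ^ n * lam (UE E' A n)
          ≤ (1 / 2 : ℝ≥0∞) ^ n * lam {X' | (1 / 2 : ℝ≥0∞) ^ n ≤ lam (S X' n)} := by
            gcongr; exact hVset2 n
        _ ≤ ∫⁻ X', lam (S X' n) ∂lam := hmk
        _ ≤ (1 / 2) ^ (2 * n) := hint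
        _ = (1 / 2) ^ n * (1 / 2) ^ n := by rw [two_mul, pow_add]
    exact (ENNReal.mul_le_mul_iff_right (pow_ne_zero _ (by simp))
      (ENNReal.pow_ne_top (by norm_num))).1 h3
  -- tails
  have hE'' : S1 fun x : List Bool × ℕ × List Bool => ∃ k : ℕ, E' (x.1, x.2.1 + k + 1, x.2.2) := by
    refine S1.ex (hE'.comp ?_)
    exact (Primrec.fst.comp Primrec.fst).pair ((Primrec.succ.comp (Primrec.nat_add.comp
      (Primrec.fst.comp (Primrec.snd.comp Primrec.fst)) Primrec.snd)).pair
        (Primrec.snd.comp (Primrec.snd.comp Primrec.fst)))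
  obtain ⟨E'', hE'', hEE''⟩ : ∃ E'' : List Bool × ℕ × List Bool → Prop, S1 E'' ∧ ∀ x, E'' x ↔
      ∃ k : ℕ, E' (x.1, x.2.1 + k + 1, x.2.2) := ⟨_, hE'', fun _ => Iff.rfl⟩
  have hset'' : ∀ n, UE E'' A n = ⋃ k : ℕ, UE E' A (n + k + 1) := by
    intro n
    ext Z
    simp only [UE, Set.mem_ofPred_eq, Set.mem_iUnion, hEE'']
    constructor
    · rintro ⟨s, t, k, h⟩
      exact ⟨k, s, t, h⟩
    · rintro ⟨k, s, t, h⟩
      exact ⟨s, t, k, h⟩
  have hT : IsMLTest A (UE E'' A) := by
    refine isMLTest_of_E hE'' fun n => ?_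
    rw [hset'']
    refine le_trans (measure_iUnion_le _) ?_
    rw [← tsum_half_pow n]
    exact ENNReal.tsum_le_tsum fun k => hVm _
  have hX2 := hX _ hT
  rw [Set.mem_iInter] at hX2
  push Not at hX2
  obtain ⟨n₀, hn₀⟩ := hX2
  have hbound : ∀ m, lam (S X (m + n₀ + 1)) ≤ (1 / 2) ^ m := by
    intro m
    by_contra hc
    rw [not_le] at hc
    apply hn₀
    rw [hset'', Set.mem_iUnion]
    refine ⟨m, hVset _ ?_⟩
    rw [Set.mem_ofPred_eq, show n₀ + m + 1 = m + n₀ + 1 by ring]
    refine lt_of_le_of_lt ?_ hc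
    exact pow_le_pow_of_le_one (by simp) (by norm_num) (by omega)
  -- a test relative to `join A X` capturing `Y`
  have hS3 : S1 fun x : List Bool × ℕ × List Bool => ∃ s : ℕ, ∃ t : ℕ,
      ((2 * s ≤ x.1.length ∧ 2 * t ≤ x.1.length) ∧ t ≤ x.2.2.length) ∧
      F (rd x.1 (fun i => 2 * i) s, 2 * (x.2.1 + n₀ + 1),
        jz (rd x.1 (fun i => 2 * i + 1) t) x.2.2 t) := by
    have e1 : Primrec fun x : ((List Bool × ℕ × List Bool) × ℕ) × ℕ => x.1.1.1 :=
      Primrec.fst.comp (Primrec.fst.comp Primrec.fst)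
    refine S1.ex (S1.ex (S1.and (S1.of_prim (PrimrecPred.and (PrimrecPred.and ?_ ?_) ?_))
      (hF.comp ?_)))
    · exact Primrec.nat_le.comp (Primrec.nat_mul.comp (Primrec.const 2)
        (Primrec.snd.comp Primrec.fst)) (Primrec.list_length.comp e1)
    · exact Primrec.nat_le.comp (Primrec.nat_mul.comp (Primrec.const 2)
        Primrec.snd) (Primrec.list_length.comp e1)
    · exact Primrec.nat_le.comp Primrec.snd (Primrec.list_length.comp (Primrec.snd.comp
        (Primrec.snd.comp (Primrec.fst.comp Primrec.fst))))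
    · refine (primrec_rd e1 ?_
        (Primrec.snd.comp Primrec.fst)).pair ((Primrec.nat_mul.comp (Primrec.const 2)
          (Primrec.succ.comp (Primrec.nat_add.comp (Primrec.fst.comp (Primrec.snd.comp
            (Primrec.fst.comp Primrec.fst))) (Primrec.const n₀)))).pair
          (primrec_jz (primrec_rd e1 ?_ Primrec.snd) (Primrec.snd.comp (Primrec.snd.comp
            (Primrec.fst.comp Primrec.fst))) Primrec.snd))
      · exact Primrec.nat_mul.comp (Primrec.const 2) Primrec.snd
      · exact Primrec.succ.comp (Primrec.nat_mul.comp (Primrec.const 2) Primrec.snd)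
  obtain ⟨E3, hE3, hEE3⟩ : ∃ E3 : List Bool × ℕ × List Bool → Prop, S1 E3 ∧ ∀ x, E3 x ↔
      ∃ s : ℕ, ∃ t : ℕ, ((2 * s ≤ x.1.length ∧ 2 * t ≤ x.1.length) ∧ t ≤ x.2.2.length) ∧
      F (rd x.1 (fun i => 2 * i) s, 2 * (x.2.1 + n₀ + 1),
        jz (rd x.1 (fun i => 2 * i + 1) t) x.2.2 t) := ⟨_, hS3, fun _ => Iff.rfl⟩
  have hset3 : ∀ m, UE E3 (join A X) m = S X (m + n₀ + 1) := by
    intro m
    rw [hSdef, hUF]
    ext Z
    simp only [UE, Set.mem_ofPred_eq, hEE3, length_pre]
    have hA : (fun i => join A X (2 * i)) = A := funext fun i => join_even A X i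
    have hX' : (fun i => join A X (2 * i + 1)) = X := funext fun i => join_odd A X i
    constructor
    · rintro ⟨S', T, s, t, ⟨⟨h1, h2⟩, h3⟩, h4⟩
      rw [rd_pre (by intro i hi; omega), rd_pre (by intro i hi; omega), hA, hX',
        jz_pre le_rfl h3] at h4
      exact ⟨s, t, h4⟩
    · rintro ⟨s, t, h⟩
      refine ⟨2 * s + 2 * t, t, s, t, ⟨⟨by omega, by omega⟩, by omega⟩, ?_⟩
      rw [rd_pre (by intro i hi; omega), rd_pre (by intro i hi; omega), hA, hX',
        jz_pre le_rfl le_rfl]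
      exact h
  have hT3 : IsMLTest (join A X) (UE E3 (join A X)) := by
    refine isMLTest_of_E hE3 fun m => ?_
    rw [hset3]
    exact hbound m
  refine hY _ hT3 ?_
  rw [Set.mem_iInter] at hXY ⊢
  intro m
  rw [hset3, hSdef]
  exact hXY _

/-- translation by a set computable in the oracle preserves randomness. -/
theorem MLR.xor_of {D X Z : ℕ → Bool} (hZ : MLR D Z) (hX : TLe X D) :
    MLR D (fun n => xor (Z n) (X n)) := by
  intro U hU hXU
  obtain ⟨E, hE, mE, hUE⟩ := hU.exists_E
  obtain ⟨E1, hE1, m1, e1⟩ := tLe_iff.1 hX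
  have hS : S1 fun x : List Bool × ℕ × List Bool => ∃ ξ : List Bool,
      (ξ.length ≤ x.2.2.length ∧ ∀ i < ξ.length, E1 (x.1, i, ξ.getD i false)) ∧
      E (x.1, x.2.1, (List.range ξ.length).map fun i =>
        xor (x.2.2.getD i false) (ξ.getD i false)) := by
    refine S1.ex (S1.and (S1.and (S1.of_prim ?_) (S1.all_lt (hE1.comp ?_) ?_)) (hE.comp ?_))
    · exact Primrec.nat_le.comp (Primrec.list_length.comp Primrec.snd)
        (Primrec.list_length.comp (Primrec.snd.comp (Primrec.snd.comp Primrec.fst)))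
    · exact (Primrec.fst.comp (Primrec.fst.comp Primrec.fst)).pair (Primrec.snd.pair
        ((Primrec.list_getD false).comp (Primrec.snd.comp Primrec.fst) Primrec.snd))
    · exact Primrec.list_length.comp Primrec.snd
    · refine (Primrec.fst.comp Primrec.fst).pair ((Primrec.fst.comp (Primrec.snd.comp
        Primrec.fst)).pair (Primrec.list_map (Primrec.list_range.comp (Primrec.list_length.comp
          Primrec.snd)) ?_))
      exact (Primrec.dom_bool₂ xor).comp
        ((Primrec.list_getD false).comp (Primrec.snd.comp (Primrec.snd.comp (Primrec.fst.comp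
          Primrec.fst))) Primrec.snd)
        ((Primrec.list_getD false).comp (Primrec.snd.comp Primrec.fst) Primrec.snd)
  obtain ⟨E', hE', hEE'⟩ : ∃ E' : List Bool × ℕ × List Bool → Prop, S1 E' ∧ ∀ x, E' x ↔
      ∃ ξ : List Bool,
      (ξ.length ≤ x.2.2.length ∧ ∀ i < ξ.length, E1 (x.1, i, ξ.getD i false)) ∧
      E (x.1, x.2.1, (List.range ξ.length).map fun i =>
        xor (x.2.2.getD i false) (ξ.getD i false)) := ⟨_, hS, fun _ => Iff.rfl⟩
  have hset : ∀ n, UE E' D n = (fun (Z : ℕ → Bool) n => xor (Z n) (X n)) ⁻¹' (U n) := by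
    intro n
    rw [hUE]
    ext Z
    simp only [UE, Set.mem_ofPred_eq, Set.mem_preimage, hEE', length_pre]
    constructor
    · rintro ⟨s, m, ξ, ⟨h1, h2⟩, h3⟩
      refine ⟨s, ξ.length, ?_⟩
      have : ((List.range ξ.length).map fun i =>
        xor ((pre Z m).getD i false) (ξ.getD i false)) =
          pre (fun n => xor (Z n) (X n)) ξ.length := by
        conv_rhs => unfold pre
        refine List.map_congr_left fun i hi => ?_
        rw [List.mem_range] at hi
        rw [pre_getD _ _ _ _ (by omega), (e1 i _).2 ⟨s, h2 i hi⟩]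
      rw [← this]
      exact h3
    · rintro ⟨s, t, h⟩
      have key : ∀ t, ∃ s₀, ∀ i < t, E1 (pre D s₀, i, X i) := by
        intro t
        induction t with
        | zero => exact ⟨0, by simp⟩
        | succ t ih =>
          obtain ⟨a, ha⟩ := ih
          obtain ⟨b, hb⟩ := (e1 t _).1 rfl
          refine ⟨max a b, fun i hi => ?_⟩
          rcases Nat.lt_succ_iff_lt_or_eq.1 hi with hi' | rfl
          · exact m1 _ _ _ _ (pre_prefix D (le_max_left _ _)) (ha i hi')
          · exact m1 _ _ _ _ (pre_prefix D (le_max_right _ _)) hb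
      obtain ⟨s₀, hs₀⟩ := key t
      refine ⟨max s s₀, t, pre X t, ⟨by simp, fun i hi => ?_⟩, ?_⟩
      · rw [length_pre] at hi
        rw [pre_getD _ _ _ _ hi]
        exact m1 _ _ _ _ (pre_prefix D (le_max_right _ _)) (hs₀ i hi)
      · rw [length_pre]
        have : ((List.range t).map fun i =>
          xor ((pre Z t).getD i false) ((pre X t).getD i false)) =
            pre (fun n => xor (Z n) (X n)) t := by
          conv_rhs => unfold pre
          refine List.map_congr_left fun i hi => ?_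
          rw [List.mem_range] at hi
          rw [pre_getD _ _ _ _ hi, pre_getD _ _ _ _ hi]
        rw [this]
        exact mE _ _ _ _ _ (pre_prefix D (le_max_left _ _)) List.prefix_rfl h
  have hm : Measurable (fun (Z : ℕ → Bool) n => xor (Z n) (X n)) := by
    refine measurable_pi_iff.2 fun n => ?_
    exact (measurable_of_finite (fun b : Bool => xor b (X n))).comp (measurable_pi_apply n)
  have hT : IsMLTest D (UE E' D) := by
    refine isMLTest_of_E hE' fun n => ?_
    rw [hset, ← Measure.map_apply hm (by rw [hUE]; exact measurableSet_UE _ _ _), lam_xor]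
    exact hU.2 n
  refine hZ _ hT ?_
  rw [Set.mem_iInter] at hXU ⊢
  intro n
  rw [hset]
  exact hXU n

end Pool.Agent.Helper227
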